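import Pool.Agent.Lib.H89T.AlgFinal
import Pool.Agent.Lib.H78G.DD

set_option autoImplicit false

/-!
# H53Y: second main theorem with TOTAL truncation level one for generic hypersurfaces of ALL types
`(d_1, ..., d_q)` with `d_1 + ... + d_q ≥ D₀ (n, ε)`

Definitions.  See PROOF.md.  Blocks `s : β` of coordinates (dimension `m s`), factors `i : ι` (the
factor `i` is a polynomial of degree at most `dg i` in the coordinates of the block `sb i`).  All
coordinates together are the coordinates of one affine space, `e : Co m ≃ Fin n`.  Everything of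
`Lib/H89T` (jets `JV n r`, arcs, `ev`, `Fx`, `uR`, `NN`, `PropA`, `HasMon`, `HasWt`, `QQ`, `ch`, ...) is
reused.
-/

open MvPolynomial

namespace Pool.Agent.H53Y

open Pool.Agent.H89T Pool.Agent.H78G Pool.Agent.H67T

/-- The coordinates of all blocks. -/
abbrev Co {β : Type} (m : β → ℕ) : Type := Σ s : β, Fin (m s)

/-- The coefficients of all factors. -/
abbrev Cf {β ι : Type} (m : β → ℕ) (sb : ι → β) (dg : ι → ℕ) : Type :=
  Σ i : ι, Idx (m (sb i)) (dg i)

section General

variable {β : Type} [DecidableEq β] {m : β → ℕ} {n r : ℕ} {ι : Type} {sb : ι → β} {dg : ι → ℕ}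
variable {B : Type} [CommRing B]

/-- The jet of the block `s`. -/
def bj {B : Type} (e : Co m ≃ Fin n) (ξ : JV n r → B) (s : β) : JV (m s) r → B :=
  fun q => ξ (e ⟨s, q.1⟩, q.2)

/-- The point of the block `s`. -/
def bx {B : Type} (e : Co m ≃ Fin n) (x : Fin n → B) (s : β) : Fin (m s) → B :=
  fun b => x (e ⟨s, b⟩)

/-- The factor `i` on the arc of `ξ`. -/
noncomputable def fa (e : Co m ≃ Fin n) (a : Cf m sb dg → B) (ξ : JV n r → B) (i : ι) :
    Polynomial B :=
  Fx (fun α => a ⟨i, α⟩) (bj e ξ (sb i))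

/-- The value of the factor `i` at the point `x`. -/
def fv (e : Co m ≃ Fin n) (a : Cf m sb dg → B) (x : Fin n → B) (i : ι) : B :=
  ev (fun α => a ⟨i, α⟩) (bx e x (sb i))

/-- The factor `i` as a polynomial in all coordinates. -/
noncomputable def fp (e : Co m ≃ Fin n) (a : Cf m sb dg → B) (i : ι) : MvPolynomial (Fin n) B :=
  ∑ α : Idx (m (sb i)) (dg i), C (a ⟨i, α⟩) * ∏ b, X (e ⟨sb i, b⟩) ^ (α.1 b : ℕ)

/-- The degree of the product of the factors of the block `s`. -/
def Dg [Fintype ι] (sb : ι → β) (dg : ι → ℕ) (s : β) : ℕ :=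
  ∑ i ∈ Finset.univ.filter (fun i => sb i = s), dg i

/-- The product of the factors of the block `s`. -/
noncomputable def bp [Fintype ι] (e : Co m ≃ Fin n) (a : Cf m sb dg → B) (s : β) :
    MvPolynomial (Fin n) B :=
  ∏ i ∈ Finset.univ.filter (fun i => sb i = s), fp e a i

/-- The coefficients of the product of the factors of the block `s`. -/
noncomputable def bc [Fintype ι] (e : Co m ≃ Fin n) (a : Cf m sb dg → B) (s : β) :
    Idx n (Dg sb dg s) → B :=
  toG _ (bp e a s)

/-- The `l`-th Taylor coefficient of the factor `i` on the arc of the generic jet. -/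
noncomputable def us (e : Co m ≃ Fin n) (a : Cf m sb dg → B) (i : ι) (l : ℕ) :
    MvPolynomial (JV n r) B :=
  uu (fun α => C (a ⟨i, α⟩)) (bj e (fun q => X q) (sb i)) l

/-- The ideal of the pair `(i, i')` of factors: tangency for `i = i'`, crossing for `i ≠ i'`. -/
noncomputable def IG [DecidableEq ι] (e : Co m ≃ Fin n) (a : Cf m sb dg → B) (i i' : ι) :
    Ideal (MvPolynomial (JV n r) B) :=
  if i = i' then Ideal.span {us e a i 0, us e a i 1} else Ideal.span {us e a i 0, us e a i' 0}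

/-- Property (A) for the pairs of factors: the first `q` derivatives of `P` belong to all the ideals
`IG e a i i'`. -/
def PropG [DecidableEq ι] (e : Co m ≃ Fin n) (a : Cf m sb dg → B) (q : ℕ)
    (P : MvPolynomial (JV n r) B) : Prop :=
  ∀ l < q, ∀ i i' : ι, (NN n r B)^[l] P ∈ IG e a i i'

end General

/-- The algebraic theorem.  `T s = true`: the block `s` is small (all factors are linear polynomials),
`T s = false`: it is large (all factors are of large degree). -/
def AlgG {β : Type} [Fintype β] [DecidableEq β] (m : β → ℕ) (T : β → Bool) {n : ℕ}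
    (e : Co m ≃ Fin n) (α : ℝ) : Prop :=
  ∃ (r C : ℕ) (hr : ∀ s, m s ≤ r), 1 ≤ r ∧
    ∀ (ι : Type) [Fintype ι] [DecidableEq ι] (sb : ι → β) (dg : ι → ℕ),
      (∀ i, T (sb i) = true → dg i = 1) → (∀ i, T (sb i) = false → C ≤ dg i) →
      ∃ W : MvPolynomial (Fin n ⊕ Cf m sb dg) ℂ, W ≠ 0 ∧
        ∀ (a : Cf m sb dg → ℂ) (ξ : JV n r → ℂ),
          eval (Sum.elim (fun b => ξ (b, 0)) a) W ≠ 0 →
          (∀ i, fv e a (fun b => ξ (b, 0)) i ≠ 0) →
          (∀ s, T s = true → Wd (hr s) (bj e ξ s) ≠ 0) →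
          (∀ s, T s = false → ∃ b, ∃ l : Fin (r + 1), (l : ℕ) = 1 ∧ bj e ξ s (b, l) ≠ 0) →
          ∃ (d : ℕ) (P : MvPolynomial (JV n r) ℂ),
            (d : ℝ) ≤ α * r * (∑ i, dg i : ℕ) + C ∧ HasWt d P ∧ PropG e a r P ∧ eval ξ P ≠ 0

/-- The data of one curve (Part D).  `y` is the curve in the projective space of dimension `N`,
`w s` its coordinates in the block `s` (forms of degree `eg s` in `y`), `F i` the factors. -/
structure CurveY (N : ℕ) {β : Type} (m : β → ℕ) (ι : Type) [Fintype ι] (sb : ι → β)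
    (dg : ι → ℕ) where
  /-- the curve -/
  y : ℂ → Fin (N + 1) → ℂ
  /-- the coordinates in the blocks -/
  w : (s : β) → ℂ → Fin (m s + 1) → ℂ
  /-- the degree of `w s` in `y` -/
  eg : β → ℕ
  /-- the factors -/
  F : (i : ι) → MvPolynomial (Fin (m (sb i) + 1)) ℂ
  hy : IsHol y
  hw : ∀ s j, Differentiable ℂ fun z => w s z j
  hwle : ∀ s, ∃ A : ℝ, ∀ z, ‖w s z‖ ≤ A * ‖y z‖ ^ eg s
  hwge : ∀ s, ∃ δ : ℝ, 0 < δ ∧ ∀ z, δ * ‖y z‖ ^ eg s ≤ ‖w s z‖
  hw0 : ∀ s j, ∃ z, w s z j ≠ 0
  hF : ∀ i, (F i).IsHomogeneous (dg i)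
  hF0 : ∀ i, ∃ z, eval (w (sb i) z) (F i) ≠ 0

namespace CurveY

variable {N : ℕ} {β : Type} {m : β → ℕ} {ι : Type} [Fintype ι] {sb : ι → β} {dg : ι → ℕ}
variable (D : CurveY N m ι sb dg)

/-- The function `F i (w)`. -/
noncomputable def φ (i : ι) (z : ℂ) : ℂ := eval (D.w (sb i) z) (D.F i)

/-- The coefficients of the factors in the charts `0`. -/
noncomputable def a (x : Cf m sb dg) : ℂ := cfF (dg x.1) 0 (D.F x.1) x.2

/-- The coefficient vectors of the factors of the block `s`, for small blocks (linear forms). -/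
noncomputable def θ (s : β) (x : {i : ι // sb i = s}) : Fin (m s + 1) → ℂ :=
  fun b => coeff (Finsupp.single (Fin.cast (by rw [x.2]) b) 1) (D.F x.1)

/-- All affine coordinates in the charts `0`. -/
noncomputable def f {n : ℕ} (e : Co m ≃ Fin n) (z : ℂ) (b : Fin n) : ℂ :=
  ch 0 (D.w (e.symm b).1) z (e.symm b).2

end CurveY

end Pool.Agent.H53Y
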