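import Pool.Agent.Lib.H53Y.F02
import Pool.Agent.Lib.H53Y.F04
import Pool.Agent.Lib.H89T.DH
import Pool.Agent.Lib.H67T.GH2

set_option autoImplicit false

/-!
H53Y, chunk F13b (M, four lemmas): the last steps.
-/

open MvPolynomial Real MeasureTheory

namespace Pool.Agent.H53Y

open Pool.Agent.H89T Pool.Agent.H78G Pool.Agent.H67T

theorem f13b_err {n : ℕ} (y : ℂ → Fin n → ℂ) (r R : ℝ) : 1 ≤ err y r R := by
  unfold err
  have h1 := posLog_nonneg (x := chi y R)
  have h2 := posLog_nonneg (x := 1 / (R - r))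
  have h3 := posLog_nonneg (x := R)
  linarith

theorem f13b_sum {κ σ : Type} [Fintype κ] [Fintype σ] (sx : κ → σ) (de : σ → ℕ) :
    ∑ t, de (sx t) = ∑ s, Nat.card {x : κ // sx x = s} * de s := by
  classical
  rw [← Finset.sum_fiberwise Finset.univ sx (fun t => de (sx t))]
  refine Finset.sum_congr rfl fun s _ => ?_
  rw [Finset.sum_congr rfl (g := fun _ => de s)
    (fun t ht => by rw [(Finset.mem_filter.1 ht).2]), Finset.sum_const, smul_eq_mul,
    Nat.card_eq_fintype_card, Fintype.card_subtype]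

/-- CHUNK F13b (1).  Proof.  Let `K = |chi y 1|`, so `- K ≤ chi y ρ` for `ρ ≥ 1` (`chi_mono`), and
`t = r κ' - cost - (b + δ) r ≥ 0`.  Then `(r κ' - cost) chi = t chi + (b + δ) r chi ≥ - t K + (b + δ) r chi`, so
`(b + δ) r chi ≤ r N + C err + t K ≤ r N' + (C + t K) err` (`1 ≤ err`).  Divide by `r` and apply
`H89T.absorb` with `a = b + δ`. -/
theorem finish_smt {n : ℕ} {y : ℂ → Fin (n + 1) → ℂ} (hy : IsHol y) {r κ' cost : ℕ} {b δ : ℝ}
    (hr : 1 ≤ r) (hδ : 0 < δ) (hcost : (cost : ℝ) ≤ r * κ' - b * r - δ * r)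
    {N N' : ℝ → ℝ} (hN : ∀ ρ, 1 ≤ ρ → N ρ ≤ N' ρ) {C : ℝ} (hC : 0 ≤ C)
    (h : ∀ ρ R : ℝ, 1 ≤ ρ → ρ < R →
      ((r * κ' : ℕ) : ℝ) * chi y ρ ≤ r * N ρ + (cost : ℝ) * chi y ρ + C * err y ρ R) :
    ∃ (C' : ℝ) (E : Set ℝ), volume E < ⊤ ∧ ∀ ρ : ℝ, 2 ≤ ρ → ρ ∉ E →
      b * chi y ρ ≤ N' ρ + C' * log ρ := by
  set K : ℝ := |chi y 1| with hK
  have hK0 : 0 ≤ K := abs_nonneg _
  have hr0 : (0 : ℝ) < r := by exact_mod_cast hr
  set t : ℝ := r * κ' - cost - (b + δ) * r with ht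
  have ht0 : 0 ≤ t := by rw [ht]; nlinarith
  have hC1 : 0 ≤ (C + t * K) / r := div_nonneg (add_nonneg hC (mul_nonneg ht0 hK0)) hr0.le
  refine absorb hy (a := b + δ) (b := b) (C := (C + t * K) / r) (by linarith) hC1 ?_
  intro ρ R hρ hR
  have h1 := h ρ R hρ hR
  have h2 : -K ≤ chi y ρ := by
    have h3 := chi_mono hy (r := 1) (R := ρ) one_pos hρ
    have h4 := neg_abs_le (chi y 1)
    rw [hK]
    linarith
  have h5 := f13b_err y ρ R
  have h6 := hN ρ hρ
  push_cast at h1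
  have h7 : t * chi y ρ ≥ - (t * K) := by nlinarith
  have h8 : t * K ≤ t * K * err y ρ R := by nlinarith [mul_nonneg ht0 hK0]
  have h9 : (r : ℝ) * N ρ ≤ r * N' ρ := mul_le_mul_of_nonneg_left h6 hr0.le
  have h10 : r * ((b + δ) * chi y ρ) ≤ r * N' ρ + (C + t * K) * err y ρ R := by
    rw [ht] at h7 h8 ⊢
    nlinarith
  have h11 : r * ((C + t * K) / r * err y ρ R) = (C + t * K) * err y ρ R := by
    field_simp
  refine le_of_mul_le_mul_left ?_ hr0
  rw [mul_add, h11]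
  exact h10

/-- CHUNK F13b (2).  Proof.  `card_outside`: `K ≤ K' + c (K / nb + 1)`, and
`2 c (K / nb) ≤ nb (K / nb) ≤ K`, so `2 K ≤ 2 K' + K + 2 c`. -/
theorem card_outside_ge {κ σ : Type} [Finite κ] {sx : κ → σ} {nb c M : ℕ} {part : κ → Fin nb}
    (h : ∀ s b, Nat.card {x : κ // sx x = s ∧ part x = b} ≤
      Nat.card {x : κ // sx x = s} / nb + 1) (hnb : 2 * c ≤ nb) (S : Finset (Fin nb))
    (hS : S.card ≤ c) (s : σ) (hK : 2 * (c + M) ≤ Nat.card {x : κ // sx x = s}) :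
    M ≤ Nat.card {x : {x : κ // part x ∉ S} // sx x.1 = s} := by
  have h1 := card_outside h S hS s
  have h2 : nb * (Nat.card {x : κ // sx x = s} / nb) ≤ Nat.card {x : κ // sx x = s} :=
    Nat.mul_div_le _ _
  have h3 : 2 * c * (Nat.card {x : κ // sx x = s} / nb) ≤
      nb * (Nat.card {x : κ // sx x = s} / nb) := Nat.mul_le_mul_right _ hnb
  rw [mul_add, mul_one] at h1
  have h4 : 2 * c * (Nat.card {x : κ // sx x = s} / nb) =
      2 * (c * (Nat.card {x : κ // sx x = s} / nb)) := mul_assoc _ _ _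
  omega

/-- CHUNK F13b (3).  Proof.  With `K s = Nat.card {x // sx x = s}` and
`K' s = Nat.card {x : {x // part x ∉ S} // sx x.1 = s}`: `∑ t, de (sx t) = ∑ s, K s * de s`
(`Finset.sum_fiberwise` or `Finset.card_eq_sum_card_fiberwise`..), the same for `K'`, and
`nb * K s ≤ nb * K' s + c * (K s + nb)` by `card_outside` and `nb * (K / nb) ≤ K`. -/
theorem degree_outside {κ σ : Type} [Fintype κ] [Fintype σ] {sx : κ → σ} {de : σ → ℕ}
    {nb c : ℕ} {part : κ → Fin nb}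
    (h : ∀ s b, Nat.card {x : κ // sx x = s ∧ part x = b} ≤
      Nat.card {x : κ // sx x = s} / nb + 1) (S : Finset (Fin nb)) (hS : S.card ≤ c) :
    nb * ∑ t, de (sx t) ≤ nb * ∑ t : {x : κ // part x ∉ S}, de (sx t.1) +
      c * (∑ t, de (sx t) + nb * ∑ s, de s) := by
  rw [f13b_sum sx de, f13b_sum (fun t : {x : κ // part x ∉ S} => sx t.1) de, Finset.mul_sum,
    Finset.mul_sum, Finset.mul_sum, ← Finset.sum_add_distrib, Finset.mul_sum,
    ← Finset.sum_add_distrib]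
  refine Finset.sum_le_sum fun s _ => ?_
  have h1 := card_outside h S hS s
  have h2 : nb * (Nat.card {x : κ // sx x = s} / nb) ≤ Nat.card {x : κ // sx x = s} :=
    Nat.mul_div_le _ _
  have h3 : nb * Nat.card {x : κ // sx x = s} ≤
      nb * Nat.card {x : {x : κ // part x ∉ S} // sx x.1 = s} +
        c * (Nat.card {x : κ // sx x = s} + nb) := by
    calc nb * Nat.card {x : κ // sx x = s} ≤
        nb * (Nat.card {x : {x : κ // part x ∉ S} // sx x.1 = s} +
          c * (Nat.card {x : κ // sx x = s} / nb + 1)) := Nat.mul_le_mul_left _ h1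
      _ = nb * Nat.card {x : {x : κ // part x ∉ S} // sx x.1 = s} +
          c * (nb * (Nat.card {x : κ // sx x = s} / nb) + nb) := by ring
      _ ≤ _ := Nat.add_le_add_left (Nat.mul_le_mul_left _ (Nat.add_le_add_right h2 _)) _
  calc nb * (Nat.card {x : κ // sx x = s} * de s) =
      nb * Nat.card {x : κ // sx x = s} * de s := by ring
    _ ≤ (nb * Nat.card {x : {x : κ // part x ∉ S} // sx x.1 = s} +
        c * (Nat.card {x : κ // sx x = s} + nb)) * de s := Nat.mul_le_mul_right _ h3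
    _ = _ := by ring

/-- CHUNK F13b (4).  Proof.  `H78G.N1_mono`; the functions are entire (`H89T.differentiable_eval`,
`isHol_ver`, `lin` is a finite sum) and not identically zero (`f1b_prod` of H78G/F1B or
`AnalyticOnNhd` ...); if the first product vanishes at `z` then so does one of the factors, and the
second product vanishes. -/
theorem N1_sub {n : ℕ} {ιL σ κ : Type} [Fintype ιL] [Fintype κ] {d : ιL → ℕ} {de : σ → ℕ}
    {sx : κ → σ} {y : ℂ → Fin (n + 1) → ℂ} (hy : IsHol y) (f : FV (Fin (n + 1)) d → ℂ)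
    (η : LV (fun t : κ => NV n (de (sx t))) → ℂ)
    (hf : ∀ j, ∃ z, eval (y z) (fmj f j) ≠ 0)
    (hη : ∀ t, ∃ z, lin (fun l => η ⟨t, l⟩) (ver n (de (sx t)) (y z)) ≠ 0)
    (Q : κ → Prop) [Fintype {x : κ // Q x}] {ρ : ℝ} (hρ : 1 ≤ ρ) :
    N1 (fun z => (∏ j, eval (y z) (fmj f j)) *
        ∏ t : {x : κ // Q x}, lin (fun l => η ⟨t.1, l⟩) (ver n (de (sx t.1)) (y z))) ρ ≤
      N1 (fun z => (∏ j, eval (y z) (fmj f j)) *
        ∏ t, lin (fun l => η ⟨t, l⟩) (ver n (de (sx t)) (y z))) ρ := by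
  have hd1 : Differentiable ℂ fun z => ∏ j, eval (y z) (fmj f j) :=
    Differentiable.fun_finsetProd fun j _ => differentiable_eval hy.diff _
  have hd2 : ∀ t : κ, Differentiable ℂ fun z =>
      lin (fun l => η ⟨t, l⟩) (ver n (de (sx t)) (y z)) := by
    intro t
    unfold lin
    exact Differentiable.fun_sum fun l _ => ((isHol_ver hy (de (sx t))).diff l).const_mul _
  have hz1 : ∃ z, ∏ j, eval (y z) (fmj f j) ≠ 0 :=
    f1b_prod Finset.univ (f := fun j z => eval (y z) (fmj f j))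
      (fun j => differentiable_eval hy.diff _) hf
  have hz2 : ∃ z, ∏ t, lin (fun l => η ⟨t, l⟩) (ver n (de (sx t)) (y z)) ≠ 0 :=
    f1b_prod Finset.univ (f := fun t z => lin (fun l => η ⟨t, l⟩) (ver n (de (sx t)) (y z)))
      hd2 hη
  have hz3 : ∃ z, ∏ t : {x : κ // Q x},
      lin (fun l => η ⟨t.1, l⟩) (ver n (de (sx t.1)) (y z)) ≠ 0 :=
    f1b_prod Finset.univ (f := fun (t : {x : κ // Q x}) z =>
      lin (fun l => η ⟨t.1, l⟩) (ver n (de (sx t.1)) (y z)))
      (fun t => hd2 t.1) (fun t => hη t.1)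
  have hd3 : Differentiable ℂ fun z => ∏ t : {x : κ // Q x},
      lin (fun l => η ⟨t.1, l⟩) (ver n (de (sx t.1)) (y z)) :=
    Differentiable.fun_finsetProd fun t _ => hd2 t.1
  have hd4 : Differentiable ℂ fun z => ∏ t,
      lin (fun l => η ⟨t, l⟩) (ver n (de (sx t)) (y z)) :=
    Differentiable.fun_finsetProd fun t _ => hd2 t
  refine N1_mono (hd1.mul hd3) (f1b_mul hd1 hd3 hz1 hz3) (hd1.mul hd4) (f1b_mul hd1 hd4 hz1 hz2)
    ?_ hρ
  intro z hz
  rcases mul_eq_zero.1 hz with h | h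
  · exact mul_eq_zero_of_left h _
  · obtain ⟨t, _, ht⟩ := Finset.prod_eq_zero_iff.1 h
    exact mul_eq_zero_of_right _ (Finset.prod_eq_zero (Finset.mem_univ t.1) ht)

end Pool.Agent.H53Y
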