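import Pool.Agent.Lib.H53Y.FD

set_option autoImplicit false

/-!
H53Y, chunk F09 (M): the base point.
-/

open MvPolynomial Real MeasureTheory

namespace Pool.Agent.H53Y

open Pool.Agent.H89T Pool.Agent.H78G Pool.Agent.H67T

theorem f09_ea {σ τ : Type} (F : σ → MvPolynomial τ ℂ) (y : τ → ℂ) (p : MvPolynomial σ ℂ) :
    eval y (aeval F p) = eval (fun i => eval y (F i)) p := by
  induction p using MvPolynomial.induction_on with
  | C a => simp
  | add p q hp hq => simp only [map_add, hp, hq]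
  | mul_X p i hp => simp only [map_mul, aeval_X, eval_X, hp]

theorem f09_point {τ : Type} {p : MvPolynomial τ ℂ} (hp : p ≠ 0) : ∃ x, eval x p ≠ 0 := by
  by_contra hcon
  push Not at hcon
  exact hp (MvPolynomial.funext fun x => by rw [hcon x, map_zero])

theorem f09_family {τ κ : Type} [Finite κ] (p : κ → MvPolynomial τ ℂ) (hp : ∀ i, p i ≠ 0) :
    ∃ x, ∀ i, eval x (p i) ≠ 0 := by
  have hft := Fintype.ofFinite κ
  obtain ⟨x, hx⟩ := f09_point (Finset.prod_ne_zero_iff.2 fun i (_ : i ∈ Finset.univ) => hp i)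
  rw [map_prod, Finset.prod_ne_zero_iff] at hx
  exact ⟨x, fun i => hx i (Finset.mem_univ i)⟩

/-- The conditions for a factor of the large block. -/
theorem f09_chart {nt N k : ℕ} (em : Fin N → Fin nt) (hem : Function.Injective em) (c : Fin (N + 1))
    (W : MvPolynomial (Fin N ⊕ Idx N k) ℂ) (hW : W ≠ 0) :
    ∃ p : MvPolynomial (Fin nt) ℂ, p ≠ 0 ∧ ∀ x, eval x p ≠ 0 →
      ∃ G : MvPolynomial (Fin (N + 1)) ℂ, G.IsHomogeneous k ∧
        eval (Sum.elim (bpt (fun b => x (em b)) c) (cfF k c G)) W ≠ 0 := by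
  classical
  obtain ⟨v, hv⟩ := f09_point (mul_ne_zero hW (Finset.prod_ne_zero_iff.2
    fun (b : Fin N) (_ : b ∈ Finset.univ) => (X_ne_zero (Sum.inl b) : (X (Sum.inl b) : MvPolynomial (Fin N ⊕ Idx N k) ℂ) ≠ 0)))
  rw [map_mul, map_prod] at hv
  have hv1 := left_ne_zero_of_mul hv
  have hv2 : ∀ b, v (Sum.inl b) ≠ 0 := by
    intro b
    have h := Finset.prod_ne_zero_iff.1 (right_ne_zero_of_mul hv) b (Finset.mem_univ b)
    rwa [eval_X] at h
  obtain ⟨G, hG, hGv⟩ := exists_form (k := k) c fun α => v (Sum.inr α)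
  obtain ⟨Y, hY⟩ : ∃ Y : Fin (N + 1) → MvPolynomial (Fin nt) ℂ, Y = Fin.cons 1 (fun b => X (em b)) :=
    ⟨_, rfl⟩
  have hYe : ∀ x : Fin nt → ℂ, (fun i => eval x (Y i)) = (Fin.cons 1 (fun b => x (em b)) : Fin (N + 1) → ℂ) := by
    intro x
    funext i
    rw [hY]
    refine Fin.cases ?_ (fun b => ?_) i
    · rw [Fin.cons_zero, Fin.cons_zero, map_one]
    · rw [Fin.cons_succ, Fin.cons_succ, eval_X]
  obtain ⟨p, hp⟩ : ∃ p : MvPolynomial (Fin nt) ℂ,
      p = aeval (Sum.elim Y fun δ => C (coeff δ G)) (dp1W c W) * Y c := ⟨_, rfl⟩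
  have hpe : ∀ x : Fin nt → ℂ, eval x p = eval (Sum.elim (Fin.cons 1 (fun b => x (em b)) : Fin (N + 1) → ℂ)
      fun δ => coeff δ G) (dp1W c W) * (Fin.cons 1 (fun b => x (em b)) : Fin (N + 1) → ℂ) c := by
    intro x
    rw [hp, map_mul, f09_ea]
    have h1 : (fun i => eval x ((Sum.elim Y fun δ => C (coeff δ G)) i)) =
        Sum.elim (Fin.cons 1 (fun b => x (em b)) : Fin (N + 1) → ℂ) fun δ => coeff δ G := by
      funext i
      rcases i with i | i
      · exact congrFun (hYe x) i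
      · exact eval_C _
    rw [h1]
    congr 1
    exact congrFun (hYe x) c
  have hval : ∀ x : Fin nt → ℂ, (Fin.cons 1 (fun b => x (em b)) : Fin (N + 1) → ℂ) c ≠ 0 →
      eval x p = ((Fin.cons 1 (fun b => x (em b)) : Fin (N + 1) → ℂ) c ^ W.totalDegree *
        eval (Sum.elim (bpt (fun b => x (em b)) c) (cfF k c G)) W) *
        (Fin.cons 1 (fun b => x (em b)) : Fin (N + 1) → ℂ) c := by
    intro x hx
    rw [hpe, dp1W_eval c W hx]
    rfl
  refine ⟨p, ?_, fun x hx => ?_⟩
  · obtain ⟨q, hq⟩ : ∃ q : Fin (N + 1) → ℂ, q = c.insertNth 1 (fun b => v (Sum.inl b)) := ⟨_, rfl⟩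
    have hqc : q c = 1 := by rw [hq, Fin.insertNth_apply_same]
    have hqs : ∀ b, q (c.succAbove b) = v (Sum.inl b) := fun b => by
      rw [hq, Fin.insertNth_apply_succAbove]
    have hq0 : ∀ i, q i ≠ 0 := by
      intro i
      refine Fin.succAboveCases c ?_ (fun b => ?_) i
      · rw [hqc]
        exact one_ne_zero
      · rw [hqs]
        exact hv2 b
    obtain ⟨x, hx⟩ : ∃ x : Fin nt → ℂ, ∀ b, x (em b) = q b.succ / q 0 :=
      ⟨Function.extend em (fun b => q b.succ / q 0) 0, fun b => hem.extend_apply _ _ b⟩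
    have hy : ∀ i, (Fin.cons 1 (fun b => x (em b)) : Fin (N + 1) → ℂ) i = q i / q 0 := by
      intro i
      refine Fin.cases ?_ (fun b => ?_) i
      · rw [Fin.cons_zero, div_self (hq0 0)]
      · rw [Fin.cons_succ, hx]
    have hyc : (Fin.cons 1 (fun b => x (em b)) : Fin (N + 1) → ℂ) c ≠ 0 := by
      rw [hy]
      exact div_ne_zero (hq0 c) (hq0 0)
    have hb : bpt (fun b => x (em b)) c = fun b => v (Sum.inl b) := by
      funext b
      rw [bpt, hy, hy, hqc, hqs, div_div_div_cancel_right₀ (hq0 0), div_one]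
    intro h0
    have h1 := hval x hyc
    rw [h0, map_zero, hb, hGv] at h1
    have h2 : (Sum.elim (fun b => v (Sum.inl b)) fun α => v (Sum.inr α)) = v := by
      funext i
      rcases i with i | i <;> rfl
    rw [h2] at h1
    exact mul_ne_zero (mul_ne_zero (pow_ne_zero _ hyc) hv1) hyc h1.symm
  · have hyc : (Fin.cons 1 (fun b => x (em b)) : Fin (N + 1) → ℂ) c ≠ 0 := by
      rw [hpe] at hx
      exact right_ne_zero_of_mul hx
    refine ⟨G, hG, ?_⟩
    rw [hval x hyc] at hx
    exact right_ne_zero_of_mul (left_ne_zero_of_mul hx)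

/-- The condition for a polynomial in `x` and other variables. -/
theorem f09_W {nt : ℕ} {τ : Type} (W : MvPolynomial (Fin nt ⊕ τ) ℂ) (hW : W ≠ 0) :
    ∃ p : MvPolynomial (Fin nt) ℂ, p ≠ 0 ∧ ∀ x, eval x p ≠ 0 → ∃ a, eval (Sum.elim x a) W ≠ 0 := by
  obtain ⟨v, hv⟩ := f09_point hW
  have he : ∀ x : Fin nt → ℂ, eval x (aeval (Sum.elim X fun t => C (v (Sum.inr t))) W : MvPolynomial (Fin nt) ℂ) =
      eval (Sum.elim x fun t => v (Sum.inr t)) W := by
    intro x
    rw [f09_ea]
    congr 2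
    funext i
    rcases i with i | i
    · exact eval_X _
    · exact eval_C _
  refine ⟨aeval (Sum.elim X fun t => C (v (Sum.inr t))) W, ?_, fun x hx => ⟨fun t => v (Sum.inr t), ?_⟩⟩
  · intro h0
    have h1 := he fun b => v (Sum.inl b)
    rw [h0, map_zero] at h1
    have h2 : (Sum.elim (fun b => v (Sum.inl b)) fun t => v (Sum.inr t)) = v := by
      funext i
      rcases i with i | i <;> rfl
    rw [h2] at h1
    exact hv h1.symm
  · rw [← he]
    exact hx

/-- CHUNK F09.  Proof.  It is enough to find finitely many nonzero polynomials in `x` such that every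
`x` at which none of them vanishes has the properties (the product is not `0`; choose `x` with value
`≠ 0`, `MvPolynomial.funext`).  These are:
* `X b`, `b : Fin nt`.
* For `j : J`: choose `v` with `eval v (W j) ≠ 0` (`MvPolynomial.funext`), `a = v ∘ inr`, and take
  `aeval (Sum.elim X (fun t => C (a t))) (W j)`: its value at `x` is `eval (Sum.elim x a) (W j)`, and it is
  not `0` (value at `v ∘ inl`).
* For `j : ιL` and `k : Fin (N + 1)`: choose `v` with
  `eval v (WB j * ∏ b, X (inl b)) ≠ 0`, `G` of degree `d j` with `cfF (d j) k G = v ∘ inr`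
  (`H89T.exists_form`); the polynomial `p` is the image of `X (inl 0) ^ 0 * dp1W k (WB j)` (H89T/DP1) under
  `Sum.elim (Fin.cons 1 (fun b => X (em b))) (fun δ => C (coeff δ G))` times `X (em b)` for `k = b.succ`
  (so that the coordinate `k` of `(1, x ∘ em)` is not `0`); by `dp1W_eval` its value at `x` is a nonzero
  multiple of `eval (Sum.elim (bpt (x ∘ em) k) (cfF (d j) k G)) (WB j)` where the coordinate `k` does not
  vanish.  It is not the zero polynomial: let `q = k.insertNth 1 (v ∘ inl)`, all coordinates of `q` are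
  `≠ 0`, and let `x (em b) = q b.succ / q 0` (`em` is injective; the other coordinates of `x`
  arbitrary); the point `(1, x ∘ em) = q / q 0` has the affine coordinates `v ∘ inl` in the chart `k`, so
  the value is not `0`. -/
theorem exists_base {nt N : ℕ} {ιL : Type} [Finite ιL] (d : ιL → ℕ) (em : Fin N → Fin nt)
    (hem : Function.Injective em) {J : Type} [Finite J] {τ : J → Type}
    (W : ∀ j, MvPolynomial (Fin nt ⊕ τ j) ℂ) (hW : ∀ j, W j ≠ 0)
    (WB : ∀ j : ιL, MvPolynomial (Fin N ⊕ Idx N (d j)) ℂ) (hWB : ∀ j, WB j ≠ 0) :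
    ∃ x : Fin nt → ℂ, (∀ b, x b ≠ 0) ∧ (∀ j, ∃ a, eval (Sum.elim x a) (W j) ≠ 0) ∧
      ∀ (j : ιL) (k : Fin (N + 1)), ∃ G : MvPolynomial (Fin (N + 1)) ℂ, G.IsHomogeneous (d j) ∧
        eval (Sum.elim (bpt (fun b => x (em b)) k) (cfF (d j) k G)) (WB j) ≠ 0 := by
  choose pW hpW0 hpW using fun j => f09_W (W j) (hW j)
  choose pB hpB0 hpB using fun q : ιL × Fin (N + 1) => f09_chart em hem q.2 (WB q.1) (hWB q.1)
  obtain ⟨x, hx⟩ := f09_family (Sum.elim (fun b : Fin nt => (X b : MvPolynomial (Fin nt) ℂ)) (Sum.elim pW pB)) (by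
    rintro (b | j | q)
    · exact X_ne_zero b
    · exact hpW0 j
    · exact hpB0 q)
  refine ⟨x, fun b => ?_, fun j => hpW j x (hx (Sum.inr (Sum.inl j))), fun j k => hpB (j, k) x (hx (Sum.inr (Sum.inr (j, k))))⟩
  have h := hx (Sum.inl b)
  rw [Sum.elim_inl, eval_X] at h
  exact h

end Pool.Agent.H53Y
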