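import Pool.Agent.Lib.H53Y.FD

set_option autoImplicit false

/-!
H53Y, chunk F10 (M, five lemmas): the coefficients of the factors are linear in `(g, θ)`.
-/

open MvPolynomial Real MeasureTheory

namespace Pool.Agent.H53Y

open Pool.Agent.H89T Pool.Agent.H78G Pool.Agent.H67T

variable {ιL κ σ : Type} {n c : ℕ} {m : σ → ℕ} {sx : κ → σ} {d : ιL → ℕ}

/-- CHUNK F10a.  The coefficients of `mvF x g j` are polynomials in `g`.  Proof.  `fmj g j` is the sum of
the `C (g ⟨j, δ⟩) * monomial δ 1` (definition of `fm`), and `rename`, `shear` and `coeff γ` are linear, so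
`coeff γ (mvF x g j) = ∑ δ, g ⟨j, δ⟩ * coeff γ (shear _ (rename _ (monomial δ 1)))`. -/
theorem mvF_poly (x : Fin (n + c) → ℂ) (j : ιL) (γ : Fin (n + c + 1) →₀ ℕ) :
    ∃ A : MvPolynomial (FV (Fin (n + 1) ⊕ Fin c) d) ℂ, ∀ g, eval g A = coeff γ (mvF x g j) := by
  refine ⟨∑ δ : Ex (Fin (n + 1) ⊕ Fin c) (d j), X ⟨j, δ⟩ *
    C (coeff γ (shear (fun b => - x b) (rename (eqc n c) (monomial δ.1 1)))), fun g => ?_⟩
  rw [map_sum, mvF, fmj, fm, map_sum, shear, map_sum, coeff_sum]
  refine Finset.sum_congr rfl fun δ _ => ?_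
  rw [map_mul, map_mul, map_mul, eval_X, eval_C, rename_C, ← MvPolynomial.algebraMap_eq, AlgHom.commutes,
    MvPolynomial.algebraMap_eq, coeff_C_mul]
  rfl

/-- CHUNK F10b.  All forms occur, for all `j` at once.  Proof.  `shear_shear`: `shear (- x)` is
bijective on the forms with inverse `shear x` (`shear_shear (- x)` with `- - x = x`), `rename (eqc n c)` is
bijective with inverse `rename (eqc n c).symm`; take `g ⟨j, δ⟩` = the coefficient of `δ` in
`rename (eqc n c).symm (shear x (G j))` (homogeneous of degree `d j`: `shear_homogeneous`), `fm_coeff`. -/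
theorem mvF_surj (x : Fin (n + c) → ℂ) (G : ιL → MvPolynomial (Fin (n + c + 1)) ℂ)
    (hG : ∀ j, (G j).IsHomogeneous (d j)) :
    ∃ g : FV (Fin (n + 1) ⊕ Fin c) d → ℂ, ∀ j, mvF x g j = G j := by
  refine ⟨fun y => coeff y.2.1 (rename (eqc n c).symm (shear x (G y.1))), fun j => ?_⟩
  have h1 : ((rename (eqc n c).symm (shear x (G j))) : MvPolynomial (Fin (n + 1) ⊕ Fin c) ℂ).IsHomogeneous
      (d j) := (shear_homogeneous x (hG j)).rename_isHomogeneous
  rw [mvF, fmj, fm_coeff h1, rename_rename, Equiv.self_comp_symm, rename_id_apply]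
  have h2 := shear_shear (fun b => - x b) (G j)
  simp only [neg_neg] at h2
  exact h2

/-- CHUNK F10c. -/
theorem mvF_homogeneous (x : Fin (n + c) → ℂ) (g : FV (Fin (n + 1) ⊕ Fin c) d → ℂ) (j : ιL) :
    (mvF x g j).IsHomogeneous (d j) := by
  exact shear_homogeneous _ ((fm_homogeneous _).rename_isHomogeneous)

/-- CHUNK F10d.  Proof.  For `y = ⟨inl j, α⟩` use F10a; for `y = ⟨inr t, α⟩` the coefficient is
`coeff (ext 0 α) (linF (fun b => θ ⟨t, b⟩)) = ∑ b, θ ⟨t, b⟩ * coeff (ext 0 α) (X b)`. -/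
theorem aO_poly (x : Fin (n + c) → ℂ) (y : Cf (mO (n + c) m) (sbO (ιL := ιL) sx) (dgO (κ := κ) d)) :
    ∃ A : MvPolynomial (FV (Fin (n + 1) ⊕ Fin c) d ⊕ LV (fun t : κ => m (sx t))) ℂ,
      ∀ g θ, eval (Sum.elim g θ) A = aO x g θ y := by
  obtain ⟨j | t, α⟩ := y
  · obtain ⟨A, hA⟩ := mvF_poly (ιL := ιL) (d := d) x j (ext (0 : Fin (n + c + 1)) (k := d j) α)
    refine ⟨rename Sum.inl A, fun g θ => ?_⟩
    rw [eval_rename, Sum.elim_comp_inl, hA]
    rfl
  · refine ⟨∑ b, X (Sum.inr ⟨t, b⟩) *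
      C (coeff (ext (0 : Fin (m (sx t) + 1)) (k := 1) α) (X b : MvPolynomial (Fin (m (sx t) + 1)) ℂ)), fun g θ => ?_⟩
    have h : aO x g θ ⟨Sum.inr t, α⟩ =
        coeff (ext (0 : Fin (m (sx t) + 1)) (k := 1) α) (linF (fun b => θ ⟨t, b⟩)) := rfl
    rw [h, linF, coeff_sum, map_sum]
    refine Finset.sum_congr rfl fun b _ => ?_
    rw [map_mul, eval_X, eval_C, coeff_C_mul]
    rfl

theorem f10_lin {M : ℕ} {H : MvPolynomial (Fin (M + 1)) ℂ} (hH : H.IsHomogeneous 1) :
    linF (fun b => coeff (Finsupp.single b 1) H) = H := by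
  classical
  ext m
  rw [linF, coeff_sum]
  simp only [coeff_C_mul, coeff_X]
  by_cases hm : m.degree = 1
  · obtain ⟨b, rfl⟩ : ∃ b, m = Finsupp.single b 1 := by
      rw [Finsupp.degree_eq_sum] at hm
      obtain ⟨b, hb⟩ : ∃ b, m b ≠ 0 := by
        by_contra h
        push Not at h
        rw [Finset.sum_eq_zero fun b _ => h b] at hm
        exact absurd hm (by norm_num)
      refine ⟨b, ?_⟩
      have h1 := Finset.add_sum_erase Finset.univ (fun i => m i) (Finset.mem_univ b)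
      have h2 : m b = 1 ∧ ∑ i ∈ Finset.univ.erase b, m i = 0 := by
        have : (fun i => m i) b = m b := rfl
        omega
      ext i
      rw [Finsupp.single_apply]
      split_ifs with hi
      · rw [← hi, h2.1]
      · exact Finset.sum_eq_zero_iff.1 h2.2 i (Finset.mem_erase.2 ⟨fun h => hi h.symm, Finset.mem_univ _⟩)
    rw [Finset.sum_eq_single b, if_pos rfl, mul_one]
    · intro i _ hi
      rw [if_neg, mul_zero]
      intro h
      exact hi (Finsupp.single_left_injective one_ne_zero h)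
    · intro h
      exact absurd (Finset.mem_univ _) h
  · rw [hH.coeff_eq_zero hm]
    refine Finset.sum_eq_zero fun b _ => ?_
    rw [if_neg, mul_zero]
    rintro rfl
    exact hm (Finsupp.degree_single _ _)

/-- CHUNK F10e.  Proof.  For every `j` choose a form `G j` of degree `d j` with
`cfF (d j) 0 (G j) α = a ⟨inl j, α⟩` (`H89T.exists_form`) and `g` with F10b; for every `t : κ` the
exponents `ext 0 α`, `α : Idx (m (sx t)) 1`, are exactly the `single b 1`, `b : Fin (m (sx t) + 1)`, so there is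
`θ` with `coeff (ext 0 α) (linF (fun b => θ ⟨t, b⟩)) = a ⟨inr t, α⟩` (again `exists_form` for `k = 1`: the form
`G` of degree `1` is `linF` of its coefficients). -/
theorem aO_surj (x : Fin (n + c) → ℂ)
    (a : Cf (mO (n + c) m) (sbO (ιL := ιL) sx) (dgO (κ := κ) d) → ℂ) :
    ∃ g θ, aO x g θ = a := by
  choose G hG hGa using fun j : ιL => exists_form (n := n + c) (k := d j) 0 fun α => a ⟨Sum.inl j, α⟩
  choose H hH hHa using fun t : κ => exists_form (n := m (sx t)) (k := 1) 0 fun α => a ⟨Sum.inr t, α⟩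
  obtain ⟨g, hg⟩ := mvF_surj x G hG
  refine ⟨g, fun y => coeff (Finsupp.single y.2 1) (H y.1), ?_⟩
  funext y
  obtain ⟨j | t, α⟩ := y
  · have h : aO x g (fun y : LV (fun y : κ => m (sx y)) => coeff (Finsupp.single y.2 1) (H y.1))
        ⟨Sum.inl j, α⟩ = cfF (d j) 0 (mvF x g j) α := rfl
    rw [h, hg, hGa]
  · have h : aO x g (fun y : LV (fun y : κ => m (sx y)) => coeff (Finsupp.single y.2 1) (H y.1))
        ⟨Sum.inr t, α⟩ = cfF 1 0 (linF (fun b => coeff (Finsupp.single b 1) (H t))) α := rfl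
    rw [h, f10_lin (hH t), hHa]

end Pool.Agent.H53Y
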