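import Pool.Agent.Lib.H53Y.FD

set_option autoImplicit false

/-!
H53Y, chunk F07 (M, three lemmas): nonconstant curves are not stationary.
-/

open MvPolynomial Real MeasureTheory

namespace Pool.Agent.H53Y

open Pool.Agent.H89T Pool.Agent.H78G Pool.Agent.H67T

variable {N : ℕ}

theorem f07_deriv {y : ℂ → Fin (N + 1) → ℂ} (hy : IsHol y) (c : Fin (N + 1)) (b : Fin N) {z : ℂ}
    (hc : y z c ≠ 0) : deriv (fun w => ch c y w b) z =
      (deriv (fun w => y w (c.succAbove b)) z * y z c - y z (c.succAbove b) * deriv (fun w => y w c) z) /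
        y z c ^ 2 :=
  deriv_fun_div (hy.diff _ z) (hy.diff _ z) hc

theorem f07_diff {f : ℂ → ℂ} (hf : Differentiable ℂ f) : Differentiable ℂ (deriv f) := fun z =>
  ((hf.analyticAt z).deriv).differentiableAt

/-- CHUNK F07a.  Proof.  Take `h = y_i y_j' - y_j y_i'` for suitable `i`, `j`.  If all these functions
vanish identically then, `i` with `y_i ≢ 0`, all quotients `y_j / y_i` are locally constant where
`y_i ≠ 0`, so `y_j y_i (z₀) = y_j (z₀) y_i` everywhere (identity theorem; compare the proof of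
`H89T.dp3_point`, which may be used) and `y` is constant, contradicting `hnc`.  If `h z ≠ 0` and
`y' (z) = t y (z)` then `h z = y_i t y_j - y_j t y_i = 0`. -/
theorem exists_nonStat {y : ℂ → Fin (N + 1) → ℂ} (hy : IsHol y)
    (hnc : ∃ z w, ∀ c : ℂ, y w ≠ c • y z) :
    ∃ h : ℂ → ℂ, Differentiable ℂ h ∧ (∃ z, h z ≠ 0) ∧ ∀ z, h z ≠ 0 → NonStat y z := by
  obtain ⟨c, hc⟩ := Function.ne_iff.1 (hy.ne_zero 0)
  obtain ⟨z, hz, b, hb⟩ := dp3_point hy hnc c (g := fun z => y z c) (hy.diff c).continuous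
    (fun z hz => hz) (z₀ := 0) hc
  refine ⟨fun w => deriv (fun w => y w (c.succAbove b)) w * y w c -
    y w (c.succAbove b) * deriv (fun w => y w c) w, ?_, ⟨z, ?_⟩, ?_⟩
  · exact ((f07_diff (hy.diff _)).mul (hy.diff _)).sub ((hy.diff _).mul (f07_diff (hy.diff _)))
  · intro h0
    apply hb
    rw [f07_deriv hy c b hz]
    exact (congrArg (fun t => t / y z c ^ 2) h0).trans (zero_div _)
  · rintro w hw ⟨t, ht⟩
    apply hw
    have h1 : deriv (fun w => y w (c.succAbove b)) w = t * y w (c.succAbove b) := congrFun ht _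
    have h2 : deriv (fun w => y w c) w = t * y w c := congrFun ht _
    change deriv (fun w => y w (c.succAbove b)) w * y w c -
      y w (c.succAbove b) * deriv (fun w => y w c) w = 0
    rw [h1, h2]
    ring

/-- CHUNK F07b.  Proof.  Otherwise `y_j' y_c = y_j y_c'` at `z` for all `j` (the derivative of
`y_j / y_c` is `(y_j' y_c - y_j y_c') / y_c ^ 2`), so `y' = (y_c' / y_c) y`. -/
theorem NonStat.chart {y : ℂ → Fin (N + 1) → ℂ} (hy : IsHol y) {z : ℂ} (h : NonStat y z)
    (c : Fin (N + 1)) (hc : y z c ≠ 0) : ∃ b, deriv (fun w => ch c y w b) z ≠ 0 := by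
  by_contra hcon
  push Not at hcon
  apply h
  refine ⟨deriv (fun w => y w c) z / y z c, funext fun i => ?_⟩
  rw [Pi.smul_apply, smul_eq_mul]
  rcases Fin.eq_self_or_eq_succAbove c i with h1 | ⟨b, h1⟩
  · rw [h1, div_mul_cancel₀ _ hc]
  · rw [h1]
    have h2 := hcon b
    rw [f07_deriv hy c b hc, div_eq_zero_iff, or_iff_left (pow_ne_zero 2 hc)] at h2
    rw [div_mul_eq_mul_div, eq_div_iff hc]
    linear_combination h2

/-- CHUNK F07c.  Finitely many entire functions which are not identically zero have a common point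
where none of them vanishes (the product is entire and not identically zero; `f1b_mul` of
`H78G/F1B` and induction). -/
theorem exists_common_point {J : Type} [Finite J] (h : J → ℂ → ℂ)
    (hd : ∀ j, Differentiable ℂ (h j)) (h0 : ∀ j, ∃ z, h j z ≠ 0) : ∃ z, ∀ j, h j z ≠ 0 := by
  classical
  haveI := Fintype.ofFinite J
  have hp : ∀ s : Finset J, ∃ z, ∏ j ∈ s, h j z ≠ 0 := by
    intro s
    induction s using Finset.induction_on with
    | empty => exact ⟨0, by rw [Finset.prod_empty]; exact one_ne_zero⟩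
    | insert a s ha ih =>
      obtain ⟨z, hz⟩ := f1b_mul (f := h a) (g := fun z => ∏ j ∈ s, h j z) (hd a)
        (Differentiable.fun_finsetProd fun j _ => hd j) (h0 a) ih
      exact ⟨z, by rw [Finset.prod_insert ha]; exact hz⟩
  obtain ⟨z, hz⟩ := hp Finset.univ
  exact ⟨z, fun j => (Finset.prod_ne_zero_iff.1 hz) j (Finset.mem_univ j)⟩

end Pool.Agent.H53Y
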