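import Pool.Agent.Lib.H53Y.F04
import Pool.Agent.Lib.H53Y.F06
import Pool.Agent.Lib.H53Y.F07
import Pool.Agent.Lib.H53Y.F10

set_option autoImplicit false

/-!
H53Y, chunk F12: one curve, the factors outside the set `S` of parts.
-/

open MvPolynomial Real MeasureTheory

namespace Pool.Agent.H53Y

open Pool.Agent.H89T Pool.Agent.H78G Pool.Agent.H67T

section

variable {n c nt : ℕ} {ιL σ κ : Type} [Fintype ιL] [Fintype κ]
variable {d : ιL → ℕ} {m de : σ → ℕ} {sx : κ → σ}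

/-- The restricted linear forms. -/
noncomputable def thR (η : LV (fun t : κ => NV n (de (sx t))) → ℂ)
    (Lam : (s : σ) → Matrix (Fin (NV n (de s) + 1)) (Fin (m s + 1)) ℂ) :
    LV (fun t : κ => m (sx t)) → ℂ :=
  fun p => ∑ l, η ⟨p.1, l⟩ * Lam (sx p.1) l p.2

/-- The coordinates of the curve in the blocks. -/
noncomputable def wO (xL : Fin (n + c) → ℂ) (sE : Fin c → Fin n → ℂ)
    (A' : Matrix (Fin (n + 1)) (Fin (n + 1)) ℂ)
    (Lb : (s : σ) → Matrix (Fin (m s + 1)) (Fin (NV n (de s) + 1)) ℂ)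
    (y : ℂ → Fin (n + 1) → ℂ) : (s : Option σ) → ℂ → Fin (mO (n + c) m s + 1) → ℂ
  | none => crv xL sE (fun z => A'.mulVec (y z))
  | some s => fun z => (Lb s).mulVec (ver n (de s) (y z))

/-- The degrees of the coordinates. -/
def egO (de : σ → ℕ) : Option σ → ℕ
  | none => 1
  | some s => de s

/-- CHUNK F12a (M).  The value of the factors of the large block: `eval_crv` and
`A (A' y) = y`. -/
theorem eval_FO_inl (hd : ∀ j, 1 ≤ d j) (xL : Fin (n + c) → ℂ) (sE : Fin c → Fin n → ℂ)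
    {A A' : Matrix (Fin (n + 1)) (Fin (n + 1)) ℂ} (hAA : A * A' = 1)
    (Lb : (s : σ) → Matrix (Fin (m s + 1)) (Fin (NV n (de s) + 1)) ℂ)
    (f : FV (Fin (n + 1)) d → ℂ) (lam : ιL → ℂ)
    (E : ιL → Fin c → MvPolynomial (Fin (n + 1) ⊕ Fin c) ℂ)
    (hE : ∀ j i, (E j i).IsHomogeneous (d j - 1)) (y : ℂ → Fin (n + 1) → ℂ)
    (θ : LV (fun t : κ => m (sx t)) → ℂ) (j : ιL) (z : ℂ) :
    eval (wO xL sE A' Lb y (sbO sx (Sum.inl j : ιL ⊕ κ)) z)
      (FO (N := n + c) (m := m) (sx := sx) (mvF xL (extC f A lam sE E)) θ (Sum.inl j)) =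
      lam j * eval (y z) (fmj f j) := by
  have h := eval_crv hd xL sE f A lam E hE (fun z => A'.mulVec (y z)) z j
  rw [Matrix.mulVec_mulVec, hAA, Matrix.one_mulVec] at h
  exact h

/-- CHUNK F12a (M).  The value of the linear factors: `∑ b, (∑ l, η l * Lam l b) * (Lb ver) b =
∑ l, η l * (Lam (Lb ver)) l = lin η ver`. -/
theorem eval_FO_inr (xL : Fin (n + c) → ℂ) (sE : Fin c → Fin n → ℂ)
    (A' : Matrix (Fin (n + 1)) (Fin (n + 1)) ℂ)
    {Lam : (s : σ) → Matrix (Fin (NV n (de s) + 1)) (Fin (m s + 1)) ℂ}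
    {Lb : (s : σ) → Matrix (Fin (m s + 1)) (Fin (NV n (de s) + 1)) ℂ}
    {y : ℂ → Fin (n + 1) → ℂ}
    (hspan : ∀ s z, (Lam s).mulVec ((Lb s).mulVec (ver n (de s) (y z))) = ver n (de s) (y z))
    (G : ιL → MvPolynomial (Fin (n + c + 1)) ℂ)
    (η : LV (fun t : κ => NV n (de (sx t))) → ℂ) (t : κ) (z : ℂ) :
    eval (wO xL sE A' Lb y (sbO sx (Sum.inr t : ιL ⊕ κ)) z)
      (FO (N := n + c) (m := m) (sx := sx) G (thR η Lam) (Sum.inr t)) =
      lin (fun l => η ⟨t, l⟩) (ver n (de (sx t)) (y z)) := by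
  have h1 : ∀ {M : ℕ} (v w : Fin (M + 1) → ℂ), eval w (linF v) = ∑ b, v b * w b := by
    intro M v w
    rw [linF, map_sum]
    exact Finset.sum_congr rfl fun b _ => by rw [map_mul, eval_C, eval_X]
  have h2 := h1 (fun b => thR η Lam ⟨t, b⟩) ((Lb (sx t)).mulVec (ver n (de (sx t)) (y z)))
  have h3 : ∑ b, thR η Lam ⟨t, b⟩ * (Lb (sx t)).mulVec (ver n (de (sx t)) (y z)) b =
      lin (fun l => η ⟨t, l⟩) (ver n (de (sx t)) (y z)) := by
    have h4 := hspan (sx t) z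
    calc ∑ b, thR η Lam ⟨t, b⟩ * (Lb (sx t)).mulVec (ver n (de (sx t)) (y z)) b
        = ∑ b, ∑ l, η ⟨t, l⟩ *
            (Lam (sx t) l b * (Lb (sx t)).mulVec (ver n (de (sx t)) (y z)) b) := by
          refine Finset.sum_congr rfl fun b _ => ?_
          rw [thR, Finset.sum_mul]
          exact Finset.sum_congr rfl fun l _ => mul_assoc _ _ _
      _ = ∑ l, η ⟨t, l⟩ *
            ((Lam (sx t)).mulVec ((Lb (sx t)).mulVec (ver n (de (sx t)) (y z)))) l := by
          rw [Finset.sum_comm]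
          refine Finset.sum_congr rfl fun l _ => ?_
          rw [← Finset.mul_sum]
          rfl
      _ = lin (fun l => η ⟨t, l⟩) (ver n (de (sx t)) (y z)) := by
          rw [h4]
          rfl
  exact h2.trans h3

end

end Pool.Agent.H53Y
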