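import Pool.Agent.Lib.H53Y.F12

set_option autoImplicit false

/-!
H53Y, chunk F12b: the data of the curve.
-/

open MvPolynomial Real MeasureTheory

namespace Pool.Agent.H53Y

open Pool.Agent.H89T Pool.Agent.H78G Pool.Agent.H67T

theorem f12b_bound {a b : ℕ} (M : Matrix (Fin a) (Fin b) ℂ) :
    ∃ C : ℝ, 0 ≤ C ∧ ∀ v, ‖M.mulVec v‖ ≤ C * ‖v‖ := by
  let T := LinearMap.toContinuousLinearMap (Matrix.mulVecLin M)
  exact ⟨‖T‖, norm_nonneg _, fun v => T.le_opNorm v⟩

/-- CHUNK F12b (M/L).  The data of the curve.  Fields: `y := y`, `w := wO xL sE A' Lb y`,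
`eg := egO de`, `F := FO (mvF xL (extC f A lam sE E)) (thR η Lam)`.
* `hw`, `hwle`, `hwge`: for `none` use `crv_linear` and `linear_image` (twice: `A'` has the left inverse
  `A`), exponent `1`; for `some s` use `isHol_ver`, `norm_ver` and `linear_image`-like bounds: `‖Lb v‖ ≤ A ‖v‖`,
  `‖v‖ = ‖Lam (Lb v)‖ ≤ A ‖Lb v‖` for `v = ver ..` (`hspan`; `H78G.F4B_norm`).
* `hw0`: at `z₀` the coordinates are `1` and `x b ≠ 0` (`crv_base`, `hz₀`, `hw`).
* `hF`: `mvF_homogeneous`; `linF` is homogeneous of degree `1`.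
* `hF0`: at `z₀` (`eval_FO_inl`, `eval_FO_inr`, `hlam`, `hf0`, `hη0`). -/
theorem exists_curveY {n c nt : ℕ} {ιL σ κ : Type} [Fintype ιL] [Fintype κ]
    {d : ιL → ℕ} {m de : σ → ℕ} {sx : κ → σ} (hd : ∀ j, 1 ≤ d j)
    (e : Co (mO (n + c) m) ≃ Fin nt)
    {y : ℂ → Fin (n + 1) → ℂ} (hy : IsHol y)
    {A A' : Matrix (Fin (n + 1)) (Fin (n + 1)) ℂ} (hAA : A * A' = 1) (hA'A : A' * A = 1)
    {z₀ : ℂ} (hz₀ : A'.mulVec (y z₀) = Pi.single 0 1)
    {Lam : (s : σ) → Matrix (Fin (NV n (de s) + 1)) (Fin (m s + 1)) ℂ}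
    {Lb : (s : σ) → Matrix (Fin (m s + 1)) (Fin (NV n (de s) + 1)) ℂ}
    (hspan : ∀ s z, (Lam s).mulVec ((Lb s).mulVec (ver n (de s) (y z))) = ver n (de s) (y z))
    {x : Fin nt → ℂ} (hx : ∀ b, x b ≠ 0)
    (hw : ∀ s, (Lb s).mulVec (ver n (de s) (y z₀)) = Fin.cons 1 (fun b => x (e ⟨some s, b⟩)))
    (f : FV (Fin (n + 1)) d → ℂ) (η : LV (fun t : κ => NV n (de (sx t))) → ℂ)
    (hf0 : ∀ j, eval (y z₀) (fmj f j) ≠ 0)
    (hη0 : ∀ t, lin (fun l => η ⟨t, l⟩) (ver n (de (sx t)) (y z₀)) ≠ 0)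
    {lam : ιL → ℂ} (sE : Fin c → Fin n → ℂ)
    {E : ιL → Fin c → MvPolynomial (Fin (n + 1) ⊕ Fin c) ℂ} (hlam : ∀ j, lam j ≠ 0)
    (hE : ∀ j i, (E j i).IsHomogeneous (d j - 1)) :
    ∃ D : CurveY n (mO (n + c) m) (ιL ⊕ κ) (sbO sx) (dgO d), D.y = y ∧
      D.w = wO (fun b => x (e ⟨none, b⟩)) sE A' Lb y ∧ D.eg = egO de ∧
      D.F = FO (mvF (fun b => x (e ⟨none, b⟩)) (extC f A lam sE E)) (thR η Lam) := by
  obtain ⟨L, L', hL, hcrv⟩ := crv_linear (fun b => x (e ⟨none, b⟩)) sE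
  obtain ⟨hol1, ⟨A1, hA1⟩, ⟨δ1, hδ1, hδ1'⟩, -⟩ := linear_image hAA hy
  obtain ⟨hol2, ⟨A2, hA2⟩, ⟨δ2, hδ2, hδ2'⟩, -⟩ := linear_image hL hol1
  have hnone : ∀ z, crv (fun b => x (e ⟨none, b⟩)) sE (fun z => A'.mulVec (y z)) z =
      L.mulVec (A'.mulVec (y z)) := fun z => hcrv _ z
  have hw' : ∀ s j, Differentiable ℂ
      fun z => wO (m := m) (fun b => x (e ⟨none, b⟩)) sE A' Lb y s z j := by
    intro s
    cases s with
    | none =>
      intro j
      have h1 := hol2.diff j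
      have h2 : (fun z => wO (m := m) (fun b => x (e ⟨none, b⟩)) sE A' Lb y none z j) =
          fun z => L.mulVec (A'.mulVec (y z)) j := funext fun z => congrFun (hnone z) j
      rw [h2]
      exact h1
    | some s =>
      intro j
      have h3 : Differentiable ℂ
          fun z => ∑ l, Lb s j l * ver n (de s) (y z) l :=
        Differentiable.fun_sum fun l _ => ((isHol_ver hy (de s)).diff l).const_mul _
      exact h3
  refine ⟨{
    y := y
    w := wO (fun b => x (e ⟨none, b⟩)) sE A' Lb y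
    eg := egO de
    F := FO (mvF (fun b => x (e ⟨none, b⟩)) (extC f A lam sE E)) (thR η Lam)
    hy := hy
    hw := hw'
    hwle := ?_
    hwge := ?_
    hw0 := ?_
    hF := ?_
    hF0 := ?_ }, rfl, rfl, rfl, rfl⟩
  · intro s
    cases s with
    | none =>
      refine ⟨|A2| * |A1|, fun z => ?_⟩
      have h1 : ‖crv (fun b => x (e ⟨none, b⟩)) sE (fun z => A'.mulVec (y z)) z‖ ≤
          |A2| * |A1| * ‖y z‖ ^ 1 := by
        rw [hnone, pow_one]
        calc ‖L.mulVec (A'.mulVec (y z))‖ ≤ A2 * ‖A'.mulVec (y z)‖ := hA2 z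
          _ ≤ |A2| * ‖A'.mulVec (y z)‖ :=
              mul_le_mul_of_nonneg_right (le_abs_self _) (norm_nonneg _)
          _ ≤ |A2| * (|A1| * ‖y z‖) := by
              refine mul_le_mul_of_nonneg_left ?_ (abs_nonneg _)
              exact (hA1 z).trans (mul_le_mul_of_nonneg_right (le_abs_self _) (norm_nonneg _))
          _ = |A2| * |A1| * ‖y z‖ := by ring
      exact h1
    | some s =>
      obtain ⟨C, hC, hCb⟩ := f12b_bound (Lb s)
      refine ⟨C, fun z => ?_⟩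
      have h1 : ‖(Lb s).mulVec (ver n (de s) (y z))‖ ≤ C * ‖y z‖ ^ de s := by
        rw [← norm_ver]
        exact hCb _
      exact h1
  · intro s
    cases s with
    | none =>
      refine ⟨δ2 * δ1, mul_pos hδ2 hδ1, fun z => ?_⟩
      have h1 : δ2 * δ1 * ‖y z‖ ^ 1 ≤
          ‖crv (fun b => x (e ⟨none, b⟩)) sE (fun z => A'.mulVec (y z)) z‖ := by
        rw [hnone, pow_one, mul_assoc]
        exact (mul_le_mul_of_nonneg_left (hδ1' z) hδ2.le).trans (hδ2' z)
      exact h1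
    | some s =>
      obtain ⟨C, hC, hCb⟩ := f12b_bound (Lam s)
      refine ⟨(C + 1)⁻¹, by positivity, fun z => ?_⟩
      have h1 : (C + 1)⁻¹ * ‖y z‖ ^ de s ≤ ‖(Lb s).mulVec (ver n (de s) (y z))‖ := by
        have h2 := hCb ((Lb s).mulVec (ver n (de s) (y z)))
        rw [hspan, norm_ver] at h2
        rw [inv_mul_le_iff₀ (by positivity)]
        refine h2.trans ?_
        exact mul_le_mul_of_nonneg_right (by linarith) (norm_nonneg _)
      exact h1
  · intro s
    cases s with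
    | none =>
      have h1 := crv_base (fun b => x (e ⟨none, b⟩)) sE (y := fun z => A'.mulVec (y z)) hz₀
      have h2 : ∀ j : Fin (n + c + 1), crv (fun b => x (e ⟨none, b⟩)) sE
          (fun z => A'.mulVec (y z)) z₀ j ≠ 0 := by
        intro j
        rw [h1]
        refine Fin.cases ?_ (fun b => ?_) j
        · simp
        · rw [Fin.cons_succ]
          exact hx _
      exact fun j => ⟨z₀, h2 j⟩
    | some s =>
      have h2 : ∀ j : Fin (m s + 1), (Lb s).mulVec (ver n (de s) (y z₀)) j ≠ 0 := by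
        intro j
        rw [hw s]
        refine Fin.cases ?_ (fun b => ?_) j
        · exact (one_ne_zero : (1 : ℂ) ≠ 0)
        · exact hx (e ⟨some s, b⟩)
      exact fun j => ⟨z₀, h2 j⟩
  · intro i
    cases i with
    | inl j => exact mvF_homogeneous _ _ j
    | inr t =>
      have h1 : ∀ {M : ℕ} (v : Fin (M + 1) → ℂ), (linF v).IsHomogeneous 1 := by
        intro M v
        rw [linF]
        exact IsHomogeneous.sum _ _ _ fun b _ => isHomogeneous_C_mul_X _ _
      exact h1 _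
  · intro i
    refine ⟨z₀, ?_⟩
    cases i with
    | inl j =>
      have h1 := eval_FO_inl (m := m) (sx := sx) hd (fun b => x (e ⟨none, b⟩)) sE hAA Lb f lam E hE
        y (thR η Lam) j z₀
      rw [h1]
      exact mul_ne_zero (hlam j) (hf0 j)
    | inr t =>
      have h1 := eval_FO_inr (sx := sx) (fun b => x (e ⟨none, b⟩)) sE A' hspan
        (mvF (fun b => x (e ⟨none, b⟩)) (extC f A lam sE E)) η t z₀
      rw [h1]
      exact hη0 t

end Pool.Agent.H53Y
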