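import Pool.Agent.Lib.H53Y.F12b
import Pool.Agent.Lib.H78G.D5B

set_option autoImplicit false

/-!
H53Y, chunk F12c (L): the estimate for one curve.
-/

open MvPolynomial Real MeasureTheory

namespace Pool.Agent.H53Y

open Pool.Agent.H89T Pool.Agent.H78G Pool.Agent.H67T

/-- CHUNK F12c (L).  Apply `hD` to the structure `D` of `exists_curveY` with `T := Option.isSome`,
`k := n`, `dB' := Sum.elim dB 0` (rewrite with the four equations `D.y = ..`, `D.w = ..`, `D.eg = ..`,
`D.F = ..`; `D.a` is then `aO ..` and `D.θ` is `thO ..` by `rfl`).  Write `xL b = x (e ⟨none, b⟩)`,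
`g = extC f A lam sE E`, `θ = thR η Lam`.
* `D.φ (inl j) z = lam j * eval (y z) (fmj f j)` (`eval_FO_inl`, needs `A * A' = 1`),
  `D.φ (inr t) z = lin .. (ver ..)` (`eval_FO_inr`).
* charts: `hzL`; for `s = none` the coordinate `0` of `crv` is that of `A' y` (`crv_zero`).
* small blocks: `dgO d (inr t) = 1`; `hgen`; the card of `{i : ιL ⊕ κ // sbO sx i = some s}` is that of
  `{t // sx t = s}`; `hWr` at `z₀`.
* large block: `{i // sbO sx i = none ∧ D.φ i z = 0}` has the card of `{j // eval (y z) (fmj f j) = 0}`.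
* `dB`: `z := z₀`, `ξ := jetf (n + c) (ch k (crv xL sE (A' y))) z₀`; `ξ (b, 0) = bpt xL k b` by `crv_base` and
  `hz₀`; the value `ev ..` is `Fc .. = D.φ (inl j) z₀ / (..) ^ d j ≠ 0` by `ev_cf`; the jet is not `0` by
  `NonStat.chart` and `linear_image` (twice: `A'` with left inverse `A`, then `crv_linear`).
* operator: `z := z₀`, `ξ := jetf r (D.f e) z₀`; `bj e ξ s = jetf r (ch 0 (D.w s)) z₀` (`e.symm (e ..) = ..`);
  `ξ (b, 0) = x b` because `D.w s z₀ = Fin.cons 1 (fun b => x (e ⟨s, b⟩))` for all `s` (`crv_base`, `hw`);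
  `fv e (aO ..) x i = ev (cfF (dgO d i) 0 (FO .. i)) (ch 0 (D.w (sbO sx i)) z₀) = Fc .. ≠ 0` (`ev_cf`);
  `Wd_ne_zero_of_Wr (c := 0)`; the jet of the large block as above with the chart `0`.
* conclusion: `∑ i, D.eg (sb i) * dg i = ∑ j, d j + ∑ t, de (sx t)` (`Fintype.sum_sum_type`),
  `∑ s, D.eg s = 1 + ∑ s, de s` (`Fintype.sum_option`), and `N1_congr`: the products vanish at the
  same points (`Fintype.prod_sum_type`, `Finset.prod_eq_zero_iff`, `lam j ≠ 0`). -/
theorem one_curve (hD : D_statement) {n c nt r M μ : ℕ} {ιL σ κ : Type} [Fintype ιL] [Fintype σ]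
    [Fintype κ] [DecidableEq (ιL ⊕ κ)] [DecidableEq (Option σ)] {d : ιL → ℕ} {m de : σ → ℕ} {sx : κ → σ}
    (hn : 1 ≤ n) (hd : ∀ j, 1 ≤ d j) (hm : ∀ s, 1 ≤ m s)
    (e : Co (mO (n + c) m) ≃ Fin nt) (hr1 : 1 ≤ r) (hr : ∀ s, mO (n + c) m s ≤ r)
    (hμ : ∀ s, mO (n + c) m s ≤ μ)
    -- the curve
    {y : ℂ → Fin (n + 1) → ℂ} (hy : IsHol y)
    {A A' : Matrix (Fin (n + 1)) (Fin (n + 1)) ℂ} (hAA : A * A' = 1) (hA'A : A' * A = 1)
    {z₀ : ℂ} (hz₀ : A'.mulVec (y z₀) = Pi.single 0 1) (hns : NonStat y z₀)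
    {Lam : (s : σ) → Matrix (Fin (NV n (de s) + 1)) (Fin (m s + 1)) ℂ}
    {Lb : (s : σ) → Matrix (Fin (m s + 1)) (Fin (NV n (de s) + 1)) ℂ}
    (hspan : ∀ s z, (Lam s).mulVec ((Lb s).mulVec (ver n (de s) (y z))) = ver n (de s) (y z))
    (hWr : ∀ s, Wr (fun z => (Lb s).mulVec (ver n (de s) (y z))) z₀ ≠ 0)
    {x : Fin nt → ℂ} (hx : ∀ b, x b ≠ 0)
    (hw : ∀ s, (Lb s).mulVec (ver n (de s) (y z₀)) = Fin.cons 1 (fun b => x (e ⟨some s, b⟩)))
    -- the forms
    (f : FV (Fin (n + 1)) d → ℂ) (η : LV (fun t : κ => NV n (de (sx t))) → ℂ)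
    (hf0 : ∀ j, eval (y z₀) (fmj f j) ≠ 0)
    (hη0 : ∀ t, lin (fun l => η ⟨t, l⟩) (ver n (de (sx t)) (y z₀)) ≠ 0)
    {lam : ιL → ℂ} (sE : Fin c → Fin n → ℂ)
    {E : ιL → Fin c → MvPolynomial (Fin (n + 1) ⊕ Fin c) ℂ} (hlam : ∀ j, lam j ≠ 0)
    (hE : ∀ j i, (E j i).IsHomogeneous (d j - 1))
    (hk : ∀ z, Nat.card {j : ιL // eval (y z) (fmj f j) = 0} ≤ n)
    (hgen : ∀ s, GenPos (thO (m := m) (sx := sx)
      (mvF (fun b => x (e ⟨none, b⟩)) (extC f A lam sE E)) (thR η Lam) s))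
    (hcard : ∀ s, (∃ t, sx t = s) → m s + 1 ≤ Nat.card {t : κ // sx t = s})
    -- the charts
    (hzL : ∀ z, ((∃ j, eval (y z) (fmj f j) = 0) ∨
        ∃ t, lin (fun l => η ⟨t, l⟩) (ver n (de (sx t)) (y z)) = 0) →
      A'.mulVec (y z) 0 ≠ 0 ∧ ∀ s, (Lb s).mulVec (ver n (de s) (y z)) 0 ≠ 0)
    -- the operators
    (dB : ιL → ℕ)
    (hB : ∀ (j : ιL) (k : Fin (n + c + 1)) (ξ : JV (n + c) (n + c) → ℂ),
      (∀ b, ξ (b, 0) = bpt (fun b => x (e ⟨none, b⟩)) k b) →
      ev (cfF (d j) k (mvF (fun b => x (e ⟨none, b⟩)) (extC f A lam sE E) j))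
        (fun b => ξ (b, 0)) ≠ 0 →
      (∃ b, ∃ l : Fin (n + c + 1), (l : ℕ) = 1 ∧ ξ (b, l) ≠ 0) →
      ∃ Q : MvPolynomial (JV (n + c) (n + c)) ℂ, HasWt (dB j) Q ∧
        PropB (cfF (d j) k (mvF (fun b => x (e ⟨none, b⟩)) (extC f A lam sE E) j)) Q ∧
        eval ξ Q ≠ 0)
    (hP : ∀ ξ : JV nt r → ℂ, (∀ b, ξ (b, 0) = x b) →
      (∀ i : ιL ⊕ κ, fv e (aO (fun b => x (e ⟨none, b⟩)) (extC f A lam sE E) (thR η Lam)) x i ≠ 0) →
      (∀ s, Wd (hr (some s)) (bj e ξ (some s)) ≠ 0) →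
      (∃ b, ∃ l : Fin (r + 1), (l : ℕ) = 1 ∧ bj e ξ none (b, l) ≠ 0) →
      ∃ P : MvPolynomial (JV nt r) ℂ, HasWt M P ∧
        PropG e (aO (fun b => x (e ⟨none, b⟩)) (extC f A lam sE E) (thR η Lam)) r P ∧
        eval ξ P ≠ 0) :
    ∃ C : ℝ, 0 ≤ C ∧ ∀ ρ R : ℝ, 1 ≤ ρ → ρ < R →
      ((r * (∑ j, d j + ∑ t, de (sx t)) : ℕ) : ℝ) * chi y ρ ≤
        r * N1 (fun z => (∏ j, eval (y z) (fmj f j)) *
          ∏ t, lin (fun l => η ⟨t, l⟩) (ver n (de (sx t)) (y z))) ρ +
        ((Fintype.card (Option σ) * (n * μ + μ ^ 2) * (M * (1 + ∑ s, de s)) +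
          r * (∑ j, (μ + 1) * dB j) + r * ((1 + ∑ s, de s) * (μ + 1)) : ℕ) : ℝ) *
          chi y ρ + C * err y ρ R := by
  obtain ⟨D, hDy, hDw, hDe, hDF⟩ := exists_curveY hd e hy hAA hA'A hz₀ hspan hx hw f η hf0 hη0 sE
    hlam hE
  -- the values of the factors
  have hφl : ∀ j z, D.φ (Sum.inl j) z = lam j * eval (y z) (fmj f j) := by
    intro j z
    rw [CurveY.φ, hDw, hDF]
    exact eval_FO_inl hd (fun b => x (e ⟨none, b⟩)) sE hAA Lb f lam E hE y (thR η Lam) j z
  have hφr : ∀ t z, D.φ (Sum.inr t) z = lin (fun l => η ⟨t, l⟩) (ver n (de (sx t)) (y z)) := by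
    intro t z
    rw [CurveY.φ, hDw, hDF]
    exact eval_FO_inr (fun b => x (e ⟨none, b⟩)) sE A' hspan _ η t z
  -- the base point
  have hbase : ∀ s : Option σ, D.w s z₀ =
      (Fin.cons 1 (fun b => x (e ⟨s, b⟩)) : Fin (mO (n + c) m s + 1) → ℂ) := by
    intro s
    rw [hDw]
    cases s with
    | none => exact crv_base (fun b => x (e ⟨none, b⟩)) sE (y := fun z => A'.mulVec (y z)) hz₀
    | some s => exact hw s
  have hbase0 : ∀ s : Option σ, D.w s z₀ 0 = 1 := by
    intro s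
    rw [hbase, Fin.cons_zero]
  have hbases : ∀ (s : Option σ) (b : Fin (mO (n + c) m s)), D.w s z₀ b.succ = x (e ⟨s, b⟩) := by
    intro s b
    rw [hbase, Fin.cons_succ]
  have hbne : ∀ (s : Option σ) (k : Fin (mO (n + c) m s + 1)), D.w s z₀ k ≠ 0 := by
    intro s k
    refine Fin.cases ?_ (fun b => ?_) k
    · rw [hbase0]
      exact one_ne_zero
    · rw [hbases]
      exact hx _
  -- the large block
  obtain ⟨L, L', hL, hcrv⟩ := crv_linear (n := n) (c := c) (fun b => x (e ⟨none, b⟩)) sE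
  have hA1 := linear_image hAA hy
  have hA2 := linear_image hL hA1.1
  have hDwn : D.w none = fun z => L.mulVec (A'.mulVec (y z)) := by
    rw [hDw]
    funext z
    exact hcrv (fun z => A'.mulVec (y z)) z
  have hholn : IsHol (D.w none) := by
    rw [hDwn]
    exact hA2.1
  have hnsn : NonStat (N := n + c + 1) (D.w none) z₀ := by
    rw [hDwn]
    exact hA2.2.2.2 z₀ (hA1.2.2.2 z₀ hns)
  have hjet : ∀ (k : Fin (n + c + 1)) (r' : ℕ), 1 ≤ r' →
      ∃ b, ∃ l : Fin (r' + 1), (l : ℕ) = 1 ∧ jetf r' (ch k (D.w none)) z₀ (b, l) ≠ 0 := by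
    intro k r' hr'
    obtain ⟨b, hb⟩ := NonStat.chart (N := n + c) hholn hnsn k (hbne none k)
    refine ⟨b, ⟨1, by omega⟩, rfl, ?_⟩
    simp only [jetf, iteratedDeriv_one, Nat.factorial_one, Nat.cast_one, div_one]
    exact hb
  have hjz : ∀ {N r' : ℕ} (F : ℂ → Fin N → ℂ) (b : Fin N), jetf r' F z₀ (b, 0) = F z₀ b := by
    intro N r' F b
    simp [jetf]
  have hwne : ∀ z, ((∃ j, eval (y z) (fmj f j) = 0) ∨
        ∃ t, lin (fun l => η ⟨t, l⟩) (ver n (de (sx t)) (y z)) = 0) → ∀ s, D.w s z 0 ≠ 0 := by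
    intro z hz s
    have h1 := hzL z hz
    rw [hDw]
    cases s with
    | none =>
      have h2 : wO (fun b => x (e ⟨none, b⟩)) sE A' Lb y none z 0 = A'.mulVec (y z) 0 :=
        crv_zero (fun b => x (e ⟨none, b⟩)) sE (fun z => A'.mulVec (y z)) z
      rw [h2]
      exact h1.1
    | some s => exact h1.2 s
  have hDa : D.a = aO (fun b => x (e ⟨none, b⟩)) (extC f A lam sE E) (thR η Lam) := by
    funext q
    rw [CurveY.a, hDF]
    rfl
  have hDf : ∀ (s : Option σ) (b : Fin (mO (n + c) m s)) (z : ℂ),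
      D.f e z (e ⟨s, b⟩) = ch 0 (D.w s) z b := by
    intro s b z
    have h1 : ∀ q : Co (mO (n + c) m), q = ⟨s, b⟩ → ch 0 (D.w q.1) z q.2 = ch 0 (D.w s) z b := by
      rintro _ rfl
      rfl
    exact h1 _ (e.symm_apply_apply _)
  have hbj : ∀ s : Option σ, bj e (jetf r (D.f e) z₀) s = jetf r (ch 0 (D.w s)) z₀ := by
    intro s
    funext q
    have h1 : (fun w => D.f e w (e ⟨s, q.1⟩)) = fun w => ch 0 (D.w s) w q.1 := by
      funext w
      exact hDf s q.1 w
    rw [bj, jetf, jetf]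
    simp only [h1]
  have hch0 : ∀ (s : Option σ) (b : Fin (mO (n + c) m s)), ch 0 (D.w s) z₀ b = x (e ⟨s, b⟩) := by
    intro s b
    rw [ch, hbase0, div_one, Fin.succAbove_zero, hbases]
  have hfx : ∀ b, D.f e z₀ b = x b := by
    intro b
    have h1 := hDf (e.symm b).1 (e.symm b).2 z₀
    have h2 : e ⟨(e.symm b).1, (e.symm b).2⟩ = b := e.apply_symm_apply b
    rw [hch0, h2] at h1
    exact h1
  have hφ0 : ∀ i, D.φ i z₀ ≠ 0 := by
    rintro (j | t)
    · rw [hφl]
      exact mul_ne_zero (hlam j) (hf0 j)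
    · rw [hφr]
      exact hη0 t
  have hev : ∀ (i : ιL ⊕ κ) (k : Fin (mO (n + c) m (sbO sx i) + 1)),
      ev (cfF (dgO d i) k (D.F i)) (ch k (D.w (sbO sx i)) z₀) ≠ 0 := by
    intro i k
    have h1 := ev_cf k (D.hF i) (y := D.w (sbO sx i) z₀) (hbne _ k)
    have h2 : ev (cfF (dgO d i) k (D.F i)) (ch k (D.w (sbO sx i)) z₀) =
        eval (D.w (sbO sx i) z₀) (D.F i) / D.w (sbO sx i) z₀ k ^ dgO d i := h1
    rw [h2]
    exact div_ne_zero (hφ0 i) (pow_ne_zero _ (hbne _ k))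
  -- the operator in all coordinates
  obtain ⟨P, hPw, hPG, hP0⟩ := hP (jetf r (D.f e) z₀) (fun b => by rw [hjz, hfx])
    (fun i => by
      have h1 := hev i 0
      have h2 : ch 0 (D.w (sbO sx i)) z₀ = bx e x (sbO sx i) := by
        funext b
        rw [hch0, bx]
      rw [h2, hDF] at h1
      exact h1)
    (fun s => by
      rw [hbj]
      refine Wd_ne_zero_of_Wr (hr (some s)) (fun j => D.hw (some s) j) 0 ?_ ?_
      · rw [hbase0]
        exact one_ne_zero
      · rw [hDw]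
        exact hWr s)
    (by
      rw [hbj]
      exact hjet 0 r hr1)
  rw [← hDa] at hPG
  -- the theorem on one curve
  obtain ⟨K, hK, hmain⟩ := hD (fun s : Option σ => s.isSome) (k := n) (μ := μ) (M := M) e D hr1
    (by
      rintro (_ | s)
      · change 1 ≤ n + c
        omega
      · exact hm s)
    hr hμ
    (by
      intro z i hi
      refine hwne z ?_
      rcases i with j | t
      · left
        rw [hφl] at hi
        exact ⟨j, (mul_eq_zero.1 hi).resolve_left (hlam j)⟩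
      · right
        rw [hφr] at hi
        exact ⟨t, hi⟩)
    (by
      rintro (j | t) hi
      · exact absurd hi (by simp [sbO])
      · rfl)
    (by
      rintro (_ | s) hs
      · exact absurd hs (by simp)
      · have h1 : D.θ (some s) = thO (m := m) (sx := sx)
            (mvF (fun b => x (e ⟨none, b⟩)) (extC f A lam sE E)) (thR η Lam) s := by
          funext q b
          rw [CurveY.θ, hDF]
          rfl
        rw [h1]
        exact hgen s)
    (by
      rintro (_ | s) hs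
      · exact absurd hs (by simp)
      · rintro ⟨i, hi⟩
        have h1 : ∃ t, sx t = s := by
          rcases i with j | t
          · exact absurd hi (by simp [sbO])
          · exact ⟨t, Option.some_injective _ hi⟩
        have h2 : Nat.card {t : κ // sx t = s} = Nat.card {i : ιL ⊕ κ // sbO sx i = some s} := by
          refine Nat.card_congr (Equiv.ofBijective
            (fun t => (⟨Sum.inr t.1, congrArg some t.2⟩ : {i : ιL ⊕ κ // sbO sx i = some s})) ⟨?_, ?_⟩)
          · intro t t' htt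
            have h3 := congrArg Subtype.val htt
            exact Subtype.ext (Sum.inr_injective h3)
          · rintro ⟨j | t, ht⟩
            · exact absurd ht (by simp [sbO])
            · exact ⟨⟨t, Option.some_injective _ ht⟩, rfl⟩
        rw [← h2]
        exact hcard s h1)
    (by
      rintro (_ | s) hs
      · exact absurd hs (by simp)
      · refine ⟨z₀, ?_⟩
        rw [hDw]
        exact hWr s)
    (by
      rintro (_ | s) hs z
      · have h2 : Nat.card {j : ιL // eval (y z) (fmj f j) = 0} =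
            Nat.card {i : ιL ⊕ κ // sbO sx i = none ∧ D.φ i z = 0} := by
          refine Nat.card_congr (Equiv.ofBijective
            (fun j => (⟨Sum.inl j.1, rfl, by rw [hφl, j.2, mul_zero]⟩ :
              {i : ιL ⊕ κ // sbO sx i = none ∧ D.φ i z = 0})) ⟨?_, ?_⟩)
          · intro t t' htt
            have h3 := congrArg Subtype.val htt
            exact Subtype.ext (Sum.inl_injective h3)
          · rintro ⟨j | t, ht, ht0⟩
            · rw [hφl] at ht0
              exact ⟨⟨j, (mul_eq_zero.1 ht0).resolve_left (hlam j)⟩, rfl⟩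
            · exact absurd ht (by simp [sbO])
        rw [← h2]
        exact hk z
      · exact absurd hs (by simp))
    (Sum.elim dB fun _ => 0)
    (by
      rintro (j | t) hs k
      · have h3 := hev (Sum.inl j) k
        rw [hDF] at h3
        obtain ⟨Q, hQ1, hQ2, hQ3⟩ := hB j k (jetf (n + c) (ch k (D.w none)) z₀)
          (fun b => by
            rw [hjz]
            have h4 : D.w none z₀ = (Fin.cons 1 fun b => x (e ⟨none, b⟩) : Fin (n + c + 1) → ℂ) :=
              hbase none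
            change D.w none z₀ (k.succAbove b) / D.w none z₀ k = _
            rw [h4]
            rfl)
          (by
            have h5 : (fun b => jetf (n + c) (ch k (D.w none)) z₀ (b, 0)) = ch k (D.w none) z₀ := by
              funext b
              exact hjz _ b
            exact ne_of_eq_of_ne (congrArg (fun v => ev (cfF (d j) k
              (mvF (fun b => x (e ⟨none, b⟩)) (extC f A lam sE E) j)) v) h5) h3)
          (hjet k (n + c) (by omega))
        refine ⟨Q, hQ1, ?_, z₀, hbne none k, hQ3⟩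
        rw [hDF]
        exact hQ2
      · exact absurd hs (by simp [sbO]))
    P hPw hPG
    ⟨z₀, fun s => by rw [hbase0]; exact one_ne_zero, hP0⟩
  refine ⟨K, hK, fun ρ R h1 h2 => ?_⟩
  have h3 := hmain ρ R h1 h2
  rw [hDy, hDe] at h3
  have h4 : N1 (fun z => ∏ i, D.φ i z) ρ = N1 (fun z => (∏ j, eval (y z) (fmj f j)) *
      ∏ t, lin (fun l => η ⟨t, l⟩) (ver n (de (sx t)) (y z))) ρ := by
    refine N1_congr (fun z => ?_) ρ
    rw [Fintype.prod_sum_type, mul_eq_zero, mul_eq_zero]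
    simp only [hφl, hφr]
    have h10 : ¬ ∏ j, lam j = 0 := Finset.prod_ne_zero_iff.2 fun j _ => hlam j
    rw [Finset.prod_mul_distrib, mul_eq_zero, or_iff_right h10]
  have h5 : ∑ i : ιL ⊕ κ, egO de (sbO sx i) * dgO d i = ∑ j, d j + ∑ t, de (sx t) := by
    rw [Fintype.sum_sum_type]
    congr 1
    · exact Finset.sum_congr rfl fun j _ => one_mul _
    · exact Finset.sum_congr rfl fun t _ => mul_one _
  have h6 : ∑ s : Option σ, egO de s = 1 + ∑ s, de s := by
    rw [Fintype.sum_option]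
    rfl
  have h7 : ∑ i : ιL ⊕ κ, egO de (sbO sx i) * ((μ + 1) * (Sum.elim dB (fun _ => 0) : ιL ⊕ κ → ℕ) i) =
      ∑ j, (μ + 1) * dB j := by
    rw [Fintype.sum_sum_type]
    have h8 : ∑ t : κ, egO de (sbO (ιL := ιL) sx (Sum.inr t)) *
        ((μ + 1) * (Sum.elim dB (fun _ => 0) : ιL ⊕ κ → ℕ) (Sum.inr t)) = 0 :=
      Finset.sum_eq_zero fun t _ => by rw [Sum.elim_inr, mul_zero, mul_zero]
    rw [h8, add_zero]
    exact Finset.sum_congr rfl fun j _ => one_mul _
  have h9 : ∑ s : Option σ, egO de s * (μ + 1) = (1 + ∑ s, de s) * (μ + 1) := by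
    rw [← Finset.sum_mul, h6]
  rw [h4, h5, h6, h7, h9] at h3
  exact h3

end Pool.Agent.H53Y
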