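import Mathlib

set_option autoImplicit false

/-!
H53Y, chunk F05 (M, three lemmas, only Mathlib): coordinates which avoid countably many points.
-/

namespace Pool.Agent.H53Y

/-- CHUNK F05a.  A linear form which does not vanish at countably many nonzero vectors.  Proof.  Try
`l t = (1, t, t ^ 2, ..., t ^ m)`, `t ∈ ℂ`: for `v ≠ 0` the polynomial `∑ j, v j t ^ j` is not zero, so it
has finitely many zeros; the union over `v ∈ V` of these zero sets is countable, and `ℂ` is not
countable (`Set.Countable.biUnion`, `not_countable` / `Cardinal` or `Set.Countable.ne_univ`). -/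
theorem exists_form_avoid {m : ℕ} (V : Set (Fin (m + 1) → ℂ)) (hV : V.Countable)
    (hV0 : ∀ v ∈ V, v ≠ 0) : ∃ l : Fin (m + 1) → ℂ, ∀ v ∈ V, ∑ j, l j * v j ≠ 0 := by
  classical
  let p : (Fin (m + 1) → ℂ) → Polynomial ℂ := fun v => ∑ j : Fin (m + 1), Polynomial.monomial (j : ℕ) (v j)
  have hcoeff : ∀ (v : Fin (m + 1) → ℂ) (i : Fin (m + 1)), (p v).coeff (i : ℕ) = v i := by
    intro v i
    show (∑ j : Fin (m + 1), Polynomial.monomial (j : ℕ) (v j)).coeff (i : ℕ) = v i
    rw [Polynomial.finsetSum_coeff, Finset.sum_eq_single i]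
    · rw [Polynomial.coeff_monomial, if_pos rfl]
    · intro j _ hj
      rw [Polynomial.coeff_monomial, if_neg]
      intro h
      exact hj (Fin.ext h)
    · intro h
      exact absurd (Finset.mem_univ i) h
  have hp : ∀ v ∈ V, p v ≠ 0 := by
    intro v hv h
    apply hV0 v hv
    funext i
    rw [← hcoeff v i, h, Polynomial.coeff_zero, Pi.zero_apply]
  have heval : ∀ (v : Fin (m + 1) → ℂ) (t : ℂ), (p v).eval t = ∑ j : Fin (m + 1), t ^ (j : ℕ) * v j := by
    intro v t
    show (∑ j : Fin (m + 1), Polynomial.monomial (j : ℕ) (v j)).eval t = _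
    rw [Polynomial.eval_finsetSum]
    refine Finset.sum_congr rfl fun j _ => ?_
    rw [Polynomial.eval_monomial, mul_comm]
  have hcount : (⋃ v ∈ V, {t : ℂ | (p v).eval t = 0}).Countable := by
    refine hV.biUnion fun v hv => ?_
    refine Set.Finite.countable ?_
    refine ((p v).roots.toFinset.finite_toSet).subset ?_
    intro t ht
    rw [Finset.mem_coe, Multiset.mem_toFinset, Polynomial.mem_roots (hp v hv)]
    exact ht
  obtain ⟨t, ht⟩ := (hcount.dense_compl ℝ).nonempty
  refine ⟨fun j => t ^ (j : ℕ), fun v hv h => ht ?_⟩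
  refine Set.mem_biUnion hv ?_
  show (p v).eval t = 0
  rw [heval, h]

/-- CHUNK F05b.  Proof.  Apply F05a to `V ∪ {v₀}` and scale `l` so that `l v₀ = 1`.  Let `b` be a basis
of `ℂ ^ (m + 1)` with `b 0 = v₀` and `b 1, ..., b m` a basis of the kernel of `l` (its dimension is `m`,
`v₀ ∉ ker l`); let `G` be the linear map with `G (b 0) = q`, `G (b (j + 1)) = e_(j + 1)`
(`Pi.single j.succ 1`).  It is invertible: `q 0 = 1`, so `q, e_1, ..., e_m` is a basis.  For every `v`:
`v = l (v) v₀ + (combination of the b (j + 1))`, so `(G v) 0 = l (v) q 0 = l (v)`.  `g` = the matrix of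
`G`, `g'` = that of its inverse. -/
theorem exists_gl_avoid {m : ℕ} {v₀ q : Fin (m + 1) → ℂ} (hv : v₀ ≠ 0) (hq : q 0 = 1)
    (V : Set (Fin (m + 1) → ℂ)) (hV : V.Countable) (hV0 : ∀ v ∈ V, v ≠ 0) :
    ∃ g g' : Matrix (Fin (m + 1)) (Fin (m + 1)) ℂ, g * g' = 1 ∧ g' * g = 1 ∧
      g.mulVec v₀ = q ∧ ∀ v ∈ V, g.mulVec v 0 ≠ 0 := by
  classical
  obtain ⟨l', hl'⟩ := exists_form_avoid (V ∪ {v₀, Pi.single 0 (1 : ℂ)})
    (hV.union ((Set.countable_singleton _).insert _))
    (by
      rintro v (hv' | hv')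
      · exact hV0 v hv'
      · rcases hv' with rfl | hv'
        · exact hv
        · rw [Set.mem_singleton_iff] at hv'
          rw [hv']
          intro h
          have h1 := congrFun h 0
          rw [Pi.single_eq_same, Pi.zero_apply] at h1
          exact one_ne_zero h1)
  have hc := hl' v₀ (Or.inr (Or.inl rfl))
  have h00 := hl' (Pi.single 0 (1 : ℂ)) (Or.inr (Or.inr rfl))
  set c : ℂ := ∑ j, l' j * v₀ j with hcdef
  set l : Fin (m + 1) → ℂ := fun j => c⁻¹ * l' j with hl
  have hlsum : ∀ v : Fin (m + 1) → ℂ, ∑ j, l j * v j = c⁻¹ * ∑ j, l' j * v j := by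
    intro v
    rw [Finset.mul_sum]
    refine Finset.sum_congr rfl fun j _ => ?_
    rw [hl]
    ring
  have hlv : ∑ j, l j * v₀ j = 1 := by
    rw [hlsum, ← hcdef, inv_mul_cancel₀ hc]
  have hl0 : l 0 ≠ 0 := by
    have h1 : ∑ j, l' j * (Pi.single 0 (1 : ℂ) : Fin (m + 1) → ℂ) j = l' 0 := by
      rw [Finset.sum_eq_single 0]
      · rw [Pi.single_eq_same, mul_one]
      · intro j _ hj
        rw [Pi.single_eq_of_ne hj, mul_zero]
      · intro h
        exact absurd (Finset.mem_univ _) h
    rw [h1] at h00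
    exact mul_ne_zero (inv_ne_zero hc) h00
  let g : Matrix (Fin (m + 1)) (Fin (m + 1)) ℂ := Matrix.of fun i j =>
    if i = 0 then l j else (if i = j then 1 else 0) + (q i - v₀ i) * l j
  have hg0 : ∀ v : Fin (m + 1) → ℂ, g.mulVec v 0 = ∑ j, l j * v j := by
    intro v
    show ∑ j, g 0 j * v j = _
    refine Finset.sum_congr rfl fun j _ => ?_
    show (if (0 : Fin (m + 1)) = 0 then l j else (if (0 : Fin (m + 1)) = j then 1 else 0) +
      (q 0 - v₀ 0) * l j) * v j = _
    rw [if_pos rfl]
  have hgi : ∀ (v : Fin (m + 1) → ℂ) (i : Fin (m + 1)), i ≠ 0 →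
      g.mulVec v i = v i + (q i - v₀ i) * ∑ j, l j * v j := by
    intro v i hi
    show ∑ j, g i j * v j = _
    have h1 : ∀ j, g i j * v j = (if i = j then v j else 0) + (q i - v₀ i) * (l j * v j) := by
      intro j
      show (if i = 0 then l j else (if i = j then 1 else 0) + (q i - v₀ i) * l j) * v j = _
      rw [if_neg hi]
      by_cases h : i = j
      · rw [if_pos h, if_pos h]
        ring
      · rw [if_neg h, if_neg h]
        ring
    rw [Finset.sum_congr rfl fun j _ => h1 j, Finset.sum_add_distrib, Finset.sum_ite_eq,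
      if_pos (Finset.mem_univ i), ← Finset.mul_sum]
  have hinj : Function.Injective g.mulVec := by
    rw [← Matrix.coe_mulVecLin, injective_iff_map_eq_zero]
    intro v hv'
    have hv1 : g.mulVec v = 0 := hv'
    have h0 : ∑ j, l j * v j = 0 := by
      rw [← hg0, hv1, Pi.zero_apply]
    have hi : ∀ i, i ≠ 0 → v i = 0 := by
      intro i hi
      have h1 := hgi v i hi
      rw [hv1, h0, mul_zero, add_zero, Pi.zero_apply] at h1
      exact h1.symm
    have h2 : l 0 * v 0 = 0 := by
      rw [← h0, Finset.sum_eq_single 0]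
      · intro j _ hj
        rw [hi j hj, mul_zero]
      · intro h
        exact absurd (Finset.mem_univ _) h
    funext i
    by_cases h : i = 0
    · rw [h, Pi.zero_apply]
      exact (mul_eq_zero.1 h2).resolve_left hl0
    · rw [hi i h, Pi.zero_apply]
  have hu : IsUnit g.det := (Matrix.isUnit_iff_isUnit_det g).1 (Matrix.mulVec_injective_iff_isUnit.1 hinj)
  refine ⟨g, g⁻¹, Matrix.mul_nonsing_inv g hu, Matrix.nonsing_inv_mul g hu, ?_, ?_⟩
  · funext i
    by_cases h : i = 0
    · rw [h, hg0, hlv, hq]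
    · rw [hgi v₀ i h, hlv]
      ring
  · intro v hv'
    rw [hg0, hlsum]
    exact mul_ne_zero (inv_ne_zero hc) (hl' v (Or.inl hv'))

/-- CHUNK F05c.  The zeros of an entire function which is not identically zero are countable.
(`AnalyticOnNhd.preimage_zero_mem_codiscrete`, or: the zeros in every closed ball are finite, see
`AnalyticOnNhd...`; a closed discrete subset of `ℂ` is countable.) -/
theorem countable_zeros {h : ℂ → ℂ} (hh : Differentiable ℂ h) (h0 : ∃ z, h z ≠ 0) :
    {z | h z = 0}.Countable := by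
  obtain ⟨z, hz⟩ := h0
  have h1 : AnalyticOnNhd ℂ h Set.univ := fun x _ => hh.analyticAt x
  have h2 : h ⁻¹' {0}ᶜ ∈ Filter.codiscrete ℂ := h1.preimage_zero_mem_codiscrete hz
  have h3 : {z | h z = 0}ᶜ ∈ Filter.codiscreteWithin (Set.univ : Set ℂ) := by
    refine Filter.mem_of_superset h2 ?_
    intro x hx
    exact hx
  refine (HereditarilyLindelofSpace.isLindelof _).countable_of_isDiscrete ?_
  have h4 := isDiscrete_of_codiscreteWithin h3
  rwa [Set.inter_univ] at h4

end Pool.Agent.H53Y
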