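import Pool.Agent.Lib.H53Y.F04
import Pool.Agent.Lib.H53Y.F05
import Pool.Agent.Lib.H53Y.F07
import Pool.Agent.Lib.H78G.D5A
import Pool.Agent.Lib.H78G.D5B

set_option autoImplicit false

/-!
H53Y, chunk F13a (M): the base point on the curve and the frames.
-/

open MvPolynomial Real MeasureTheory

namespace Pool.Agent.H53Y

open Pool.Agent.H89T Pool.Agent.H78G Pool.Agent.H67T

/-- The curve spans a space of dimension `m`: `Lam` is a frame of the linear span of the image of `w`,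
`Lb` its left inverse, and the coordinates `Lb w` are linearly independent. -/
def SpanDim {M : ℕ} (m : ℕ) (w : ℂ → Fin (M + 1) → ℂ) : Prop :=
  ∃ (Lam : Matrix (Fin (M + 1)) (Fin (m + 1)) ℂ) (Lb : Matrix (Fin (m + 1)) (Fin (M + 1)) ℂ),
    Lb * Lam = 1 ∧ (∀ z, Lam.mulVec (Lb.mulVec (w z)) = w z) ∧
    ∀ lam : Fin (m + 1) → ℂ, (∀ z, ∑ j, lam j * Lb.mulVec (w z) j = 0) → lam = 0

/-- CHUNK F13a (M).  Proof.  Choose `Lam₀ s`, `Lb₀ s` from `hL`; `w s z = Lb₀ s (ver (y z))`.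
`wronskian_ne` gives that `Wr (w s)` is not identically zero (`Wr_diff`, entire).  Let `z₀` be a common
point (`exists_common_point`) for the functions `eval (y z) (fmj f j)`, `lin (η t) (ver (y z))`,
`Wr (w s)` and the function `h` of `exists_nonStat`.  Let `Z` be the set of the zeros of the first two
kinds of functions: countable (`countable_zeros`, `Set.countable_iUnion`).
* `A' = g`, `A = g'` of `exists_gl_avoid` for `v₀ = y z₀`, `q = Pi.single 0 1`, `V = y '' Z`.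
* `Lb s = g_s * Lb₀ s`, `Lam s = Lam₀ s * g_s'` where `g_s`, `g_s'` are from `exists_gl_avoid` for
  `v₀ = w s z₀` (not `0`, because `Lam₀ s (w s z₀) = ver (y z₀) ≠ 0`: `norm_ver`),
  `q = Fin.cons 1 (fun b => x (e ⟨some s, b⟩))`, `V = w s '' Z` (all vectors `w s z` are `≠ 0`).
  `Wr_mulVec`: `Wr (Lb s ver) z₀ = det g_s * Wr (w s) z₀ ≠ 0`. -/
theorem exists_frames {n c nt : ℕ} {ιL σ κ : Type} [Finite ιL] [Finite σ] [Finite κ]
    {d : ιL → ℕ} {m de : σ → ℕ} {sx : κ → σ} (e : Co (mO (n + c) m) ≃ Fin nt) (x : Fin nt → ℂ)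
    {y : ℂ → Fin (n + 1) → ℂ} (hy : IsHol y) (hnc : ∃ z w, ∀ c : ℂ, y w ≠ c • y z)
    (f : FV (Fin (n + 1)) d → ℂ) (η : LV (fun t : κ => NV n (de (sx t))) → ℂ)
    (hf : ∀ j, ∃ z, eval (y z) (fmj f j) ≠ 0)
    (hη : ∀ t, ∃ z, lin (fun l => η ⟨t, l⟩) (ver n (de (sx t)) (y z)) ≠ 0)
    (hL : ∀ s, SpanDim (m s) (fun z => ver n (de s) (y z))) :
    ∃ (z₀ : ℂ) (A A' : Matrix (Fin (n + 1)) (Fin (n + 1)) ℂ)
      (Lam : (s : σ) → Matrix (Fin (NV n (de s) + 1)) (Fin (m s + 1)) ℂ)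
      (Lb : (s : σ) → Matrix (Fin (m s + 1)) (Fin (NV n (de s) + 1)) ℂ),
      A * A' = 1 ∧ A' * A = 1 ∧ A'.mulVec (y z₀) = Pi.single 0 1 ∧ NonStat y z₀ ∧
      (∀ s, Lb s * Lam s = 1) ∧
      (∀ s z, (Lam s).mulVec ((Lb s).mulVec (ver n (de s) (y z))) = ver n (de s) (y z)) ∧
      (∀ s, Wr (fun z => (Lb s).mulVec (ver n (de s) (y z))) z₀ ≠ 0) ∧
      (∀ s, (Lb s).mulVec (ver n (de s) (y z₀)) = Fin.cons 1 (fun b => x (e ⟨some s, b⟩))) ∧
      (∀ j, eval (y z₀) (fmj f j) ≠ 0) ∧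
      (∀ t, lin (fun l => η ⟨t, l⟩) (ver n (de (sx t)) (y z₀)) ≠ 0) ∧
      ∀ z, ((∃ j, eval (y z) (fmj f j) = 0) ∨
        ∃ t, lin (fun l => η ⟨t, l⟩) (ver n (de (sx t)) (y z)) = 0) →
      A'.mulVec (y z) 0 ≠ 0 ∧ ∀ s, (Lb s).mulVec (ver n (de s) (y z)) 0 ≠ 0 := by
  choose Lam₀ Lb₀ hinv hspan hind using hL
  have hver : ∀ s, IsHol fun z => ver n (de s) (y z) := fun s => isHol_ver hy (de s)
  have hwd : ∀ s j, Differentiable ℂ fun z => (Lb₀ s).mulVec (ver n (de s) (y z)) j := by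
    intro s j
    show Differentiable ℂ fun z => ∑ l, Lb₀ s j l * ver n (de s) (y z) l
    exact Differentiable.fun_sum fun l _ => ((hver s).diff l).const_mul _
  have hWr : ∀ s, ∃ z, Wr (fun z => (Lb₀ s).mulVec (ver n (de s) (y z))) z ≠ 0 := fun s =>
    wronskian_ne (hwd s) (hind s)
  obtain ⟨h, hhd, hh0, hhN⟩ := exists_nonStat hy hnc
  have hfd : ∀ j, Differentiable ℂ fun z => eval (y z) (fmj f j) := fun j =>
    differentiable_eval hy.diff _
  have hηd : ∀ t : κ, Differentiable ℂ fun z =>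
      lin (fun l => η ⟨t, l⟩) (ver n (de (sx t)) (y z)) := by
    intro t
    unfold lin
    exact Differentiable.fun_sum fun l _ => ((hver (sx t)).diff l).const_mul _
  obtain ⟨z₀, hz₀⟩ := exists_common_point (J := ιL ⊕ κ ⊕ σ ⊕ Unit)
    (Sum.elim (fun j z => eval (y z) (fmj f j))
      (Sum.elim (fun t z => lin (fun l => η ⟨t, l⟩) (ver n (de (sx t)) (y z)))
        (Sum.elim (fun s => Wr (fun z => (Lb₀ s).mulVec (ver n (de s) (y z)))) (fun _ => h))))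
    (by
      rintro (j | t | s | u)
      · exact hfd j
      · exact hηd t
      · exact Wr_diff (hwd s)
      · exact hhd)
    (by
      rintro (j | t | s | u)
      · exact hf j
      · exact hη t
      · exact hWr s
      · exact hh0)
  have hz1 : ∀ j, eval (y z₀) (fmj f j) ≠ 0 := fun j => hz₀ (Sum.inl j)
  have hz2 : ∀ t, lin (fun l => η ⟨t, l⟩) (ver n (de (sx t)) (y z₀)) ≠ 0 := fun t =>
    hz₀ (Sum.inr (Sum.inl t))
  have hz3 : ∀ s, Wr (fun z => (Lb₀ s).mulVec (ver n (de s) (y z))) z₀ ≠ 0 := fun s =>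
    hz₀ (Sum.inr (Sum.inr (Sum.inl s)))
  have hz4 : h z₀ ≠ 0 := hz₀ (Sum.inr (Sum.inr (Sum.inr ())))
  set Z : Set ℂ := {z | (∃ j, eval (y z) (fmj f j) = 0) ∨
    ∃ t, lin (fun l => η ⟨t, l⟩) (ver n (de (sx t)) (y z)) = 0} with hZ
  have hZc : Z.Countable := by
    have h1 : Z = (⋃ j, {z | eval (y z) (fmj f j) = 0}) ∪
        ⋃ t, {z | lin (fun l => η ⟨t, l⟩) (ver n (de (sx t)) (y z)) = 0} := by
      ext z
      rw [Set.mem_union, Set.mem_iUnion, Set.mem_iUnion]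
      exact Iff.rfl
    rw [h1]
    exact (Set.countable_iUnion fun j => countable_zeros (hfd j) (hf j)).union
      (Set.countable_iUnion fun t => countable_zeros (hηd t) (hη t))
  have hw0 : ∀ s z, (Lb₀ s).mulVec (ver n (de s) (y z)) ≠ 0 := by
    intro s z h0
    have h1 := hspan s z
    rw [h0, Matrix.mulVec_zero] at h1
    exact (hver s).ne_zero z h1.symm
  obtain ⟨g, g', hgg', hg'g, hgv, hgV⟩ := exists_gl_avoid (m := n) (v₀ := y z₀)
    (q := Pi.single 0 1) (hy.ne_zero z₀) (Pi.single_eq_same 0 1) (y '' Z) (hZc.image y)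
    (by
      rintro _ ⟨z, _, rfl⟩
      exact hy.ne_zero z)
  have hG : ∀ s, ∃ G G' : Matrix (Fin (m s + 1)) (Fin (m s + 1)) ℂ, G * G' = 1 ∧ G' * G = 1 ∧
      G.mulVec ((Lb₀ s).mulVec (ver n (de s) (y z₀))) =
        Fin.cons 1 (fun b => x (e ⟨some s, b⟩)) ∧
      ∀ v ∈ (fun z => (Lb₀ s).mulVec (ver n (de s) (y z))) '' Z, G.mulVec v 0 ≠ 0 := fun s =>
    exists_gl_avoid (m := m s) (v₀ := (Lb₀ s).mulVec (ver n (de s) (y z₀)))
      (q := Fin.cons 1 (fun b => x (e ⟨some s, b⟩))) (hw0 s z₀) rfl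
      ((fun z => (Lb₀ s).mulVec (ver n (de s) (y z))) '' Z) (hZc.image _)
      (by
        rintro _ ⟨z, _, rfl⟩
        exact hw0 s z)
  choose G G' hGG' hG'G hGv hGV using hG
  refine ⟨z₀, g', g, fun s => Lam₀ s * G' s, fun s => G s * Lb₀ s, hg'g, hgg', hgv, hhN z₀ hz4,
    ?_, ?_, ?_, ?_, hz1, hz2, ?_⟩
  · intro s
    calc G s * Lb₀ s * (Lam₀ s * G' s) = G s * (Lb₀ s * Lam₀ s) * G' s := by
          simp only [Matrix.mul_assoc]
      _ = 1 := by rw [hinv s, Matrix.mul_one, hGG' s]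
  · intro s z
    have h1 : (Lam₀ s * G' s).mulVec ((G s * Lb₀ s).mulVec (ver n (de s) (y z))) =
        (Lam₀ s).mulVec ((G' s * G s).mulVec ((Lb₀ s).mulVec (ver n (de s) (y z)))) := by
      simp only [Matrix.mulVec_mulVec, Matrix.mul_assoc]
    rw [h1, hG'G s, Matrix.one_mulVec, hspan s z]
  · intro s
    have h1 : (fun z => (G s * Lb₀ s).mulVec (ver n (de s) (y z))) =
        fun z => (G s).mulVec ((Lb₀ s).mulVec (ver n (de s) (y z))) := by
      funext z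
      rw [Matrix.mulVec_mulVec]
    show Wr (fun z => (G s * Lb₀ s).mulVec (ver n (de s) (y z))) z₀ ≠ 0
    rw [h1, Wr_mulVec (hwd s) (G s) z₀]
    refine mul_ne_zero ?_ (hz3 s)
    intro h2
    have h3 := congrArg Matrix.det (hGG' s)
    rw [Matrix.det_mul, h2, zero_mul, Matrix.det_one] at h3
    exact zero_ne_one h3
  · intro s
    show (G s * Lb₀ s).mulVec (ver n (de s) (y z₀)) = _
    rw [← Matrix.mulVec_mulVec]
    exact hGv s
  · intro z hz
    refine ⟨hgV (y z) ⟨z, hz, rfl⟩, fun s => ?_⟩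
    show (G s * Lb₀ s).mulVec (ver n (de s) (y z)) 0 ≠ 0
    rw [← Matrix.mulVec_mulVec]
    exact hGV s _ ⟨z, hz, rfl⟩

end Pool.Agent.H53Y
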