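import Pool.Agent.Lib.H53Y.F13b
import Pool.Agent.Lib.H78G.F1A

set_option autoImplicit false

/-!
H53Y, chunk F14 (M, six lemmas): the large forms and the small forms of frequent degrees.
-/

open MvPolynomial Real MeasureTheory

namespace Pool.Agent.H53Y

open Pool.Agent.H89T Pool.Agent.H78G Pool.Agent.H67T

section

variable {ι : Type} (d : ι → ℕ) (E₀ K : ℕ)

/-- The large forms. -/
abbrev IL : Type := {i : ι // E₀ < d i}

/-- The small forms whose degree occurs at least `K` times. -/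
abbrev IS : Type := {i : ι // (1 ≤ d i ∧ d i ≤ E₀) ∧ K ≤ Nat.card {i' : ι // d i' = d i}}

/-- The block of a small form. -/
def sxS (t : IS d E₀ K) : Fin E₀ := ⟨d t.1 - 1, by have := t.2.1; omega⟩

/-- The degrees of the blocks. -/
def deS (E₀ : ℕ) (s : Fin E₀) : ℕ := (s : ℕ) + 1

theorem deS_sxS (t : IS d E₀ K) : deS E₀ (sxS d E₀ K t) = d t.1 := by
  have := t.2.1
  show d t.1 - 1 + 1 = d t.1
  omega

/-- CHUNK F14a.  Every block which occurs has at least `K` forms.  Proof: if `sxS t₀ = s` then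
`i ↦ ⟨i, _⟩` is a bijection of `{i // d i = d t₀.1}` with `{t // sxS t = s}` (injection from the first
to the second type is enough, `Nat.card_le_card_of_injective`). -/
theorem card_block [Finite ι] (s : Fin E₀) (h : ∃ t, sxS d E₀ K t = s) :
    K ≤ Nat.card {t : IS d E₀ K // sxS d E₀ K t = s} := by
  obtain ⟨t₀, ht₀⟩ := h
  refine t₀.2.2.trans ?_
  have hval : ∀ t : IS d E₀ K, (sxS d E₀ K t : ℕ) + 1 = d t.1 := fun t => deS_sxS d E₀ K t
  have hF : ∀ i : {i' : ι // d i' = d t₀.1}, (1 ≤ d i.1 ∧ d i.1 ≤ E₀) ∧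
      K ≤ Nat.card {i' : ι // d i' = d i.1} := by
    intro i
    rw [i.2]
    exact t₀.2
  refine Nat.card_le_card_of_injective (fun i : {i' : ι // d i' = d t₀.1} =>
    (⟨⟨i.1, hF i⟩, ?_⟩ : {t : IS d E₀ K // sxS d E₀ K t = s})) ?_
  · rw [← ht₀]
    apply Fin.ext
    have h1 := hval ⟨i.1, hF i⟩
    have h2 := hval t₀
    have h3 := i.2
    simp only at h1
    omega
  · intro i j hij
    have h1 := congrArg (fun t : {t : IS d E₀ K // sxS d E₀ K t = s} => t.1.1) hij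
    exact Subtype.ext h1

/-- CHUNK F14b.  Proof: the two types are disjoint subtypes of `ι`. -/
theorem degree_le [Fintype ι] [Fintype (IL d E₀)] [Fintype (IS d E₀ K)] :
    ∑ j : IL d E₀, d j.1 + ∑ t : IS d E₀ K, deS E₀ (sxS d E₀ K t) ≤ ∑ i, d i := by
  classical
  rw [Finset.sum_congr rfl fun t _ => deS_sxS d E₀ K t]
  rw [← Finset.sum_subtype (Finset.univ.filter fun i => E₀ < d i) (by simp) d,
    ← Finset.sum_subtype (Finset.univ.filter fun i => (1 ≤ d i ∧ d i ≤ E₀) ∧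
      K ≤ Nat.card {i' : ι // d i' = d i}) (by simp) d, ← Finset.sum_union]
  · exact Finset.sum_le_sum_of_subset (Finset.subset_univ _)
  · rw [Finset.disjoint_left]
    intro i hi hi'
    rw [Finset.mem_filter] at hi hi'
    omega

/-- CHUNK F14c.  Proof: the forms which are not in `IL` and not in `IS` have `1 ≤ d i ≤ E₀` and fewer
than `K` forms of the same degree: for each of the degrees `1, ..., E₀` at most `K` forms of degree at
most `E₀`. -/
theorem degree_ge [Fintype ι] [Fintype (IL d E₀)] [Fintype (IS d E₀ K)] (hd : ∀ i, 1 ≤ d i) :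
    ∑ i, d i ≤ ∑ j : IL d E₀, d j.1 + ∑ t : IS d E₀ K, deS E₀ (sxS d E₀ K t) +
      E₀ * (E₀ * K) := by
  classical
  rw [Finset.sum_congr rfl fun t _ => deS_sxS d E₀ K t]
  rw [← Finset.sum_subtype (Finset.univ.filter fun i => E₀ < d i) (by simp) d,
    ← Finset.sum_subtype (Finset.univ.filter fun i => (1 ≤ d i ∧ d i ≤ E₀) ∧
      K ≤ Nat.card {i' : ι // d i' = d i}) (by simp) d, ← Finset.sum_union]
  · set A := (Finset.univ.filter fun i => E₀ < d i) ∪
      (Finset.univ.filter fun i => (1 ≤ d i ∧ d i ≤ E₀) ∧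
      K ≤ Nat.card {i' : ι // d i' = d i}) with hA
    have h1 : ∑ i, d i = ∑ i ∈ A, d i + ∑ i ∈ Aᶜ, d i := (Finset.sum_add_sum_compl A d).symm
    rw [h1]
    refine Nat.add_le_add_left ?_ _
    have hmem : ∀ i ∈ Aᶜ, 1 ≤ d i ∧ d i ≤ E₀ ∧ Nat.card {i' : ι // d i' = d i} < K := by
      intro i hi
      rw [Finset.mem_compl, hA, Finset.mem_union, Finset.mem_filter, Finset.mem_filter] at hi
      push Not at hi
      have h2 := hi.1 (Finset.mem_univ _)
      have h3 := hi.2 (Finset.mem_univ _) ⟨hd i, h2⟩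
      exact ⟨hd i, h2, h3⟩
    rw [← Finset.sum_fiberwise_of_maps_to (s := Aᶜ) (t := Finset.Icc 1 E₀) (g := d)
      (fun i hi => Finset.mem_Icc.2 ⟨(hmem i hi).1, (hmem i hi).2.1⟩)]
    have h4 : ∀ e ∈ Finset.Icc 1 E₀, ∑ i ∈ Aᶜ.filter (fun i => d i = e), d i ≤ E₀ * K := by
      intro e he
      rw [Finset.mem_Icc] at he
      by_cases hne : (Aᶜ.filter (fun i => d i = e)).Nonempty
      · obtain ⟨i₀, hi₀⟩ := hne
        rw [Finset.mem_filter] at hi₀
        have h5 := (hmem i₀ hi₀.1).2.2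
        have h6 : (Aᶜ.filter (fun i => d i = e)).card ≤ Nat.card {i' : ι // d i' = d i₀} := by
          rw [Nat.card_eq_fintype_card, Fintype.card_subtype]
          refine Finset.card_le_card fun i hi => ?_
          rw [Finset.mem_filter] at hi ⊢
          exact ⟨Finset.mem_univ _, hi.2.trans hi₀.2.symm⟩
        calc ∑ i ∈ Aᶜ.filter (fun i => d i = e), d i
            ≤ ∑ i ∈ Aᶜ.filter (fun i => d i = e), E₀ := by
              refine Finset.sum_le_sum fun i hi => ?_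
              rw [Finset.mem_filter] at hi
              exact (hmem i hi.1).2.1
          _ = (Aᶜ.filter (fun i => d i = e)).card * E₀ := by rw [Finset.sum_const, smul_eq_mul]
          _ ≤ K * E₀ := Nat.mul_le_mul_right _ (h6.trans h5.le)
          _ = E₀ * K := Nat.mul_comm _ _
      · rw [Finset.not_nonempty_iff_eq_empty] at hne
        rw [hne, Finset.sum_empty]
        exact Nat.zero_le _
    refine (Finset.sum_le_sum h4).trans ?_
    rw [Finset.sum_const, smul_eq_mul, Nat.card_Icc, Nat.add_sub_cancel]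
  · rw [Finset.disjoint_left]
    intro i hi hi'
    rw [Finset.mem_filter] at hi hi'
    omega

variable (n : ℕ)

/-- The variables of the large and of the small forms as variables of all forms. -/
noncomputable def phS : FV (Fin (n + 1)) (fun j : IL d E₀ => d j.1) ⊕
    LV (fun t : IS d E₀ K => NV n (deS E₀ (sxS d E₀ K t))) → FV (Fin (n + 1)) d
  | Sum.inl p => ⟨p.1.1, p.2⟩
  | Sum.inr p => ⟨p.1.1, ⟨(vix n _ p.2).1, by rw [← deS_sxS d E₀ K p.1]; exact (vix n _ p.2).2⟩⟩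

/-- CHUNK F14d.  Proof: the index of `ι` is `> E₀` for `inl` and `≤ E₀` for `inr`; `vix` is a bijection. -/
theorem phS_injective : Function.Injective (phS d E₀ K n) := by
  have hfst : ∀ {p q : FV (Fin (n + 1)) d}, p = q → p.1 = q.1 := fun h => by rw [h]
  rintro (⟨⟨i, hi⟩, a⟩ | ⟨⟨i, hi⟩, l⟩) (⟨⟨i', hi'⟩, a'⟩ | ⟨⟨i', hi'⟩, l'⟩) h
  · have h1 : i = i' := hfst h
    subst h1
    have h2 : a = a' := eq_of_heq (Sigma.mk.inj_iff.1 h).2
    rw [h2]
  · have h1 : i = i' := hfst h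
    subst h1
    exact absurd hi'.1.2 (by omega)
  · have h1 : i = i' := hfst h
    subst h1
    exact absurd hi.1.2 (by omega)
  · have h1 : i = i' := hfst h
    subst h1
    have h2 := congrArg Subtype.val (eq_of_heq (Sigma.mk.inj_iff.1 h).2)
    have h3 : l = l' := (vix n _).injective (Subtype.ext h2)
    rw [h3]

/-- CHUNK F14e. -/
theorem fmj_phS (f : FV (Fin (n + 1)) d → ℂ) (j : IL d E₀) :
    fmj (fun p => f (phS d E₀ K n (Sum.inl p))) j = fmj f j.1 := rfl

/-- CHUNK F14f.  Proof: `f (phS (inr ⟨t, l⟩)) = vco n _ (fmj f t.1) l` (`coeff_fm` of H89T) and `lin_vco` for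
the form `fmj f t.1` of degree `d t.1 = deS E₀ (sxS t)`. -/
theorem lin_phS (f : FV (Fin (n + 1)) d → ℂ) (t : IS d E₀ K) (v : Fin (n + 1) → ℂ) :
    lin (fun l => f (phS d E₀ K n (Sum.inr ⟨t, l⟩))) (ver n (deS E₀ (sxS d E₀ K t)) v) =
      eval v (fmj f t.1) := by
  have hF : (fmj f t.1).IsHomogeneous (deS E₀ (sxS d E₀ K t)) := by
    rw [deS_sxS]
    exact fm_homogeneous _
  rw [← lin_vco hF v]
  unfold lin
  refine Finset.sum_congr rfl fun l _ => ?_
  have h1 := coeff_fm (fun δ : Ex (Fin (n + 1)) (d t.1) => f ⟨t.1, δ⟩)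
    ⟨(vix n _ l).1, by rw [← deS_sxS d E₀ K t]; exact (vix n _ l).2⟩
  exact congrArg (· * ver n (deS E₀ (sxS d E₀ K t)) v l) h1.symm

end

/-- CHUNK F14g.  Proof: `H78G.N1_mono` (`f1b_prod` for the products, `differentiable_eval`). -/
theorem N1_kept {n : ℕ} {ι : Type} [Fintype ι] {d : ι → ℕ} {y : ℂ → Fin (n + 1) → ℂ} (hy : IsHol y)
    (f : FV (Fin (n + 1)) d → ℂ) (hf : ∀ i, ∃ z, eval (y z) (fmj f i) ≠ 0)
    (P Q : ι → Prop) [Fintype {i // P i}] [Fintype {i // Q i}] {ρ : ℝ} (hρ : 1 ≤ ρ) :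
    N1 (fun z => (∏ j : {i // P i}, eval (y z) (fmj f j.1)) *
        ∏ t : {i // Q i}, eval (y z) (fmj f t.1)) ρ ≤
      N1 (fun z => ∏ i, eval (y z) (fmj f i)) ρ := by
  have hd1 : ∀ i, Differentiable ℂ fun z => eval (y z) (fmj f i) := fun i =>
    differentiable_eval hy.diff _
  have hP : Differentiable ℂ fun z => ∏ j : {i // P i}, eval (y z) (fmj f j.1) :=
    Differentiable.fun_finsetProd fun j _ => hd1 j.1
  have hQ : Differentiable ℂ fun z => ∏ t : {i // Q i}, eval (y z) (fmj f t.1) :=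
    Differentiable.fun_finsetProd fun j _ => hd1 j.1
  have hP0 : ∃ z, (∏ j : {i // P i}, eval (y z) (fmj f j.1)) ≠ 0 :=
    f1b_prod (f := fun (j : {i // P i}) z => eval (y z) (fmj f j.1)) Finset.univ
      (fun j => hd1 j.1) fun j => hf j.1
  have hQ0 : ∃ z, (∏ j : {i // Q i}, eval (y z) (fmj f j.1)) ≠ 0 :=
    f1b_prod (f := fun (j : {i // Q i}) z => eval (y z) (fmj f j.1)) Finset.univ
      (fun j => hd1 j.1) fun j => hf j.1
  refine N1_mono (hP.fun_mul hQ) (f1b_mul hP hQ hP0 hQ0)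
    (Differentiable.fun_finsetProd fun j _ => hd1 j)
    (f1b_prod (f := fun i z => eval (y z) (fmj f i)) Finset.univ hd1 hf) (fun z hz => ?_) hρ
  rcases mul_eq_zero.1 hz with h | h
  · obtain ⟨j, -, hj⟩ := Finset.prod_eq_zero_iff.1 h
    exact Finset.prod_eq_zero (Finset.mem_univ j.1) hj
  · obtain ⟨j, -, hj⟩ := Finset.prod_eq_zero_iff.1 h
    exact Finset.prod_eq_zero (Finset.mem_univ j.1) hj

/-- CHUNK F14h.  A constant multiple: `chi y ρ ≥ - K` for `ρ ≥ 1` (`chi_mono`), `a ≤ b` gives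
`a chi ≤ b chi + (b - a) K`, and `(b - a) K ≤ C log ρ` for `ρ ≥ 2`. -/
theorem smt_mono {n : ℕ} {y : ℂ → Fin (n + 1) → ℂ} (hy : IsHol y) {a b : ℝ} (hab : a ≤ b)
    {N N' : ℝ → ℝ} (hN : ∀ ρ, 1 ≤ ρ → N ρ ≤ N' ρ)
    (h : ∃ (C : ℝ) (E : Set ℝ), volume E < ⊤ ∧ ∀ ρ : ℝ, 2 ≤ ρ → ρ ∉ E →
      b * chi y ρ ≤ N ρ + C * log ρ) :
    ∃ (C : ℝ) (E : Set ℝ), volume E < ⊤ ∧ ∀ ρ : ℝ, 2 ≤ ρ → ρ ∉ E →
      a * chi y ρ ≤ N' ρ + C * log ρ := by
  obtain ⟨C, E, hE, hC⟩ := h
  have hl2 : 0 < log 2 := Real.log_pos one_lt_two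
  refine ⟨C + (b - a) * |chi y 1| / log 2, E, hE, fun ρ hρ hρE => ?_⟩
  have h1 := hC ρ hρ hρE
  have h2 : chi y 1 ≤ chi y ρ := chi_mono hy one_pos (by linarith)
  have h3 : -|chi y 1| ≤ chi y ρ := (neg_abs_le _).trans h2
  have h4 : 0 ≤ b - a := sub_nonneg.2 hab
  have h5 : (b - a) * |chi y 1| ≤ (b - a) * |chi y 1| / log 2 * log ρ := by
    rw [div_mul_eq_mul_div, le_div_iff₀ hl2]
    exact mul_le_mul_of_nonneg_left (Real.log_le_log two_pos hρ)
      (mul_nonneg h4 (abs_nonneg _))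
  have h6 : (b - a) * (-|chi y 1|) ≤ (b - a) * chi y ρ := mul_le_mul_of_nonneg_left h3 h4
  have h7 := hN ρ (by linarith)
  have h8 : (C + (b - a) * |chi y 1| / log 2) * log ρ =
      C * log ρ + (b - a) * |chi y 1| / log 2 * log ρ := by ring
  rw [h8]
  nlinarith

end Pool.Agent.H53Y
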