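import Pool.Agent.Lib.H53Y.IDE
import Pool.Agent.Lib.H89T.DP9
import Pool.Agent.Lib.H78G.F4A
import Pool.Agent.Lib.H78G.F1B

set_option autoImplicit false

/-!
H53Y, Part F (assembly): definitions.  See PROOF.md.
-/

open MvPolynomial Real MeasureTheory

namespace Pool.Agent.H53Y

open Pool.Agent.H89T Pool.Agent.H78G Pool.Agent.H67T

/-- `NV n e + 1` is the number of the monomials of degree `e` in `n + 1` variables. -/
def NV (n e : ℕ) : ℕ := Fintype.card (Ex (Fin (n + 1)) e) - 1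

theorem NV_add_one (n e : ℕ) : NV n e + 1 = Fintype.card (Ex (Fin (n + 1)) e) := by
  have h : 0 < Fintype.card (Ex (Fin (n + 1)) e) :=
    Fintype.card_pos_iff.2 ⟨⟨Finsupp.single 0 e, by rw [mem_Ex, Finsupp.degree_single]⟩⟩
  rw [NV]
  omega

/-- A numbering of the monomials of degree `e` in `n + 1` variables. -/
noncomputable def vix (n e : ℕ) : Fin (NV n e + 1) ≃ Ex (Fin (n + 1)) e :=
  (Fintype.equivFinOfCardEq (NV_add_one n e).symm).symm

/-- The Veronese map of degree `e`. -/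
noncomputable def ver (n e : ℕ) (x : Fin (n + 1) → ℂ) (l : Fin (NV n e + 1)) : ℂ :=
  ∏ i, x i ^ (vix n e l).1 i

/-- The vector of the coefficients of a form of degree `e`. -/
noncomputable def vco (n e : ℕ) (F : MvPolynomial (Fin (n + 1)) ℂ) (l : Fin (NV n e + 1)) : ℂ :=
  coeff (vix n e l).1 F

/-- The dimensions of the blocks: `none` is the large block. -/
def mO {σ : Type} (N : ℕ) (m : σ → ℕ) : Option σ → ℕ
  | none => N
  | some s => m s

/-- The blocks of the factors. -/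
def sbO {ιL κ σ : Type} (sx : κ → σ) : ιL ⊕ κ → Option σ
  | Sum.inl _ => none
  | Sum.inr x => some (sx x)

/-- The degrees of the factors. -/
def dgO {ιL κ : Type} (d : ιL → ℕ) : ιL ⊕ κ → ℕ
  | Sum.inl j => d j
  | Sum.inr _ => 1

/-- The linear form with coefficients `v`. -/
noncomputable def linF {M : ℕ} (v : Fin (M + 1) → ℂ) : MvPolynomial (Fin (M + 1)) ℂ :=
  ∑ b, C (v b) * X b

/-- The factors. -/
noncomputable def FO {ιL κ σ : Type} {N : ℕ} {m : σ → ℕ} {sx : κ → σ}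
    (G : ιL → MvPolynomial (Fin (N + 1)) ℂ) (θ : LV (fun x : κ => m (sx x)) → ℂ) :
    (i : ιL ⊕ κ) → MvPolynomial (Fin (mO N m (sbO sx i) + 1)) ℂ
  | Sum.inl j => G j
  | Sum.inr x => linF (fun b => θ ⟨x, b⟩)

/-- The coefficient vectors of the factors of the small block `s`. -/
noncomputable def thO {ιL κ σ : Type} {N : ℕ} {m : σ → ℕ} {sx : κ → σ}
    (G : ιL → MvPolynomial (Fin (N + 1)) ℂ) (θ : LV (fun x : κ => m (sx x)) → ℂ) (s : σ)
    (y : {i : ιL ⊕ κ // sbO sx i = some s}) : Fin (m s + 1) → ℂ :=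
  fun b => coeff (Finsupp.single (Fin.cast (by rw [y.2]; rfl) b) 1)
    (FO (N := N) (m := m) (sx := sx) G θ y.1)

/-- The bijection of the coordinates. -/
def eqc (n c : ℕ) : Fin (n + 1) ⊕ Fin c ≃ Fin (n + c + 1) :=
  finSumFinEquiv.trans (finCongr (by omega))

/-- The form `G` of the block, moved: its value at `(u 0, u' )` is the value of the form with
coefficients `g` at `(u 0, u' - x u 0)`. -/
noncomputable def mvF {ιL : Type} {n c : ℕ} {d : ιL → ℕ} (x : Fin (n + c) → ℂ)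
    (g : FV (Fin (n + 1) ⊕ Fin c) d → ℂ) (j : ιL) : MvPolynomial (Fin (n + c + 1)) ℂ :=
  shear (fun b => - x b) (rename (eqc n c) (fmj g j))

/-- The coefficients of all factors in the charts `0`. -/
noncomputable def aO {ιL κ σ : Type} {n c : ℕ} {m : σ → ℕ} {sx : κ → σ} {d : ιL → ℕ}
    (x : Fin (n + c) → ℂ) (g : FV (Fin (n + 1) ⊕ Fin c) d → ℂ)
    (θ : LV (fun y : κ => m (sx y)) → ℂ) :
    Cf (mO (n + c) m) (sbO (ιL := ιL) sx) (dgO (κ := κ) d) → ℂ :=
  fun y => cfF (dgO d y.1) 0 (FO (N := n + c) (m := m) (sx := sx) (fun j => mvF x g j) θ y.1) y.2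

/-- The base point in the chart `c`. -/
noncomputable def bpt {N : ℕ} (x : Fin N → ℂ) (c : Fin (N + 1)) (b : Fin N) : ℂ :=
  (Fin.cons 1 x : Fin (N + 1) → ℂ) (c.succAbove b) / (Fin.cons 1 x : Fin (N + 1) → ℂ) c

/-- The curve is not stationary at `z`. -/
def NonStat {N : ℕ} (y : ℂ → Fin N → ℂ) (z : ℂ) : Prop :=
  ¬ ∃ t : ℂ, (fun i => deriv (fun w => y w i) z) = t • y z

/-- The curve in the large block: `Y = (y', - s y')` in the coordinates `eqc`, moved by `x`. -/
noncomputable def crv {n c : ℕ} (x : Fin (n + c) → ℂ) (s : Fin c → Fin n → ℂ)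
    (y : ℂ → Fin (n + 1) → ℂ) (z : ℂ) : Fin (n + c + 1) → ℂ :=
  let Y : Fin (n + c + 1) → ℂ := fun i =>
    Sum.elim (y z) (fun j => - ∑ b, s j b * y z (Fin.succ b)) ((eqc n c).symm i)
  Fin.cons (Y 0) fun b => Y b.succ + x b * Y 0

end Pool.Agent.H53Y
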