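import Pool.Agent.Lib.H53Y.ST
import Pool.Agent.Lib.H89T.DP6

set_option autoImplicit false

/-!
H53Y, T1: from the coefficients to tuples of forms.
-/

open MvPolynomial Real MeasureTheory

namespace Pool.Agent.H53Y

open Pool.Agent.H89T Pool.Agent.H78G Pool.Agent.H67T

/-- The coefficients of the forms `F`. -/
theorem t1_fmj {n : ℕ} {ι : Type} {d : ι → ℕ} {F : ι → MvPolynomial (Fin (n + 1)) ℂ}
    (hF : ∀ j, (F j).IsHomogeneous (d j)) (i : ι) :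
    fmj (fun p : FV (Fin (n + 1)) d => coeff p.2.1 (F p.1)) i = F i := by
  unfold fmj
  have h := fm_coeff (hF i)
  exact h

/-- The second main theorem for generic tuples of forms of all types. -/
theorem types_generic (hst : SmtTypes) (n : ℕ) (hn : 1 ≤ n) (ε : ℝ) (hε : 0 < ε) (hε1 : ε ≤ 1) :
    ∃ D₀ : ℕ, ∀ (q : ℕ) (d : Fin q → ℕ), (∀ i, 1 ≤ d i) → D₀ ≤ ∑ i, d i →
      ∃ Θ : MvPolynomial (Fin q × (Fin (n + 1) →₀ ℕ)) ℂ,
        (∃ F : Fin q → MvPolynomial (Fin (n + 1)) ℂ, (∀ j, (F j).IsHomogeneous (d j)) ∧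
          eval (fun p => coeff p.2 (F p.1)) Θ ≠ 0) ∧
        ∀ F : Fin q → MvPolynomial (Fin (n + 1)) ℂ, (∀ j, (F j).IsHomogeneous (d j)) →
          eval (fun p => coeff p.2 (F p.1)) Θ ≠ 0 →
          ∀ y : ℂ → Fin (n + 1) → ℂ, IsHol y → (∃ z w, ∀ c : ℂ, y w ≠ c • y z) →
            (∀ i, ∃ z, eval (y z) (F i) ≠ 0) →
            ∃ (C : ℝ) (E : Set ℝ), volume E < ⊤ ∧ ∀ ρ : ℝ, 2 ≤ ρ → ρ ∉ E →
              (1 - ε) * (∑ i, d i : ℕ) * chi y ρ ≤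
                N1 (fun z => ∏ i, eval (y z) (F i)) ρ + C * log ρ := by
  obtain ⟨D₀, h⟩ := hst n hn ε hε hε1
  refine ⟨D₀, fun q d hd hD => ?_⟩
  obtain ⟨Ξ, hΞ, h1⟩ := h (Fin q) d hd hD
  refine ⟨rename (fun p : FV (Fin (n + 1)) d => (p.1, p.2.1)) Ξ, ?_, ?_⟩
  · obtain ⟨f₀, hf₀⟩ : ∃ f₀, eval f₀ Ξ ≠ 0 := by
      by_contra hcon
      push Not at hcon
      exact hΞ (MvPolynomial.funext fun x => by rw [hcon x, map_zero])
    refine ⟨fun j => fmj f₀ j, fun j => fm_homogeneous _, ?_⟩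
    rw [eval_rename]
    have h2 : ((fun p : Fin q × (Fin (n + 1) →₀ ℕ) => coeff p.2 (fmj f₀ p.1)) ∘
        fun p : FV (Fin (n + 1)) d => (p.1, p.2.1)) = f₀ := by
      funext p
      exact coeff_fm _ p.2
    rw [h2]
    exact hf₀
  · intro F hF hF0 y hy hnc hy0
    rw [eval_rename] at hF0
    have h3 := h1 _ hF0 y hy hnc
    have h4 : ∀ i, fmj ((fun p : Fin q × (Fin (n + 1) →₀ ℕ) => coeff p.2 (F p.1)) ∘
        fun p : FV (Fin (n + 1)) d => (p.1, p.2.1)) i = F i := fun i => t1_fmj hF i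
    simp only [h4] at h3
    exact h3 hy0

end Pool.Agent.H53Y
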