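import Pool.Agent.Lib.H53Y.T1
import Pool.Agent.Lib.H53L.Cov

set_option autoImplicit false

/-!
Entire curves in varieties with a finite morphism to projective space which is weakly ramified over
the union of generic hypersurfaces, for all types of large total degree.
-/

open MvPolynomial Real MeasureTheory

namespace Pool.Agent.H53Y.AllTypes

/-- `P` holds for all `q`-tuples of forms of degrees `d 0, ..., d (q - 1)` in `n + 1` variables
outside a proper algebraic subset: there is a polynomial `Θ` in the coefficients, not vanishing at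
all these tuples, such that `P` holds for the tuples at which `Θ` does not vanish. -/
def ForGenericForms (n : ℕ) {q : ℕ} (d : Fin q → ℕ)
    (P : (Fin q → MvPolynomial (Fin (n + 1)) ℂ) → Prop) : Prop :=
  ∃ Θ : MvPolynomial (Fin q × (Fin (n + 1) →₀ ℕ)) ℂ,
    (∃ F : Fin q → MvPolynomial (Fin (n + 1)) ℂ, (∀ j, (F j).IsHomogeneous (d j)) ∧
      eval (fun p => coeff p.2 (F p.1)) Θ ≠ 0) ∧
    ∀ F : Fin q → MvPolynomial (Fin (n + 1)) ℂ, (∀ j, (F j).IsHomogeneous (d j)) →
      eval (fun p => coeff p.2 (F p.1)) Θ ≠ 0 → P F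

/-- The action of `ℂˣ` with weights `w`. -/
def action {m : ℕ} (w : Fin m → ℕ) (t : ℂ) (x : Fin m → ℂ) : Fin m → ℂ :=
  fun i => t ^ w i * x i

/-- The cone without its vertex over the closed subset defined by `J`. -/
def cone {m : ℕ} (J : Ideal (MvPolynomial (Fin m) ℂ)) : Set (Fin m → ℂ) :=
  {x | x ≠ 0 ∧ ∀ F ∈ J, eval x F = 0}

/-- `J` is the ideal of a projective variety `X = cone J / ℂˣ` in a weighted projective space,
on whose cone `ℂˣ` acts freely. (Any projective variety in projective space: all weights `1`.) -/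
structure IsWeightedProjective {m : ℕ} (w : Fin m → ℕ) (J : Ideal (MvPolynomial (Fin m) ℂ)) :
    Prop where
  weights : ∀ i, 1 ≤ w i
  prime : J.IsPrime
  homogeneous : ∀ F ∈ J, ∀ d, weightedHomogeneousComponent w d F ∈ J
  nonempty : (cone J).Nonempty
  free : ∀ x ∈ cone J, ∀ t : ℂ, action w t x = x → t = 1

/-- The forms `f j` of degree `D ≥ 1` have no common zero on `X`, i.e. they define a finite
morphism from `X` to `ℙⁿ` (`X` may have any dimension at most `n`). -/
structure IsFiniteMorphism {m n : ℕ} (w : Fin m → ℕ) (J : Ideal (MvPolynomial (Fin m) ℂ))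
    (D : ℕ) (f : Fin (n + 1) → MvPolynomial (Fin m) ℂ) : Prop where
  pos : 1 ≤ D
  homogeneous : ∀ j, (f j).IsWeightedHomogeneous w D
  base_point_free : ∀ x ∈ cone J, ∃ j, eval x (f j) ≠ 0

/-- In the local ring at `x` of the cone over `X`, the form `R` lies in the `a`-th power of the
maximal ideal. -/
def MultiplicityAtLeast {m : ℕ} (J : Ideal (MvPolynomial (Fin m) ℂ)) (x : Fin m → ℂ) (a : ℕ)
    (R : MvPolynomial (Fin m) ℂ) : Prop :=
  ∃ S : MvPolynomial (Fin m) ℂ, eval x S ≠ 0 ∧ S * R ∈ J ⊔ RingHom.ker (eval x) ^ a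

/-- `u` gives an entire curve in `X / ℂˣ`: a nonconstant holomorphic map from `ℂ`. (The action on
`X` is free, so all entire curves lift to `X`.) -/
structure IsEntireCurve {m : ℕ} (w : Fin m → ℕ) (X : Set (Fin m → ℂ)) (u : ℂ → Fin m → ℂ) :
    Prop where
  holomorphic : ∀ i, Differentiable ℂ fun z => u z i
  mem : ∀ z, u z ∈ X
  nonconstant : ∃ z z', ∀ t : ℂ, u z' ≠ action w t (u z)

/-- A proper closed subset of `X / ℂˣ` contains all entire curves. -/
def PseudoBrody {m : ℕ} (w : Fin m → ℕ) (X : Set (Fin m → ℂ)) : Prop :=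
  ∃ T : Set (MvPolynomial (Fin m) ℂ), (∀ g ∈ T, ∃ d, g.IsWeightedHomogeneous w d) ∧
    (∃ x ∈ X, ∃ g ∈ T, eval x g ≠ 0) ∧
    ∀ u, IsEntireCurve w X u → ∀ z, ∀ g ∈ T, eval (u z) g = 0

/-- For `n ≥ 1` and `0 < ε < 1` there is a `D₀` such that the following holds for all types
`(d_1, ..., d_q)`, `d_i ≥ 1`, of total degree `d = d_1 + ... + d_q ≥ D₀`, and the generic tuple
`(F_1, ..., F_q)` of forms of degrees `d_i` in `n + 1` variables.  Let `f : X → ℙⁿ` be any finite morphism
from a projective variety, given by forms of degree `D`, and let `R` be a form on `X` of degree at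
most `e (1 - ε) d D`, `e ≥ 1`, not vanishing identically on `X`.

(1) All entire curves `u` in `X` for which `R (u)` vanishes to order at least `e` at all points where
`u` meets one of the `F_i (f) = 0` lie in `R = 0` (at points where `u` meets several of them, too,
only order `e` is required).

(2) Hence, if `R` has multiplicity at least `e` at all points of `X` over the union of the `F_i = 0`
(over their intersections, too, only `e` is required), then all entire curves in `X` lie in `R = 0`,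
and `X` is pseudo-Brody hyperbolic.

Examples.  For (1): `X = ℙⁿ`, `R = 1`, `e = 1`: there is no entire curve in the complement of the union of
the `F_i = 0`; `X = ℙⁿ`, `R = ∏ F_i`, `e ≥ 2`, `ε < 1 - 1 / e`: all entire curves which meet the divisor
`∏ F_i = 0` with multiplicities at least `e` only lie in one of the `F_i = 0`.  For (2): `R = z` for the
cyclic covers `z ^ e = ∏ F_i` (`e ≥ 2`, `e ∣ d`, in particular the double covers `z ^ 2 = ∏ F_i`) of
all projective varieties in `ℙⁿ` contained in none of the `F_i = 0`; `R = z A` for the hypersurfaces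
`z ^ e A = ∏ F_i` of degree `d` in `ℙⁿ⁺¹`, `e ≥ 1 + ε d`, `A` any form in the coordinates of `ℙⁿ` and `z`
which is monic in `z`.

The proof rests on a second main theorem, `second_main_types` in `Lib/H53Y/T2.lean`: all nonconstant
entire curves `y` in `ℙⁿ` contained in none of the `F_i = 0` satisfy
`(1 - ε) d T_y(r) ≤ N₁(r, ∏ F_i(y)) + C log r`, every point being counted once. -/
theorem result (hst : SmtTypes) (n : ℕ) (hn : 1 ≤ n) (ε : ℝ) (hε : 0 < ε) (hε1 : ε < 1) :
    ∃ D₀ : ℕ, ∀ (q : ℕ) (d : Fin q → ℕ), (∀ i, 1 ≤ d i) → D₀ ≤ ∑ i, d i →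
      ForGenericForms n d fun F =>
        ∀ (m : ℕ) (w : Fin m → ℕ) (J : Ideal (MvPolynomial (Fin m) ℂ)) (D : ℕ)
          (f : Fin (n + 1) → MvPolynomial (Fin m) ℂ), IsWeightedProjective w J →
          IsFiniteMorphism w J D f →
          ∀ (e a : ℕ) (R : MvPolynomial (Fin m) ℂ), 1 ≤ e → R.IsWeightedHomogeneous w a → R ∉ J →
            (a : ℝ) ≤ e * ((1 - ε) * (∑ i, d i : ℕ) * D) →
            (∀ u, IsEntireCurve w (cone J) u →
              (∀ z, (∃ i, eval (fun j => eval (u z) (f j)) (F i) = 0) →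
                (e : ℕ∞) ≤ analyticOrderAt (fun z => eval (u z) R) z) →
              ∀ z, eval (u z) R = 0) ∧
            ((∀ x ∈ cone J, (∃ i, eval (fun j => eval x (f j)) (F i) = 0) →
                MultiplicityAtLeast J x e R) →
              (∀ u, IsEntireCurve w (cone J) u → ∀ z, eval (u z) R = 0) ∧
              PseudoBrody w (cone J)) := by
  obtain ⟨D₀, h⟩ := types_generic hst n hn (ε / 2) (by positivity) (by linarith)
  refine ⟨max D₀ 1, fun q d hd hD => ?_⟩
  have hD0 : D₀ ≤ ∑ i, d i := (le_max_left _ _).trans hD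
  have hk1 : 1 ≤ ∑ i, d i := (le_max_right _ _).trans hD
  obtain ⟨k, hk⟩ : ∃ k, k = ∑ i, d i := ⟨_, rfl⟩
  rw [← hk] at hk1
  obtain ⟨Θ, hΘ, hΘ'⟩ := h q d hd hD0
  refine ⟨Θ, hΘ, fun F hF hF0 => ?_⟩
  have hsmt := hΘ' F hF hF0
  rw [← hk] at hsmt ⊢
  have hkR : (1 : ℝ) ≤ k := by exact_mod_cast hk1
  intro m w J D f hJ hf e a R he hR hRJ ha
  have hprod : ∀ v : Fin (n + 1) → ℂ, eval v (∏ i, F i) = ∏ i, eval v (F i) := fun v =>
    map_prod _ _ _
  have hG : ∀ y : ℂ → Fin (n + 1) → ℂ, Pool.Agent.H67T.IsHol y →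
      (∃ z w, ∀ c : ℂ, y w ≠ c • y z) → (∃ z, eval (y z) (∏ i, F i) ≠ 0) →
      Pool.Agent.H89T.Smt (ε / 2) k (∏ i, F i) y := by
    intro y hy hnc hy0
    obtain ⟨z, hz⟩ := hy0
    rw [hprod] at hz
    obtain ⟨C, E, hE, h1⟩ := hsmt y hy hnc fun i => ⟨z, fun h0 => hz
      (Finset.prod_eq_zero (Finset.mem_univ i) h0)⟩
    refine ⟨C, E, hE, fun r hr hrE => ?_⟩
    have h2 := h1 r hr hrE
    simp only [hprod]
    exact h2
  have hκ : (1 - ε) * k < (1 - ε / 2) * (k : ℝ) := by nlinarith
  have hcurve : ∀ u, IsEntireCurve w (cone J) u →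
      (∀ z, (∃ i, eval (fun j => eval (u z) (f j)) (F i) = 0) →
        (e : ℕ∞) ≤ analyticOrderAt (fun z => eval (u z) R) z) → ∀ z, eval (u z) R = 0 :=
    fun u hu hord z => Pool.Agent.H53L.cov_R_eq_zero hf.pos he hκ hG hJ.weights
      (fun x hx t => Pool.Agent.H89T.eval_act_mem hJ.homogeneous hx t)
      hf.homogeneous (fun x hx hxJ => hf.base_point_free x ⟨hx, hxJ⟩) hR ha
      ⟨hu.holomorphic, fun z => (hu.mem z).1⟩ (fun z => (hu.mem z).2)
      (fun z hz => hord z (by
        rw [hprod, Finset.prod_eq_zero_iff] at hz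
        obtain ⟨i, -, hi⟩ := hz
        exact ⟨i, hi⟩)) hu.nonconstant z
  refine ⟨hcurve, fun hmult => ?_⟩
  have hmain : ∀ u, IsEntireCurve w (cone J) u → ∀ z, eval (u z) R = 0 := by
    intro u hu
    refine hcurve u hu fun z hz => ?_
    obtain ⟨S, hS, hSR⟩ := hmult (u z) (hu.mem z) hz
    exact Pool.Agent.H89T.t3_order ⟨hu.holomorphic, fun z => (hu.mem z).1⟩
      (fun z => (hu.mem z).2) hS hSR
  have hpt : ∃ x ∈ cone J, eval x R ≠ 0 := by
    obtain ⟨x₀, hx₀⟩ := hJ.nonempty
    obtain ⟨j, hj⟩ := hf.base_point_free x₀ hx₀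
    have hfJ : f j ∉ J := fun h => hj (hx₀.2 _ h)
    have hRf : R * f j ∉ J := fun h => (hJ.prime.mem_or_mem h).elim hRJ hfJ
    obtain ⟨x, hxJ, hx⟩ := Pool.Agent.H89T.t3_null J hJ.prime _ hRf
    rw [map_mul] at hx
    refine ⟨x, ⟨fun h0 => right_ne_zero_of_mul hx ?_, hxJ⟩, left_ne_zero_of_mul hx⟩
    have h1 := Pool.Agent.H89T.eval_act (hf.homogeneous j) 0 x
    have hD := hf.pos
    rw [zero_pow (by omega), zero_mul] at h1
    rw [h0]
    have h2 : Pool.Agent.H89T.act w 0 x = 0 := by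
      funext i
      have := hJ.weights i
      simp [Pool.Agent.H89T.act, zero_pow (show w i ≠ 0 by omega)]
    rwa [h2] at h1
  obtain ⟨x, hx, hxR⟩ := hpt
  refine ⟨hmain, ⟨{R}, ?_, ⟨x, hx, R, rfl, hxR⟩, ?_⟩⟩
  · rintro _ rfl
    exact ⟨a, hR⟩
  · rintro u hu z _ rfl
    exact hmain u hu z

end Pool.Agent.H53Y.AllTypes
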