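import Mathlib

set_option autoImplicit false

/-!
H53Y, chunk F01 (S/M, only Mathlib): the choice of the scale.
-/

namespace Pool.Agent.H53Y

/-- CHUNK F01.  Proof.  Let `E 0 = 0`, `E (j + 1) = max (E j) (Φ (E j))` (monotone), `J = ⌈1 / ε⌉₊` (so
`1 ≤ J`, `1 ≤ ε * J`) and `T = {E 0, ..., E (J - 1)}` (`Finset.image`).  For given `d` the sets
`A j = {i | E j < d i ∧ d i ≤ Φ (E j)}`, `j < J`, are pairwise disjoint (for `j < j'` and `i ∈ A j`:
`d i ≤ Φ (E j) ≤ E (j + 1) ≤ E j'`), so `∑ j < J, ∑ i ∈ A j, d i ≤ ∑ i, d i`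
(`Finset.sum_biUnion` and `Finset.sum_le_sum_of_subset`).  If all the `J` sums were `> ε ∑ d i` then
their sum would be `> J ε ∑ d i ≥ ∑ d i` (if `∑ d i = 0` take `j = 0`: both sides are `0`). -/
theorem scales (Φ : ℕ → ℕ) {ε : ℝ} (hε : 0 < ε) : ∃ T : Finset ℕ,
    ∀ (ι : Type) [Fintype ι] (d : ι → ℕ), ∃ E ∈ T,
      ((∑ i ∈ Finset.univ.filter (fun i => E < d i ∧ d i ≤ Φ E), d i : ℕ) : ℝ) ≤
        ε * (∑ i, d i : ℕ) := by
  classical
  obtain ⟨E, hE⟩ : ∃ E : ℕ → ℕ, ∀ j, E (j + 1) = max (E j) (Φ (E j)) :=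
    ⟨fun j => Nat.rec 0 (fun _ e => max e (Φ e)) j, fun j => rfl⟩
  have hmono : Monotone E := monotone_nat_of_le_succ (fun j => by rw [hE]; exact le_max_left _ _)
  set J : ℕ := ⌈1 / ε⌉₊ with hJ
  have hJ1 : 1 ≤ ε * (J : ℝ) := by
    have h := Nat.le_ceil (1 / ε)
    rw [div_le_iff₀ hε] at h
    rw [mul_comm]
    exact h
  have hJpos : 0 < J := Nat.ceil_pos.mpr (by positivity)
  refine ⟨(Finset.range J).image E, ?_⟩
  intro ι _ d
  by_contra hcon
  push Not at hcon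
  have h1 : ∀ j ∈ Finset.range J, ε * ((∑ i, d i : ℕ) : ℝ) <
      ((∑ i ∈ Finset.univ.filter (fun i => E j < d i ∧ d i ≤ Φ (E j)), d i : ℕ) : ℝ) :=
    fun j hj => hcon (E j) (Finset.mem_image_of_mem _ hj)
  have hdis : ∀ a b, a < b → ∀ i, (E a < d i ∧ d i ≤ Φ (E a)) →
      (E b < d i ∧ d i ≤ Φ (E b)) → False := by
    intro a b hab i h2 h3
    have h4 : Φ (E a) ≤ E (a + 1) := by rw [hE]; exact le_max_right _ _
    have h5 : E (a + 1) ≤ E b := hmono hab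
    have h6 := h2.2
    have h7 := h3.1
    omega
  have h2 : ∑ j ∈ Finset.range J,
      ∑ i ∈ Finset.univ.filter (fun i => E j < d i ∧ d i ≤ Φ (E j)), d i ≤ ∑ i, d i := by
    rw [← Finset.sum_biUnion]
    · exact Finset.sum_le_sum_of_subset (Finset.subset_univ _)
    · intro a _ b _ hab
      rw [Function.onFun, Finset.disjoint_left]
      intro i hi hj
      rw [Finset.mem_filter] at hi hj
      rcases lt_or_gt_of_ne hab with h | h
      · exact hdis a b h i hi.2 hj.2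
      · exact hdis b a h i hj.2 hi.2
  have h3 : ∑ j ∈ Finset.range J, ε * ((∑ i, d i : ℕ) : ℝ) <
      ∑ j ∈ Finset.range J,
        ((∑ i ∈ Finset.univ.filter (fun i => E j < d i ∧ d i ≤ Φ (E j)), d i : ℕ) : ℝ) :=
    Finset.sum_lt_sum_of_nonempty (Finset.nonempty_range_iff.mpr hJpos.ne') h1
  rw [Finset.sum_const, Finset.card_range, nsmul_eq_mul] at h3
  have h4 : ∑ j ∈ Finset.range J,
        ((∑ i ∈ Finset.univ.filter (fun i => E j < d i ∧ d i ≤ Φ (E j)), d i : ℕ) : ℝ) ≤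
        ((∑ i, d i : ℕ) : ℝ) := by
    exact_mod_cast h2
  have h5 : (0 : ℝ) ≤ ((∑ i, d i : ℕ) : ℝ) := Nat.cast_nonneg _
  nlinarith [mul_le_mul_of_nonneg_right hJ1 h5]

end Pool.Agent.H53Y
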