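import Mathlib

set_option autoImplicit false

/-!
H53Y, chunk F02 (M, only Mathlib): the parts.
-/

namespace Pool.Agent.H53Y

/-- CHUNK F02.  Proof.  For every `s` number the fibre: `num s : {x // sx x = s} ≃ Fin (K s)`,
`K s = Fintype.card {x // sx x = s}` (`Fintype.equivFin`), and let
`part x = (num (sx x) ⟨x, rfl⟩) % nb`.  The `x` with `sx x = s`, `part x = b` correspond to the
`i < K s` with `i % nb = b`; their number is at most `K s / nb + 1`: the map `i ↦ i / nb` is injective on
them (`i = nb (i / nb) + b`) with values in `{0, ..., K s / nb}` (or `Nat.count_modEq_card`). -/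
theorem exists_part {κ σ : Type} [Finite κ] (sx : κ → σ) {nb : ℕ} (hnb : 1 ≤ nb) :
    ∃ part : κ → Fin nb, ∀ s b,
      Nat.card {x : κ // sx x = s ∧ part x = b} ≤ Nat.card {x : κ // sx x = s} / nb + 1 := by
  classical
  have hA : ∀ s (x : κ) (hx : sx x = s),
      ((Finite.equivFin {y // sx y = sx x}) ⟨x, rfl⟩ : ℕ) =
        ((Finite.equivFin {y // sx y = s}) ⟨x, hx⟩ : ℕ) := by
    intro s x hx
    subst hx
    rfl
  refine ⟨fun x => ⟨((Finite.equivFin {y // sx y = sx x}) ⟨x, rfl⟩ : ℕ) % nb,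
    Nat.mod_lt _ hnb⟩, ?_⟩
  intro s b
  let g : {x : κ // sx x = s ∧ (⟨((Finite.equivFin {y // sx y = sx x}) ⟨x, rfl⟩ : ℕ) % nb,
    Nat.mod_lt _ hnb⟩ : Fin nb) = b} → Fin (Nat.card {x : κ // sx x = s} / nb + 1) :=
    fun x => ⟨((Finite.equivFin {y // sx y = s}) ⟨x.1, x.2.1⟩ : ℕ) / nb,
      Nat.lt_succ_of_le (Nat.div_le_div_right (Fin.isLt _).le)⟩
  have hg : Function.Injective g := by
    intro x y hxy
    have h1 : ((Finite.equivFin {y // sx y = s}) ⟨x.1, x.2.1⟩ : ℕ) / nb =
        ((Finite.equivFin {y // sx y = s}) ⟨y.1, y.2.1⟩ : ℕ) / nb := congrArg Fin.val hxy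
    have h2 : ((Finite.equivFin {y // sx y = s}) ⟨x.1, x.2.1⟩ : ℕ) % nb = b := by
      rw [← hA s x.1 x.2.1]
      exact congrArg Fin.val x.2.2
    have h3 : ((Finite.equivFin {y // sx y = s}) ⟨y.1, y.2.1⟩ : ℕ) % nb = b := by
      rw [← hA s y.1 y.2.1]
      exact congrArg Fin.val y.2.2
    have h4 := Nat.div_add_mod ((Finite.equivFin {y // sx y = s}) ⟨x.1, x.2.1⟩ : ℕ) nb
    have h5 := Nat.div_add_mod ((Finite.equivFin {y // sx y = s}) ⟨y.1, y.2.1⟩ : ℕ) nb
    rw [h1, h2] at h4
    rw [h3] at h5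
    have h6 : ((Finite.equivFin {y // sx y = s}) ⟨x.1, x.2.1⟩ : ℕ) =
        ((Finite.equivFin {y // sx y = s}) ⟨y.1, y.2.1⟩ : ℕ) := h4.symm.trans h5
    have h7 := (Finite.equivFin {y // sx y = s}).injective (Fin.ext h6)
    have h8 : x.1 = y.1 := Subtype.mk.inj h7
    exact Subtype.ext h8
  have h := Nat.card_le_card_of_injective g hg
  rw [Nat.card_eq_fintype_card (α := Fin _), Fintype.card_fin] at h
  exact h

/-- CHUNK F02.  What is left in the block `s` outside the set `S` of parts.  Proof: the fibre of `s` is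
the union of `{x // sx x = s ∧ part x ∉ S}` and of the `S.card ≤ c` sets
`{x // sx x = s ∧ part x = b}`, `b ∈ S`, so
`K ≤ card + c (K / nb + 1)`, `K = Nat.card {x // sx x = s}`. -/
theorem card_outside {κ σ : Type} [Finite κ] {sx : κ → σ} {nb c : ℕ} {part : κ → Fin nb}
    (h : ∀ s b, Nat.card {x : κ // sx x = s ∧ part x = b} ≤
      Nat.card {x : κ // sx x = s} / nb + 1) (S : Finset (Fin nb)) (hS : S.card ≤ c) (s : σ) :
    Nat.card {x : κ // sx x = s} ≤ Nat.card {x : {x : κ // part x ∉ S} // sx x.1 = s} +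
      c * (Nat.card {x : κ // sx x = s} / nb + 1) := by
  classical
  let _ : Fintype κ := Fintype.ofFinite κ
  have h1 : Nat.card {x : {x : κ // part x ∉ S} // sx x.1 = s} =
      (Finset.univ.filter (fun x : κ => part x ∉ S ∧ sx x = s)).card := by
    rw [Nat.card_congr (Equiv.subtypeSubtypeEquivSubtypeInter (fun x : κ => part x ∉ S)
      (fun x : κ => sx x = s)), Nat.card_eq_fintype_card, Fintype.card_subtype]
  have h2 : ∀ b, (Finset.univ.filter (fun x : κ => sx x = s ∧ part x = b)).card ≤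
      Nat.card {x : κ // sx x = s} / nb + 1 := by
    intro b
    have h3 := h s b
    rw [Nat.card_eq_fintype_card, Fintype.card_subtype] at h3
    exact h3
  have h4 : Nat.card {x : κ // sx x = s} = (Finset.univ.filter (fun x : κ => sx x = s)).card := by
    rw [Nat.card_eq_fintype_card, Fintype.card_subtype]
  have h5 : Finset.univ.filter (fun x : κ => sx x = s) ⊆
      Finset.univ.filter (fun x : κ => part x ∉ S ∧ sx x = s) ∪
        S.biUnion (fun b => Finset.univ.filter (fun x : κ => sx x = s ∧ part x = b)) := by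
    intro x hx
    rw [Finset.mem_filter] at hx
    rw [Finset.mem_union, Finset.mem_filter, Finset.mem_biUnion]
    by_cases hp : part x ∈ S
    · right
      exact ⟨part x, hp, Finset.mem_filter.mpr ⟨Finset.mem_univ _, hx.2, rfl⟩⟩
    · left
      exact ⟨Finset.mem_univ _, hp, hx.2⟩
  have h6 := (Finset.card_le_card h5).trans (Finset.card_union_le _ _)
  have h7 : (S.biUnion (fun b => Finset.univ.filter
      (fun x : κ => sx x = s ∧ part x = b))).card ≤
      c * (Nat.card {x : κ // sx x = s} / nb + 1) :=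
    (Finset.card_biUnion_le_card_mul _ _ _ (fun b _ => h2 b)).trans
      (Nat.mul_le_mul_right _ hS)
  rw [h1]
  calc Nat.card {x : κ // sx x = s} = (Finset.univ.filter (fun x : κ => sx x = s)).card := h4
    _ ≤ _ := h6
    _ ≤ _ := Nat.add_le_add_left h7 _

end Pool.Agent.H53Y
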