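import Pool.Agent.Lib.H53Y.F03
import Pool.Agent.Lib.H53Y.F08
import Pool.Agent.Lib.H53Y.F11
import Pool.Agent.Lib.H53Y.F12c
import Pool.Agent.Lib.H53Y.F13a
import Pool.Agent.Lib.H53Y.F13b
import Pool.Agent.Lib.H89T.AlgFinal

set_option autoImplicit false

/-!
H53Y, F13c: the second main theorem for fixed dimensions of the spans of the Veronese curves.
-/

open MvPolynomial Real MeasureTheory

namespace Pool.Agent.H53Y

open Pool.Agent.H89T Pool.Agent.H78G Pool.Agent.H67T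

/-- The conclusion for the forms `f` (large) and `η` (small) and the curve `y`. -/
def SmtY {n : ℕ} {ιL σ κ : Type} [Fintype ιL] [Fintype κ] {d : ιL → ℕ} {de : σ → ℕ}
    {sx : κ → σ} (b : ℝ) (f : FV (Fin (n + 1)) d → ℂ) (η : LV (fun t : κ => NV n (de (sx t))) → ℂ)
    (y : ℂ → Fin (n + 1) → ℂ) : Prop :=
  ∃ (C : ℝ) (E : Set ℝ), volume E < ⊤ ∧ ∀ ρ : ℝ, 2 ≤ ρ → ρ ∉ E →
    b * chi y ρ ≤ N1 (fun z => (∏ j, eval (y z) (fmj f j)) *
      ∏ t, lin (fun l => η ⟨t, l⟩) (ver n (de (sx t)) (y z))) ρ + C * log ρ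

theorem fixed_dim (hAC : AC_statement) (hD : D_statement) (hE : E_statement) {n : ℕ} (hn : 1 ≤ n)
    {ε : ℝ} (hε : 0 < ε) (hε1 : ε ≤ 1) {σ : Type} [Fintype σ] [DecidableEq σ] (m de : σ → ℕ)
    (hm : ∀ s, 1 ≤ m s) (hde : ∀ s, 1 ≤ de s) :
    ∃ K₁ : ℕ, ∀ (ιL κ : Type) [Fintype ιL] [Fintype κ] (d : ιL → ℕ) (sx : κ → σ) (Dt : ℕ),
      K₁ ≤ Dt → (∀ j, K₁ ≤ d j) →
      (∀ s, (∃ t, sx t = s) → K₁ ≤ Nat.card {t : κ // sx t = s}) →
      (1 - ε / 32) * Dt ≤ ((∑ j, d j + ∑ t, de (sx t) : ℕ) : ℝ) →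
      ∑ j, d j + ∑ t, de (sx t) ≤ Dt →
      ∃ Ξ : MvPolynomial (FV (Fin (n + 1)) d ⊕ LV (fun t : κ => NV n (de (sx t)))) ℂ, Ξ ≠ 0 ∧
        ∀ (f : FV (Fin (n + 1)) d → ℂ) (η : LV (fun t : κ => NV n (de (sx t))) → ℂ),
          eval (Sum.elim f η) Ξ ≠ 0 → ∀ y : ℂ → Fin (n + 1) → ℂ, IsHol y →
          (∃ z w, ∀ c : ℂ, y w ≠ c • y z) → (∀ j, ∃ z, eval (y z) (fmj f j) ≠ 0) →
          (∀ t, ∃ z, lin (fun l => η ⟨t, l⟩) (ver n (de (sx t)) (y z)) ≠ 0) →
          (∀ s, SpanDim (m s) (fun z => ver n (de s) (y z))) →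
          SmtY ((1 - ε / 2) * Dt) f η y := by
  classical
  -- constants
  set c : ℕ := 2 * ((n + 1) * (n + 1)) + ∑ s, 2 * ((m s + 1) * (NV n (de s) + 1)) with hc
  set μ : ℕ := n + c + ∑ s, m s with hμ
  set es : ℕ := 1 + ∑ s, de s with hes
  set b₀ : ℕ := Fintype.card (Option σ) * (n * μ + μ ^ 2) * es with hb₀
  have hc2 : 2 ≤ c := by
    have : 2 * ((n + 1) * (n + 1)) ≤ c := by rw [hc]; exact Nat.le_add_right _ _
    nlinarith
  have hmO1 : ∀ s, 1 ≤ mO (n + c) m s := by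
    rintro (_ | s)
    · show 1 ≤ n + c
      omega
    · exact hm s
  have hmOμ : ∀ s, mO (n + c) m s ≤ μ := by
    rintro (_ | s)
    · show n + c ≤ μ
      rw [hμ]; exact Nat.le_add_right _ _
    · show m s ≤ μ
      rw [hμ]
      exact (Finset.single_le_sum (fun _ _ => Nat.zero_le _) (Finset.mem_univ s)).trans
        (Nat.le_add_left _ _)
  set nt : ℕ := Fintype.card (Co (mO (n + c) m)) with hnt
  set e : Co (mO (n + c) m) ≃ Fin nt := Fintype.equivFin _ with he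
  set α : ℝ := ε / (16 * (b₀ + 1)) with hα
  have hα0 : 0 < α := by rw [hα]; positivity
  obtain ⟨r, CA, hr, hr1, hA⟩ := hAC (mO (n + c) m) (fun s => s.isSome) e hmO1
    (by
      rintro (_ | s) h
      · show 2 ≤ n + c
        omega
      · simp at h) α hα0
  set β : ℝ := ε / (16 * (μ + 1)) with hβ
  have hβ0 : 0 < β := by rw [hβ]; positivity
  obtain ⟨CB, hB⟩ := H89T.algB (n + c) (by omega) β hβ0
  obtain ⟨nb, hnb⟩ : ∃ nb : ℕ, 1 ≤ nb ∧ 2 * c ≤ nb ∧ (32 * c : ℝ) / ε ≤ nb := by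
    obtain ⟨nb, hnb⟩ := exists_nat_ge ((32 * c : ℝ) / ε)
    refine ⟨nb + 2 * c + 1, by omega, by omega, hnb.trans ?_⟩
    push_cast
    have : (0 : ℝ) ≤ c := Nat.cast_nonneg c
    linarith
  obtain ⟨hnb1, hnb2, hnb3⟩ := hnb
  obtain ⟨Ka, hKa⟩ := exists_nat_ge
    (16 * ((b₀ : ℝ) * CA + r * (es * (μ + 1)) + r * ((c * es : ℕ) : ℝ)) / ε)
  obtain ⟨Kb, hKb⟩ := exists_nat_ge (16 * (((μ : ℝ) + 1) * CB) / ε)
  refine ⟨Ka + Kb + CA + CB + 2 * (c + (μ + 1)) + 1, ?_⟩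
  intro ιL κ _ _ d sx Dt hDt hd hκ hlow hup
  have hdA : ∀ j, CA ≤ d j := fun j => le_trans (by omega) (hd j)
  have hdB : ∀ j, CB ≤ d j := fun j => le_trans (by omega) (hd j)
  have hd1 : ∀ j, 1 ≤ d j := fun j => le_trans (by omega) (hd j)
  have hdKb : ∀ j, Kb ≤ d j := fun j => le_trans (by omega) (hd j)
  obtain ⟨part, hpart⟩ := exists_part sx hnb1
  have hd0 : ∀ S : Finset (Fin nb), ∀ i : ιL ⊕ {x : κ // part x ∉ S},
      (sbO (fun x : {x : κ // part x ∉ S} => sx x.1) i).isSome = true → dgO d i = 1 := by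
    rintro S (j | t) h
    · simp [sbO] at h
    · rfl
  have hd2 : ∀ S : Finset (Fin nb), ∀ i : ιL ⊕ {x : κ // part x ∉ S},
      (sbO (fun x : {x : κ // part x ∉ S} => sx x.1) i).isSome = false → CA ≤ dgO d i := by
    rintro S (j | t) h
    · exact hdA j
    · simp [sbO] at h
  choose W hW0 hW using fun S : Finset (Fin nb) => hA (ιL ⊕ {x : κ // part x ∉ S})
    (sbO (fun x : {x : κ // part x ∉ S} => sx x.1)) (dgO d) (hd0 S) (hd2 S)
  choose WB hWB0 hWB using fun j : ιL => hB (d j) (hdB j)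
  obtain ⟨x, hx, Θ, hΘ0, hΘ⟩ := exists_good d m sx part e W hW0 WB hWB0
  obtain ⟨Ξ₁, hΞ₁, hΞ⟩ := hE d m (fun s => NV n (de s)) sx part hd1 (le_of_eq hc.symm) Θ
    (fun S _ => hΘ0 S)
  obtain ⟨Ξ₂, hΞ₂, hgp⟩ := exists_gp (n := n) d
  refine ⟨Ξ₁ * rename Sum.inl Ξ₂, mul_ne_zero hΞ₁ ?_, ?_⟩
  · rw [Ne, map_eq_zero_iff _ (rename_injective _ Sum.inl_injective)]
    exact hΞ₂
  intro f η hfη y hy hnc hf hη hL
  rw [map_mul, eval_rename] at hfη
  have hf₁ := left_ne_zero_of_mul hfη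
  have hf₂ : eval f Ξ₂ ≠ 0 := by
    have := right_ne_zero_of_mul hfη
    rwa [Sum.elim_comp_inl] at this
  obtain ⟨z₀, A, A', Lam, Lb, hAA, hA'A, hz₀, hns, hLL, hspan, hWr, hw, hf0, hη0, hzL⟩ :=
    exists_frames e x hy hnc f η hf hη hL
  have hA0 : (fun i => A i 0) = y z₀ := by
    have h1 : A.mulVec (A'.mulVec (y z₀)) = y z₀ := by
      rw [Matrix.mulVec_mulVec, hAA, Matrix.one_mulVec]
    rw [← h1, hz₀, Matrix.mulVec_single_one]
    rfl
  obtain ⟨S, hS, lam, sE, E, hlam, hEh, hΘS⟩ := hΞ f η hf₁ A A' hA'A Lam Lb hLL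
    (fun j => by rw [hA0]; exact hf0 j)
  obtain ⟨hWS, hWBS, hgen⟩ := hΘ S _ _ hΘS
  have hdgsum : (∑ i : ιL ⊕ {x : κ // part x ∉ S}, dgO d i : ℕ) ≤ Dt := by
    rw [Fintype.sum_sum_type]
    refine le_trans (add_le_add le_rfl ?_) hup
    calc ∑ t : {x : κ // part x ∉ S}, dgO (κ := {x : κ // part x ∉ S}) d (Sum.inr t) =
        Fintype.card {x : κ // part x ∉ S} := by
          simp [dgO]
      _ ≤ Fintype.card κ := Fintype.card_subtype_le _
      _ = ∑ _t : κ, 1 := by simp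
      _ ≤ ∑ t : κ, de (sx t) := Finset.sum_le_sum fun t _ => hde _
  obtain ⟨C, hC, hineq⟩ := one_curve (M := ⌊α * r * Dt + CA⌋₊) (μ := μ) hD hn hd1 hm e hr1 hr hmOμ
    hy hAA hA'A hz₀ hns hspan hWr hx hw f (sx := fun t : {x : κ // part x ∉ S} => sx t.1)
    (fun p => η ⟨p.1.1, p.2⟩) hf0
    (fun t => hη0 t.1) sE hlam hEh (fun z => hgp f hf₂ (y z) (hy.ne_zero z)) hgen
    (fun s hs => card_outside_ge hpart hnb2 S hS s (by
      obtain ⟨t, ht⟩ := hs
      have h1 := hκ s ⟨t.1, ht⟩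
      have h2 : m s ≤ μ := hmOμ (some s)
      omega))
    (fun z hz => hzL z (by
      rcases hz with hz | ⟨t, ht⟩
      · exact Or.inl hz
      · exact Or.inr ⟨t.1, ht⟩))
    (fun j => ⌊β * d j + CB⌋₊)
    (by
      intro j k ξ h0 hev hjet
      have h00 : (fun b => ξ (b, 0)) = bpt (fun b => x (e ⟨none, b⟩)) k := funext h0
      obtain ⟨dd, Q, h1, h2, h3, h4⟩ := hWB j _ ξ (by rw [h00]; exact hWBS j k) hev hjet
      exact ⟨Q, HasWt.mono h2 (Nat.le_floor h1), h3, h4⟩)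
    (by
      intro ξ h0 hfv hWd hjet
      have h00 : (fun b => ξ (b, 0)) = x := funext h0
      obtain ⟨dd, P, h1, h2, h3, h4⟩ := hW S _ ξ (by rw [h00]; exact hWS)
        (by rw [h00]; exact hfv)
        (by
          rintro (_ | s) hs
          · simp at hs
          · exact hWd s)
        (by
          rintro (_ | s) hs
          · exact hjet
          · simp at hs)
      refine ⟨P, HasWt.mono h2 (Nat.le_floor (h1.trans ?_)), h3, h4⟩
      have h5 : ((∑ i : ιL ⊕ {x : κ // part x ∉ S}, dgO d i : ℕ) : ℝ) ≤ Dt := by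
        exact_mod_cast hdgsum
      have h6 : 0 ≤ α * r := mul_nonneg hα0.le (Nat.cast_nonneg r)
      have h7 := mul_le_mul_of_nonneg_left h5 h6
      linarith)
  have hr0 : (1 : ℝ) ≤ r := by exact_mod_cast hr1
  have hDt0 : (1 : ℝ) ≤ Dt := by
    have : 1 ≤ Dt := le_trans (by omega) hDt
    exact_mod_cast this
  have hDtKa : (Ka : ℝ) ≤ Dt := by
    have : Ka ≤ Dt := le_trans (by omega) hDt
    exact_mod_cast this
  -- the degree outside `S`
  have hdeg : (1 - ε / 16) * Dt - ((c * es : ℕ) : ℝ) ≤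
      ((∑ j, d j + ∑ t : {x : κ // part x ∉ S}, de (sx t.1) : ℕ) : ℝ) := by
    have h1 := degree_outside (de := de) hpart S hS
    set X : ℕ := ∑ t, de (sx t) with hX
    set X' : ℕ := ∑ t : {x : κ // part x ∉ S}, de (sx t.1) with hX'
    have h2 : (nb : ℝ) * X ≤ nb * X' + c * (X + nb * (∑ s, de s : ℕ)) := by exact_mod_cast h1
    have hnb0 : (1 : ℝ) ≤ nb := by exact_mod_cast hnb1
    have h3 : (c : ℝ) ≤ ε / 32 * nb := by
      rw [div_le_iff₀ hε] at hnb3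
      linarith
    have hXD : (X : ℝ) ≤ Dt := by
      have : X ≤ Dt := le_trans (Nat.le_add_left _ _) hup
      exact_mod_cast this
    have hc0 : (0 : ℝ) ≤ c := Nat.cast_nonneg c
    have h4 : (c : ℝ) * X ≤ ε / 32 * nb * Dt :=
      mul_le_mul h3 hXD (Nat.cast_nonneg X) (by positivity)
    have h5 : (nb : ℝ) * (X - X' - ε / 32 * Dt - c * (∑ s, de s : ℕ)) ≤ nb * 0 := by
      rw [mul_zero]
      nlinarith
    have h6 := le_of_mul_le_mul_left h5 (by linarith)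
    have h7 : ((c * es : ℕ) : ℝ) = c + c * (∑ s, de s : ℕ) := by
      rw [hes]
      push_cast
      ring
    rw [h7]
    push_cast at hlow ⊢
    push_cast at h6
    linarith
  -- numerics
  have hnum := numerics (ε := ε) (α := α) (β := β) hε (b₀ := b₀) (μ := μ) (es := es) (CA := CA)
    (CB := CB) (r := r) (M := ⌊α * r * Dt + CA⌋₊) (K₁ := c * es) (D := Dt)
    (κ' := ∑ j, d j + ∑ t : {x : κ // part x ∉ S}, de (sx t.1)) d
    (fun j => ⌊β * d j + CB⌋₊)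
    (by
      rw [hα, div_mul_eq_mul_div, div_le_div_iff₀ (by positivity) (by norm_num)]
      nlinarith [(Nat.cast_nonneg b₀ : (0 : ℝ) ≤ b₀)])
    (by
      rw [hβ, div_mul_eq_mul_div, div_le_div_iff₀ (by positivity) (by norm_num)]
      nlinarith [(Nat.cast_nonneg μ : (0 : ℝ) ≤ μ)])
    (Nat.floor_le (by positivity)) (fun j => Nat.floor_le (by positivity))
    (by
      intro j
      have h1 : (Kb : ℝ) ≤ d j := by exact_mod_cast hdKb j
      have h2 := hKb.trans h1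
      rw [div_le_iff₀ hε] at h2
      linarith)
    (le_trans (Nat.le_add_right _ _) hup) hdeg
    (by
      have h2 := hKa.trans hDtKa
      rw [div_le_iff₀ hε] at h2
      have h3 : ε * Dt ≤ ε * (r * Dt) := by
        refine mul_le_mul_of_nonneg_left ?_ hε.le
        nlinarith
      linarith)
  obtain ⟨C', E', hE', hfin⟩ := finish_smt hy (b := (1 - ε / 2) * Dt) (δ := ε / 16 * Dt) hr1
    (by positivity) (κ' := ∑ j, d j + ∑ t : {x : κ // part x ∉ S}, de (sx t.1))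
    (cost := Fintype.card (Option σ) * (n * μ + μ ^ 2) * (⌊α * r * Dt + CA⌋₊ * (1 + ∑ s, de s)) +
          r * (∑ j, (μ + 1) * ⌊β * d j + CB⌋₊) + r * ((1 + ∑ s, de s) * (μ + 1)))
    (by
      have h1 : Fintype.card (Option σ) * (n * μ + μ ^ 2) *
          (⌊α * r * Dt + CA⌋₊ * (1 + ∑ s, de s)) = b₀ * ⌊α * r * Dt + CA⌋₊ := by
        rw [hb₀, hes]; ring
      rw [h1]
      refine hnum.trans (le_of_eq ?_)
      ring)
    (fun ρ hρ => N1_sub hy f η hf hη (fun t => part t ∉ S) hρ) hC hineq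
  exact ⟨C', E', hE', hfin⟩

end Pool.Agent.H53Y
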