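import Pool.Agent.Lib.H53Y.ST
import Pool.Agent.Lib.H53Y.F13c
import Pool.Agent.Lib.H53Y.F14

set_option autoImplicit false

/-!
H53Y, F14: the second main theorem for degrees which are at most `E₀` or large.
-/

open MvPolynomial Real MeasureTheory

namespace Pool.Agent.H53Y

open Pool.Agent.H89T Pool.Agent.H78G Pool.Agent.H67T

theorem smt_gap (hAC : AC_statement) (hD : D_statement) (hE : E_statement) : SmtGap := by
  classical
  intro n hn ε hε hε1 E₀
  choose K₁ hK₁ using fun m' : ((s : Fin E₀) → Fin (NV n (deS E₀ s) + 1)) =>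
    fixed_dim hAC hD hE hn hε hε1 (fun s => (m' s : ℕ) + 1) (deS E₀) (fun s => Nat.le_add_left 1 _)
      (fun s => Nat.le_add_left 1 _)
  set K : ℕ := 1 + ∑ m', K₁ m' with hK
  have hKm : ∀ m', K₁ m' ≤ K := fun m' => by
    rw [hK]
    exact (Finset.single_le_sum (fun _ _ => Nat.zero_le _) (Finset.mem_univ m')).trans
      (Nat.le_add_left _ _)
  obtain ⟨L, hL⟩ := exists_nat_ge (32 * ((E₀ * (E₀ * K) : ℕ) : ℝ) / ε)
  refine ⟨K + L, ?_⟩
  intro ι _ d hd hgap hDt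
  have hlow : (1 - ε / 32) * ((∑ i, d i : ℕ) : ℝ) ≤
      ((∑ j : IL d E₀, d j.1 + ∑ t : IS d E₀ K, deS E₀ (sxS d E₀ K t) : ℕ) : ℝ) := by
    have h1 : ((∑ i, d i : ℕ) : ℝ) ≤
        ((∑ j : IL d E₀, d j.1 + ∑ t : IS d E₀ K, deS E₀ (sxS d E₀ K t) : ℕ) : ℝ) +
          ((E₀ * (E₀ * K) : ℕ) : ℝ) := by
      exact_mod_cast degree_ge d E₀ K hd
    have h2 : (L : ℝ) ≤ ((∑ i, d i : ℕ) : ℝ) := by
      have : L ≤ ∑ i, d i := le_trans (Nat.le_add_left _ _) hDt
      exact_mod_cast this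
    have h3 := hL.trans h2
    rw [div_le_iff₀ hε] at h3
    linarith
  choose Ξ hΞ0 hΞ using fun m' => hK₁ m' (IL d E₀) (IS d E₀ K) (fun j => d j.1) (sxS d E₀ K)
    (∑ i, d i) ((hKm m').trans ((Nat.le_add_right _ _).trans hDt))
    (fun j => (hKm m').trans ((Nat.le_add_right _ _).trans ((hgap j.1).resolve_left
      (not_le.2 j.2)))) (fun s hs => (hKm m').trans (card_block d E₀ K s hs)) hlow
    (degree_le d E₀ K)
  refine ⟨rename (phS d E₀ K n) (∏ m', Ξ m'), ?_, ?_⟩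
  · rw [Ne, map_eq_zero_iff _ (rename_injective _ (phS_injective d E₀ K n))]
    exact Finset.prod_ne_zero_iff.2 fun m' _ => hΞ0 m'
  intro f hf y hy hnc hfy
  rw [eval_rename, map_prod] at hf
  have hf' := Finset.prod_ne_zero_iff.1 hf
  have hspan : ∀ s : Fin E₀, ∃ m : ℕ, 1 ≤ m ∧ m ≤ NV n (deS E₀ s) ∧
      SpanDim m (fun z => ver n (deS E₀ s) (y z)) := by
    intro s
    obtain ⟨m, Lam, Lb, h1, h2, h3⟩ := exists_span (isHol_ver hy (deS E₀ s))
      (ver_nonconst (Nat.le_add_left 1 _) hy hnc)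
    exact ⟨m, h1, h2, Lam, Lb, h3⟩
  choose m hm1 hm2 hm3 using hspan
  have hm' : ∀ s, m s - 1 < NV n (deS E₀ s) + 1 := fun s => by have := hm2 s; omega
  have hsplit : f ∘ phS d E₀ K n = Sum.elim (fun p => f (phS d E₀ K n (Sum.inl p)))
      (fun p => f (phS d E₀ K n (Sum.inr p))) := by
    funext p
    rcases p with p | p <;> rfl
  have hmain := hΞ (fun s => ⟨m s - 1, hm' s⟩) (fun p => f (phS d E₀ K n (Sum.inl p)))
    (fun p => f (phS d E₀ K n (Sum.inr p)))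
    (by rw [← hsplit]; exact hf' _ (Finset.mem_univ _)) y hy hnc
    (fun j => by
      obtain ⟨z, hz⟩ := hfy j.1
      exact ⟨z, by rw [fmj_phS]; exact hz⟩)
    (fun t => by
      obtain ⟨z, hz⟩ := hfy t.1
      exact ⟨z, by rw [lin_phS]; exact hz⟩)
    (fun s => by
      have h1 : m s - 1 + 1 = m s := by have := hm1 s; omega
      show SpanDim (m s - 1 + 1) _
      rw [h1]
      exact hm3 s)
  refine smt_mono hy le_rfl ?_ hmain
  intro ρ hρ
  simp only [fmj_phS, lin_phS]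
  exact N1_kept hy f hfy (fun i => E₀ < d i)
    (fun i => (1 ≤ d i ∧ d i ≤ E₀) ∧ K ≤ Nat.card {i' : ι // d i' = d i}) hρ

end Pool.Agent.H53Y
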