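import Pool.Agent.Lib.H53Y.ST
import Pool.Agent.Lib.H53Y.F01
import Pool.Agent.Lib.H53Y.F14

set_option autoImplicit false

/-!
H53Y, chunk F15 (M/L): all types.
-/

open MvPolynomial Real MeasureTheory

namespace Pool.Agent.H53Y

open Pool.Agent.H89T Pool.Agent.H78G Pool.Agent.H67T

/-- CHUNK F15 (M/L).  Proof.  `Φ E` = the `K` of `hgap` for `n`, `ε`, `E` (`choose`).  `T` from
`scales Φ (ε / 4)`, `D₀ = 2 * ∑ E ∈ T, Φ E`.  Given `d`: choose `E ∈ T`; `ι' = {i // d i ≤ E ∨ Φ E < d i}`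
(complement of the dropped forms), `d' i = d i.1`.  `∑ d' ≥ (1 - ε / 4) ∑ d ≥ ∑ d / 2 ≥ Φ E`.  `Ξ'` from `hgap`
for `ι'`, `d'`; `Ξ = rename (fun p => ⟨p.1.1, p.2⟩) Ξ'` (injective), `eval f Ξ = eval f' Ξ'`,
`f' p = f ⟨p.1.1, p.2⟩`, `fmj f' i = fmj f i.1` (`rfl`).  Apply the theorem for `f'`, and `smt_mono` with
`(1 - ε) ∑ d ≤ (1 - ε / 2) (1 - ε / 4) ∑ d ≤ (1 - ε / 2) ∑ d'` and
`N1 (∏ i : ι', ..) ≤ N1 (∏ i : ι, ..)` (`N1_kept` with `P` = the condition and `Q` = False, or directly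
`H78G.N1_mono`). -/
theorem smt_types (hgap : SmtGap) : SmtTypes := by
  classical
  intro n hn ε hε hε1
  choose Φ hΦ using hgap n hn ε hε hε1
  obtain ⟨T, hT⟩ := scales Φ (ε := ε / 4) (by positivity)
  refine ⟨2 * ∑ E ∈ T, Φ E, ?_⟩
  intro ι _ d hd hD
  obtain ⟨E, hE, hsum⟩ := hT ι d
  have hΦE : 2 * Φ E ≤ ∑ i, d i := by
    refine le_trans ?_ hD
    exact Nat.mul_le_mul_left 2 (Finset.single_le_sum (f := Φ) (fun _ _ => Nat.zero_le _) hE)
  set P : ι → Prop := fun i => ¬ (E < d i ∧ d i ≤ Φ E) with hP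
  have hsplit : ∑ i, d i = ∑ i : {i // P i}, d i.1 +
      ∑ i ∈ Finset.univ.filter (fun i => E < d i ∧ d i ≤ Φ E), d i := by
    rw [← Finset.sum_filter_add_sum_filter_not Finset.univ (fun i => E < d i ∧ d i ≤ Φ E),
      add_comm]
    congr 1
    exact Finset.sum_subtype _ (fun i => by simp [hP]) _
  set D : ℕ := ∑ i, d i with hDdef
  set D' : ℕ := ∑ i : {i // P i}, d i.1 with hD'
  set X : ℕ := ∑ i ∈ Finset.univ.filter (fun i => E < d i ∧ d i ≤ Φ E), d i with hX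
  have hR : (D : ℝ) = D' + X := by exact_mod_cast hsplit
  have hDD' : (1 - ε / 4) * (D : ℝ) ≤ D' := by linarith
  have hD0 : (0 : ℝ) ≤ D := Nat.cast_nonneg D
  have hK : Φ E ≤ D' := by
    have h1 : (2 : ℝ) * Φ E ≤ D := by exact_mod_cast hΦE
    have h2 : (Φ E : ℝ) ≤ D' := by nlinarith
    exact_mod_cast h2
  obtain ⟨Ξ, hΞ0, hΞ⟩ := hΦ E {i // P i} (fun i => d i.1) (fun i => hd i.1)
    (fun i => by
      rcases le_or_gt (d i.1) E with h | h
      · exact Or.inl h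
      · right
        by_contra hcon
        exact i.2 ⟨h, (not_le.1 hcon).le⟩) hK
  set φ : FV (Fin (n + 1)) (fun i : {i // P i} => d i.1) → FV (Fin (n + 1)) d :=
    fun p => ⟨p.1.1, p.2⟩ with hφ
  have hφi : Function.Injective φ := by
    rintro ⟨⟨i, hi⟩, δ⟩ ⟨⟨i', hi'⟩, δ'⟩ h
    simp only [hφ, Sigma.mk.injEq] at h
    obtain ⟨rfl, h2⟩ := h
    rw [heq_eq_eq] at h2
    rw [h2]
  refine ⟨rename φ Ξ, ?_, ?_⟩
  · rw [Ne, map_eq_zero_iff _ (rename_injective _ hφi)]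
    exact hΞ0
  intro f hf y hy hnc hfy
  rw [eval_rename] at hf
  have hmain := hΞ _ hf y hy hnc (fun i => hfy i.1)
  refine smt_mono hy (b := (1 - ε / 2) * (D' : ℕ)) ?_ ?_ hmain
  · have h1 : (1 - ε / 2) * ((1 - ε / 4) * (D : ℝ)) ≤ (1 - ε / 2) * D' :=
      mul_le_mul_of_nonneg_left hDD' (by linarith)
    nlinarith [mul_nonneg (mul_nonneg hε.le hε.le) hD0, mul_nonneg hε.le hD0]
  · intro ρ hρ
    have h1 := N1_kept hy f hfy P (fun _ => False) hρ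
    simp only [Finset.univ_eq_empty, Finset.prod_empty, mul_one] at h1
    exact h1

end Pool.Agent.H53Y
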