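import Pool.Agent.Lib.H53Y.T1

set_option autoImplicit false

/-!
H53Y, T2: the second main theorem with every point counted once for generic hypersurfaces of all types.
-/

open MvPolynomial Real MeasureTheory

namespace Pool.Agent.H53Y.SecondMain

/-- `P` holds for all `q`-tuples of forms of degrees `d 0, ..., d (q - 1)` in `n + 1` variables
outside a proper algebraic subset: there is a polynomial `Θ` in the coefficients, not vanishing at
all these tuples, such that `P` holds for the tuples at which `Θ` does not vanish. -/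
def ForGenericForms (n : ℕ) {q : ℕ} (d : Fin q → ℕ)
    (P : (Fin q → MvPolynomial (Fin (n + 1)) ℂ) → Prop) : Prop :=
  ∃ Θ : MvPolynomial (Fin q × (Fin (n + 1) →₀ ℕ)) ℂ,
    (∃ F : Fin q → MvPolynomial (Fin (n + 1)) ℂ, (∀ j, (F j).IsHomogeneous (d j)) ∧
      eval (fun p => coeff p.2 (F p.1)) Θ ≠ 0) ∧
    ∀ F : Fin q → MvPolynomial (Fin (n + 1)) ℂ, (∀ j, (F j).IsHomogeneous (d j)) →
      eval (fun p => coeff p.2 (F p.1)) Θ ≠ 0 → P F

/-- `y` is a reduced representation of a nonconstant holomorphic map from `ℂ` to projective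
space. -/
structure IsHolomorphicCurve {n : ℕ} (y : ℂ → Fin n → ℂ) : Prop where
  holomorphic : ∀ j, Differentiable ℂ fun z => y z j
  ne_zero : ∀ z, y z ≠ 0
  nonconstant : ∃ z z', ∀ c : ℂ, y z' ≠ c • y z

/-- Cartan's characteristic function `T_y(r)`: the mean value of `log ‖y z‖` on `|z| = r` minus
`log ‖y 0‖`. -/
noncomputable def characteristic {n : ℕ} (y : ℂ → Fin n → ℂ) (r : ℝ) : ℝ :=
  circleAverage (fun z => log ‖y z‖) 0 r - log ‖y 0‖

/-- The counting function `N₁(r, g)` of the zeros of `g`, every zero being counted once.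
(For `a = 0` the summand is `log (r / 0) = 0`.) -/
noncomputable def truncatedCounting (g : ℂ → ℂ) (r : ℝ) : ℝ :=
  (∑ᶠ a ∈ {a : ℂ | ‖a‖ ≤ r ∧ g a = 0}, log (r / ‖a‖)) + if g 0 = 0 then log r else 0

/-- **Second main theorem with every point counted once, all types**: for `n ≥ 1` and
`0 < ε < 1` there is a `D₀` such that for all types `(d_1, ..., d_q)`, `d_i ≥ 1`, with
`d_1 + ... + d_q ≥ D₀`, and the generic tuple `(F_1, ..., F_q)` of forms of degrees `d_i` in `n + 1`
variables, all nonconstant entire curves `y` in `ℙⁿ` contained in none of the `F_i = 0` (algebraically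
degenerate ones included) satisfy
`(1 - ε) (d_1 + ... + d_q) T_y(r) ≤ N₁(r, ∏ F_i(y)) + C log r` for all `r ≥ 2` outside a set of finite
measure; a point is counted once also if `y` meets several of the `F_i = 0` there, or is tangent to
them. -/
theorem second_main_types (hst : SmtTypes) (n : ℕ) (hn : 1 ≤ n) (ε : ℝ) (hε : 0 < ε)
    (hε1 : ε < 1) :
    ∃ D₀ : ℕ, ∀ (q : ℕ) (d : Fin q → ℕ), (∀ i, 1 ≤ d i) → D₀ ≤ ∑ i, d i →
      ForGenericForms n d fun F =>
        ∀ y : ℂ → Fin (n + 1) → ℂ, IsHolomorphicCurve y → (∀ i, ∃ z, eval (y z) (F i) ≠ 0) →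
          ∃ (C : ℝ) (E : Set ℝ), volume E < ⊤ ∧ ∀ r : ℝ, 2 ≤ r → r ∉ E →
            (1 - ε) * (∑ i, d i : ℕ) * characteristic y r ≤
              truncatedCounting (fun z => ∏ i, eval (y z) (F i)) r + C * log r := by
  obtain ⟨D₀, h⟩ := types_generic hst n hn ε hε hε1.le
  refine ⟨D₀, fun q d hd hD => ?_⟩
  obtain ⟨Θ, hΘ, hΘ'⟩ := h q d hd hD
  refine ⟨Θ, hΘ, fun F hF hF0 y hy hyF => ?_⟩
  obtain ⟨C, E, hE, h3⟩ := hΘ' F hF hF0 y ⟨hy.holomorphic, hy.ne_zero⟩ hy.nonconstant hyF
  obtain ⟨k, hk⟩ : ∃ k, k = ∑ i, d i := ⟨_, rfl⟩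
  rw [← hk] at h3 ⊢
  refine ⟨C + |(1 - ε) * k * log ‖y 0‖| / log 2, E, hE, fun r hr hrE => ?_⟩
  have h4 := h3 r hr hrE
  have h5 : |(1 - ε) * k * log ‖y 0‖| ≤ |(1 - ε) * k * log ‖y 0‖| / log 2 * log r := by
    have h9 : 0 < log 2 := Real.log_pos one_lt_two
    have h10 : log 2 ≤ log r := Real.log_le_log (by norm_num) hr
    rw [div_mul_eq_mul_div, le_div_iff₀ h9]
    exact mul_le_mul_of_nonneg_left h10 (by positivity)
  have h6 := neg_abs_le ((1 - ε) * k * log ‖y 0‖)
  have h7 : (1 - ε) * k * characteristic y r =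
      (1 - ε) * k * Pool.Agent.H67T.chi y r - (1 - ε) * k * log ‖y 0‖ := by
    rw [characteristic, Pool.Agent.H67T.chi]
    ring
  have h8 : truncatedCounting (fun z => ∏ i, eval (y z) (F i)) r =
      Pool.Agent.H67T.N1 (fun z => ∏ i, eval (y z) (F i)) r := rfl
  rw [h7, h8, add_mul]
  linarith

end Pool.Agent.H53Y.SecondMain
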