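import Pool.Agent.Lib.H53Y.F14m
import Pool.Agent.Lib.H53Y.F15
import Pool.Agent.Lib.H53Y.T2
import Pool.Agent.Lib.H49D.T3
import Pool.Agent.Lib.H78B.B7
import Pool.Agent.Lib.H89Y.AMain

set_option autoImplicit false

/-!
The second main theorem with truncation level one, every point being counted once, for generic
hypersurfaces of all types.
-/

open MvPolynomial Real MeasureTheory

namespace Pool.Agent.H53Y

theorem smtTypes : SmtTypes :=
  smt_types (smt_gap Pool.Agent.H89Y.algG Pool.Agent.H49D.curve_main Pool.Agent.H78B.e_main)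

open SecondMain in
/-- **Second main theorem with every point counted once, all types**: for `n ≥ 1` and
`0 < ε < 1` there is a `D₀` such that for all types `(d_1, ..., d_q)`, `d_i ≥ 1`, with
`d_1 + ... + d_q ≥ D₀`, and the generic tuple `(F_1, ..., F_q)` of forms of degrees `d_i` in `n + 1`
variables, all nonconstant entire curves `y` in `ℙⁿ` contained in none of the `F_i = 0` (algebraically
degenerate ones included) satisfy
`(1 - ε) (d_1 + ... + d_q) T_y(r) ≤ N₁(r, ∏ F_i(y)) + C log r` for all `r ≥ 2` outside a set of finite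
measure; a point is counted once also if `y` meets several of the `F_i = 0` there, or is tangent to
them. -/
theorem second_main_types (n : ℕ) (hn : 1 ≤ n) (ε : ℝ) (hε : 0 < ε) (hε1 : ε < 1) :
    ∃ D₀ : ℕ, ∀ (q : ℕ) (d : Fin q → ℕ), (∀ i, 1 ≤ d i) → D₀ ≤ ∑ i, d i →
      ForGenericForms n d fun F =>
        ∀ y : ℂ → Fin (n + 1) → ℂ, IsHolomorphicCurve y → (∀ i, ∃ z, eval (y z) (F i) ≠ 0) →
          ∃ (C : ℝ) (E : Set ℝ), volume E < ⊤ ∧ ∀ r : ℝ, 2 ≤ r → r ∉ E →
            (1 - ε) * (∑ i, d i : ℕ) * characteristic y r ≤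
              truncatedCounting (fun z => ∏ i, eval (y z) (F i)) r + C * log r :=
  SecondMain.second_main_types smtTypes n hn ε hε hε1

end Pool.Agent.H53Y
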