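import Pool.Agent.Lib.H53Y.D0

set_option autoImplicit false

/-!
H53Y, interface: the main theorems of the modules A + C, D, E (statements only; the modules prove
theorems with these statements in their own files, this file is not imported by anything final).
-/

open MvPolynomial Real MeasureTheory

namespace Pool.Agent.H53Y

open Pool.Agent.H89T Pool.Agent.H78G Pool.Agent.H67T

/-- Modules A + C. -/
def AC_statement : Prop :=
  ∀ {β : Type} [Fintype β] [DecidableEq β] (m : β → ℕ) (T : β → Bool) {n : ℕ}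
    (e : Co m ≃ Fin n), (∀ s, 1 ≤ m s) → (∀ s, T s = false → 2 ≤ m s) → ∀ α : ℝ, 0 < α →
    AlgG m T e α

/-- Module D.  One curve. -/
def D_statement : Prop :=
  ∀ {N : ℕ} {β : Type} [Fintype β] [DecidableEq β] {m : β → ℕ} {ι : Type} [Fintype ι]
    [DecidableEq ι] {sb : ι → β} {dg : ι → ℕ} (T : β → Bool) {n r M k μ : ℕ} (e : Co m ≃ Fin n)
    (D : CurveY N m ι sb dg),
    1 ≤ r → (∀ s, 1 ≤ m s) → (∀ s, m s ≤ r) → (∀ s, m s ≤ μ) →
    -- the charts `0`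
    (∀ z i, D.φ i z = 0 → ∀ s, D.w s z 0 ≠ 0) →
    -- the small blocks
    (∀ i, T (sb i) = true → dg i = 1) → (∀ s, T s = true → GenPos (D.θ s)) →
    (∀ s, T s = true → (∃ i, sb i = s) → m s + 1 ≤ Nat.card {i : ι // sb i = s}) →
    (∀ s, T s = true → ∃ z, Wr (D.w s) z ≠ 0) →
    -- the large blocks
    (∀ s, T s = false → ∀ z, Nat.card {i : ι // sb i = s ∧ D.φ i z = 0} ≤ k) →
    ∀ dB : ι → ℕ,
    (∀ i, T (sb i) = false → ∀ c : Fin (m (sb i) + 1),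
      ∃ Q : MvPolynomial (JV (m (sb i)) (m (sb i))) ℂ, HasWt (dB i) Q ∧
        PropB (cfF (dg i) c (D.F i)) Q ∧
        ∃ z, D.w (sb i) z c ≠ 0 ∧ eval (jetf (m (sb i)) (ch c (D.w (sb i))) z) Q ≠ 0) →
    -- the operator
    ∀ P : MvPolynomial (JV n r) ℂ, HasWt M P → PropG e D.a r P →
    (∃ z, (∀ s, D.w s z 0 ≠ 0) ∧ eval (jetf r (D.f e) z) P ≠ 0) →
    ∃ C : ℝ, 0 ≤ C ∧ ∀ ρ R : ℝ, 1 ≤ ρ → ρ < R →
      ((r * ∑ i, D.eg (sb i) * dg i : ℕ) : ℝ) * chi D.y ρ ≤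
        r * N1 (fun z => ∏ i, D.φ i z) ρ +
        ((Fintype.card β * (k * μ + μ ^ 2) * (M * ∑ s, D.eg s) +
          r * (∑ i, D.eg (sb i) * ((μ + 1) * dB i)) + r * ∑ s, D.eg s * (μ + 1) : ℕ) : ℝ) *
          chi D.y ρ + C * err D.y ρ R

/-- The form `f ∘ A`, `A` a matrix. -/
noncomputable def subM {n : ℕ} (A : Matrix (Fin (n + 1)) (Fin (n + 1)) ℂ)
    (F : MvPolynomial (Fin (n + 1)) ℂ) : MvPolynomial (Fin (n + 1)) ℂ :=
  aeval (fun i => ∑ j, C (A i j) * X j) F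

/-- The multiples of the linear equations `X (inr i) + ∑ b, s i b X (inl b.succ)`. -/
noncomputable def psi {n c : ℕ} (s : Fin c → Fin n → ℂ)
    (E : Fin c → MvPolynomial (Fin (n + 1) ⊕ Fin c) ℂ) : MvPolynomial (Fin (n + 1) ⊕ Fin c) ℂ :=
  ∑ i, (X (Sum.inr i) + ∑ b, C (s i b) * X (Sum.inl b.succ)) * E i

/-- The coefficients of forms of degrees `d j` in the variables `ν`. -/
abbrev FV {ιL : Type} (ν : Type) [Fintype ν] [DecidableEq ν] (d : ιL → ℕ) : Type :=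
  Σ j : ιL, Ex ν (d j)

/-- The coefficients of linear forms in `mm x + 1` variables. -/
abbrev LV {κ : Type} (mm : κ → ℕ) : Type := Σ x : κ, Fin (mm x + 1)

/-- The form of index `j`. -/
noncomputable def fmj {ιL ν : Type} [Fintype ν] [DecidableEq ν] {d : ιL → ℕ} (f : FV ν d → ℂ)
    (j : ιL) : MvPolynomial ν ℂ := fm (fun δ : Ex ν (d j) => f ⟨j, δ⟩)

/-- The coefficients of the extended forms. -/
noncomputable def extC {ιL : Type} {n c : ℕ} {d : ιL → ℕ} (f : FV (Fin (n + 1)) d → ℂ)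
    (A : Matrix (Fin (n + 1)) (Fin (n + 1)) ℂ) (lam : ιL → ℂ) (s : Fin c → Fin n → ℂ)
    (E : ιL → Fin c → MvPolynomial (Fin (n + 1) ⊕ Fin c) ℂ) :
    FV (Fin (n + 1) ⊕ Fin c) d → ℂ :=
  fun x => coeff x.2.1 (big ℂ (lam x.1) (psi s (E x.1)) (subM A (fmj f x.1)))

/-- The coefficients of the restricted linear forms. -/
noncomputable def resC {κ σ : Type} {m mv : σ → ℕ} {sx : κ → σ}
    (η : LV (fun x => mv (sx x)) → ℂ)
    (Lam : (s : σ) → Matrix (Fin (mv s + 1)) (Fin (m s + 1)) ℂ) (Q : κ → Prop) :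
    LV (fun x : {x : κ // Q x} => m (sx x.1)) → ℂ :=
  fun x => ∑ l, η ⟨x.1.1, l⟩ * Lam (sx x.1.1) l x.2

/-- Module E.  `ιL` = the large forms (degrees `d`), `κ` = the small forms, `sx x` the block of `x`
(dimension `m`, inside a space of dimension `mv`), `part x` the part of `x`. -/
def E_statement : Prop :=
  ∀ {n c nb : ℕ} {ιL : Type} [Fintype ιL] (d : ιL → ℕ) {σ κ : Type} [Fintype σ]
    [Fintype κ] (m mv : σ → ℕ) (sx : κ → σ) (part : κ → Fin nb),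
    (∀ j, 1 ≤ d j) →
    2 * ((n + 1) * (n + 1)) + ∑ s, 2 * ((m s + 1) * (mv s + 1)) ≤ c →
    ∀ Θ : (S : Finset (Fin nb)) → MvPolynomial (FV (Fin (n + 1) ⊕ Fin c) d ⊕
      LV (fun x : {x : κ // part x ∉ S} => m (sx x.1))) ℂ,
    (∀ S, S.card ≤ c → Θ S ≠ 0) →
    ∃ Ξ : MvPolynomial (FV (Fin (n + 1)) d ⊕ LV (fun x => mv (sx x))) ℂ, Ξ ≠ 0 ∧
      ∀ (f : FV (Fin (n + 1)) d → ℂ) (η : LV (fun x => mv (sx x)) → ℂ),
        eval (Sum.elim f η) Ξ ≠ 0 →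
        ∀ A A' : Matrix (Fin (n + 1)) (Fin (n + 1)) ℂ, A' * A = 1 →
        ∀ (Lam : (s : σ) → Matrix (Fin (mv s + 1)) (Fin (m s + 1)) ℂ)
          (Lb : (s : σ) → Matrix (Fin (m s + 1)) (Fin (mv s + 1)) ℂ),
          (∀ s, Lb s * Lam s = 1) →
          (∀ j, eval (fun i => A i 0) (fmj f j) ≠ 0) →
          ∃ S : Finset (Fin nb), S.card ≤ c ∧ ∃ (lam : ιL → ℂ) (s : Fin c → Fin n → ℂ)
            (E : ιL → Fin c → MvPolynomial (Fin (n + 1) ⊕ Fin c) ℂ),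
            (∀ j, lam j ≠ 0) ∧ (∀ j i, (E j i).IsHomogeneous (d j - 1)) ∧
            eval (Sum.elim (extC f A lam s E) (resC η Lam (fun x => part x ∉ S))) (Θ S) ≠ 0

end Pool.Agent.H53Y
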