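import Pool.Agent.Lib.H53Y.IDE
import Pool.Agent.Lib.H67T.Defs

set_option autoImplicit false

/-!
H53Y: the statements `SmtGap` and `SmtTypes` (interface between F14, F15 and T).
-/

open MvPolynomial Real MeasureTheory

namespace Pool.Agent.H53Y

open Pool.Agent.H89T Pool.Agent.H78G Pool.Agent.H67T

/-- The second main theorem with constant `b` holds for the forms with coefficients `f` and all
nonconstant curves which are contained in none of the hypersurfaces. -/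
def SmtF {n : ℕ} {ι : Type} [Fintype ι] {d : ι → ℕ} (b : ℝ) (f : FV (Fin (n + 1)) d → ℂ) : Prop :=
  ∀ y : ℂ → Fin (n + 1) → ℂ, IsHol y → (∃ z w, ∀ c : ℂ, y w ≠ c • y z) →
    (∀ i, ∃ z, eval (y z) (fmj f i) ≠ 0) →
    ∃ (C : ℝ) (E : Set ℝ), volume E < ⊤ ∧ ∀ ρ : ℝ, 2 ≤ ρ → ρ ∉ E →
      b * chi y ρ ≤ N1 (fun z => ∏ i, eval (y z) (fmj f i)) ρ + C * log ρ

/-- F14.  The degrees are at most `E₀` or at least `K`. -/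
def SmtGap : Prop :=
  ∀ (n : ℕ), 1 ≤ n → ∀ ε : ℝ, 0 < ε → ε ≤ 1 → ∀ E₀ : ℕ, ∃ K : ℕ,
    ∀ (ι : Type) [Fintype ι] (d : ι → ℕ), (∀ i, 1 ≤ d i) → (∀ i, d i ≤ E₀ ∨ K ≤ d i) →
      K ≤ ∑ i, d i →
      ∃ Ξ : MvPolynomial (FV (Fin (n + 1)) d) ℂ, Ξ ≠ 0 ∧
        ∀ f, eval f Ξ ≠ 0 → SmtF ((1 - ε / 2) * (∑ i, d i : ℕ)) f

/-- F15.  All types. -/
def SmtTypes : Prop :=
  ∀ (n : ℕ), 1 ≤ n → ∀ ε : ℝ, 0 < ε → ε ≤ 1 → ∃ D₀ : ℕ,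
    ∀ (ι : Type) [Fintype ι] (d : ι → ℕ), (∀ i, 1 ≤ d i) → D₀ ≤ ∑ i, d i →
      ∃ Ξ : MvPolynomial (FV (Fin (n + 1)) d) ℂ, Ξ ≠ 0 ∧
        ∀ f, eval f Ξ ≠ 0 → SmtF ((1 - ε) * (∑ i, d i : ℕ)) f

end Pool.Agent.H53Y
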